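import Pool.Agent.TH337.VF.Local

/-!
Linear algebra: traces over planes close to the kernel of a linear map.
-/

namespace Pool.Agent.Helper68V

open MeasureTheory Set Filter Topology Metric Pool.Agent.TH337.VF
open scoped ENNReal RealInnerProductSpace

variable {N : ℕ}

/-- the standard basis -/
noncomputable abbrev bs (N : ℕ) : OrthonormalBasis (Fin N) ℝ (E N) := EuclideanSpace.basisFun (Fin N) ℝ

lemma trc_comm (A B : E N →L[ℝ] E N) : trc (A ∘L B) = trc (B ∘L A) := by
  unfold trc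
  exact LinearMap.trace_mul_comm ℝ (A : E N →ₗ[ℝ] E N) (B : E N →ₗ[ℝ] E N)

lemma trc_sub (A B : E N →L[ℝ] E N) : trc (A - B) = trc A - trc B := by
  simp [trc]

lemma proj_symm (S : Submodule ℝ (E N)) (a b : E N) :
    ⟪S.starProjection a, b⟫ = ⟪a, S.starProjection b⟫ :=
  Submodule.inner_starProjection_left_eq_right S a b

lemma proj_idem (S : Submodule ℝ (E N)) (a : E N) :
    S.starProjection (S.starProjection a) = S.starProjection a :=
  Submodule.starProjection_eq_self_iff.2 (Submodule.starProjection_apply_mem S a)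

lemma proj_comp (S : Submodule ℝ (E N)) : S.starProjection ∘L S.starProjection = S.starProjection := by
  ext1 a
  exact proj_idem S a

lemma proj_sq (S : Submodule ℝ (E N)) (a : E N) :
    ‖S.starProjection a‖ ^ 2 = ⟪a, S.starProjection a⟫ := by
  rw [← real_inner_self_eq_norm_sq, proj_symm, proj_idem]

lemma proj_res_sq (S : Submodule ℝ (E N)) (a : E N) :
    ‖a - S.starProjection a‖ ^ 2 = ‖a‖ ^ 2 - ⟪a, S.starProjection a⟫ := by
  rw [← real_inner_self_eq_norm_sq, inner_sub_left, inner_sub_right, inner_sub_right, proj_symm S a a,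
    proj_symm S a (S.starProjection a), proj_idem, real_inner_self_eq_norm_sq]
  ring

/-- the sum of the squares of the distances of the projected basis from `T` -/
noncomputable def defect (S T : Submodule ℝ (E N)) : ℝ :=
  ∑ i, ‖S.starProjection (bs N i) - T.starProjection (S.starProjection (bs N i))‖ ^ 2

lemma defect_nonneg (S T : Submodule ℝ (E N)) : 0 ≤ defect S T :=
  Finset.sum_nonneg fun _ _ => by positivity

lemma defect_eq (S T : Submodule ℝ (E N)) :
    defect S T = trc S.starProjection - trc (T.starProjection ∘L S.starProjection) := by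
  have h1 : trc (T.starProjection ∘L S.starProjection) =
      trc (S.starProjection ∘L (T.starProjection ∘L S.starProjection)) := by
    rw [trc_comm S.starProjection, ContinuousLinearMap.comp_assoc, proj_comp]
  rw [h1, trc_eq, trc_eq, ← Finset.sum_sub_distrib]
  unfold defect
  refine Finset.sum_congr rfl fun i _ => ?_
  rw [proj_res_sq, proj_sq]
  simp only [ContinuousLinearMap.comp_apply]
  rw [proj_symm]

lemma defect' (S T : Submodule ℝ (E N)) :
    ∑ i, ‖T.starProjection (bs N i - S.starProjection (bs N i))‖ ^ 2 =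
      trc T.starProjection - trc (T.starProjection ∘L S.starProjection) := by
  set P := S.starProjection with hP
  set Q := T.starProjection with hQ
  set R : E N →L[ℝ] E N := ContinuousLinearMap.id ℝ (E N) - P with hR
  have hRR : R ∘L R = R := by
    ext1 a
    simp only [hR, ContinuousLinearMap.comp_apply, sub_apply,
      ContinuousLinearMap.id_apply, map_sub, hP, proj_idem]
    abel
  have h1 : ∀ i, ‖Q (bs N i - P (bs N i))‖ ^ 2 = ⟪bs N i, (R ∘L (Q ∘L R)) (bs N i)⟫ := by
    intro i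
    rw [hQ, proj_sq]
    simp only [hR, ContinuousLinearMap.comp_apply, sub_apply,
      ContinuousLinearMap.id_apply]
    rw [inner_sub_left, inner_sub_right, hP, proj_symm]
  rw [Finset.sum_congr rfl fun i _ => h1 i, ← trc_eq, trc_comm R, ContinuousLinearMap.comp_assoc, hRR,
    hR, ContinuousLinearMap.comp_sub, trc_sub, ContinuousLinearMap.comp_id]

lemma sum_le_sqrt {B : E N →L[ℝ] E N →L[ℝ] ℝ} {κ : ℝ} (hκ0 : 0 ≤ κ)
    (hκ : ∑ i, ‖B (bs N i)‖ ^ 2 ≤ κ ^ 2) (x : Fin N → E N) :
    |∑ i, B (bs N i) (x i)| ≤ κ * Real.sqrt (∑ i, ‖x i‖ ^ 2) := by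
  have h1 : |∑ i, B (bs N i) (x i)| ≤ ∑ i, ‖B (bs N i)‖ * ‖x i‖ := by
    refine (Finset.abs_sum_le_sum_abs _ _).trans (Finset.sum_le_sum fun i _ => ?_)
    exact (B (bs N i)).le_opNorm (x i)
  have h2 : (∑ i, ‖B (bs N i)‖ * ‖x i‖) ^ 2 ≤ (∑ i, ‖B (bs N i)‖ ^ 2) * (∑ i, ‖x i‖ ^ 2) :=
    Finset.sum_mul_sq_le_sq_mul_sq _ _ _
  have h3 : 0 ≤ ∑ i, ‖x i‖ ^ 2 := Finset.sum_nonneg fun _ _ => by positivity
  have h4 : (∑ i, ‖B (bs N i)‖ * ‖x i‖) ^ 2 ≤ (κ * Real.sqrt (∑ i, ‖x i‖ ^ 2)) ^ 2 := by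
    rw [mul_pow, Real.sq_sqrt h3]
    exact h2.trans (mul_le_mul_of_nonneg_right hκ h3)
  have h5 := abs_le_of_sq_le_sq h4 (by positivity)
  rw [abs_le] at h5
  exact h1.trans h5.2

/-- the trace of `L^* L` over `S` -/
lemma trace_LL (S : Submodule ℝ (E N)) (L : E N →L[ℝ] E N) :
    ∑ i, ⟪L (bs N i), L (S.starProjection (bs N i))⟫ = ∑ i, ‖L (S.starProjection (bs N i))‖ ^ 2 := by
  set P := S.starProjection with hP
  set A : E N →L[ℝ] E N := ContinuousLinearMap.adjoint L ∘L L with hA
  have h1 : ∀ i, ⟪L (bs N i), L (P (bs N i))⟫ = ⟪bs N i, (A ∘L P) (bs N i)⟫ := by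
    intro i
    simp only [hA, ContinuousLinearMap.comp_apply]
    rw [ContinuousLinearMap.adjoint_inner_right]
  have h2 : ∀ i, ‖L (P (bs N i))‖ ^ 2 = ⟪bs N i, (P ∘L (A ∘L P)) (bs N i)⟫ := by
    intro i
    simp only [hA, ContinuousLinearMap.comp_apply]
    rw [hP, ← proj_symm, ContinuousLinearMap.adjoint_inner_right, real_inner_self_eq_norm_sq]
  have h3 : (A ∘L P) ∘L P = A ∘L P := by
    ext1 a
    simp only [ContinuousLinearMap.comp_apply, hP, proj_idem]
  rw [Finset.sum_congr rfl fun i _ => h1 i, Finset.sum_congr rfl fun i _ => h2 i, ← trc_eq, ← trc_eq,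
    trc_comm P, h3]

lemma defect_le (S T : Submodule ℝ (E N)) (L : E N →L[ℝ] E N)
    (hL : ∀ v, ‖v - T.starProjection v‖ ≤ ‖L v‖) :
    defect S T ≤ ∑ i, ⟪L (bs N i), L (S.starProjection (bs N i))⟫ := by
  rw [trace_LL]
  unfold defect
  exact Finset.sum_le_sum fun i _ => pow_le_pow_left₀ (norm_nonneg _) (hL _) 2

/-- **the key inequality** -/
lemma key (S T : Submodule ℝ (E N)) (hd : Module.finrank ℝ S = Module.finrank ℝ T)
    (L : E N →L[ℝ] E N) (hL : ∀ v, ‖v - T.starProjection v‖ ≤ ‖L v‖)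
    (B : E N →L[ℝ] E N →L[ℝ] ℝ) (hB : ∑ i, B (bs N i) (T.starProjection (bs N i)) = 0)
    {κ : ℝ} (hκ0 : 0 ≤ κ) (hκ : ∑ i, ‖B (bs N i)‖ ^ 2 ≤ κ ^ 2) :
    -κ ^ 2 ≤ ∑ i, ⟪L (bs N i), L (S.starProjection (bs N i))⟫ +
      ∑ i, B (bs N i) (S.starProjection (bs N i)) := by
  have h1 := defect_le S T L hL
  have h2 : ∑ i, B (bs N i) (S.starProjection (bs N i)) =
      ∑ i, B (bs N i) (S.starProjection (bs N i) - T.starProjection (S.starProjection (bs N i))) -
      ∑ i, B (bs N i) (T.starProjection (bs N i - S.starProjection (bs N i))) := by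
    have h3 : ∑ i, B (bs N i) (S.starProjection (bs N i)) =
        ∑ i, B (bs N i) (S.starProjection (bs N i)) -
          ∑ i, B (bs N i) (T.starProjection (bs N i)) := by
      rw [hB, sub_zero]
    rw [h3, ← Finset.sum_sub_distrib, ← Finset.sum_sub_distrib]
    refine Finset.sum_congr rfl fun i _ => ?_
    simp only [map_sub]
    ring
  have h4 := sum_le_sqrt hκ0 hκ fun i =>
    S.starProjection (bs N i) - T.starProjection (S.starProjection (bs N i))
  have h5 := sum_le_sqrt hκ0 hκ fun i => T.starProjection (bs N i - S.starProjection (bs N i))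
  have h6 : ∑ i, ‖T.starProjection (bs N i - S.starProjection (bs N i))‖ ^ 2 = defect S T := by
    rw [defect', defect_eq, trc_starProjection, trc_starProjection, hd]
  rw [h6] at h5
  change |_| ≤ κ * Real.sqrt (defect S T) at h4
  rw [h2]
  rw [abs_le] at h4 h5
  have h7 := Real.sq_sqrt (defect_nonneg S T)
  nlinarith [sq_nonneg (Real.sqrt (defect S T) - κ), h4.1, h5.2]

end Pool.Agent.Helper68V
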