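import Pool.Agent.Helper68V.A

/-!
The height function over a minimal graph.
-/

namespace Pool.Agent.Helper68V

open MeasureTheory Set Filter Topology Metric Pool.Agent.TH337.VF
open scoped ENNReal RealInnerProductSpace

variable {N : ℕ}

/-- the trace of a bilinear map over a subspace, in terms of an orthonormal basis of it -/
lemma sum_basis {G : Type*} [NormedAddCommGroup G] [NormedSpace ℝ G] {ι : Type*} [Fintype ι]
    (T : Submodule ℝ (E N)) (τ : OrthonormalBasis ι ℝ T) (B : E N →L[ℝ] E N →L[ℝ] G) :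
    ∑ i, B (bs N i) (T.starProjection (bs N i)) = ∑ j, B (τ j : E N) (τ j : E N) := by
  have h1 : ∀ v : E N, T.starProjection v = ∑ j, ⟪(τ j : E N), v⟫ • (τ j : E N) := by
    intro v
    have h2 := τ.sum_repr' (T.orthogonalProjectionOnto v)
    have h3 : T.starProjection v = ((T.orthogonalProjectionOnto v : T) : E N) := rfl
    rw [h3]
    conv_lhs => rw [← h2]
    simp only [Submodule.coe_sum, Submodule.coe_smul]
    refine Finset.sum_congr rfl fun j _ => ?_
    congr 1
    rw [Submodule.coe_inner, ← h3, ← proj_symm]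
    congr 1
    exact Submodule.starProjection_eq_self_iff.2 (τ j).2
  have h2 : ∀ i, B (bs N i) (T.starProjection (bs N i)) =
      ∑ j, ⟪bs N i, (τ j : E N)⟫ • B (bs N i) (τ j : E N) := by
    intro i
    rw [h1, map_sum]
    refine Finset.sum_congr rfl fun j _ => ?_
    rw [map_smul, real_inner_comm]
  rw [Finset.sum_congr rfl fun i _ => h2 i, Finset.sum_comm]
  refine Finset.sum_congr rfl fun j _ => ?_
  have h3 : ∑ i, ⟪bs N i, (τ j : E N)⟫ • bs N i = (τ j : E N) := (bs N).sum_repr' _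
  have h4 : B (τ j : E N) (τ j : E N) = B (∑ i, ⟪bs N i, (τ j : E N)⟫ • bs N i) (τ j : E N) := by
    rw [h3]
  rw [h4, map_sum, sum_apply]
  refine Finset.sum_congr rfl fun i _ => ?_
  rw [map_smul, smul_apply]

/-- The tangent plane of the graph of `u : π → πᗮ` at the point above `x`. -/
noncomputable def tp {π : Submodule ℝ (E N)} (u : π → πᗮ) (x : π) : Submodule ℝ (E N) :=
  LinearMap.range (π.subtype + πᗮ.subtype ∘ₗ (fderiv ℝ u x : π →ₗ[ℝ] πᗮ))

section graph

variable {π : Submodule ℝ (E N)} {u : π → πᗮ}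

lemma mem_tp {x : π} {v : E N} : v ∈ tp u x ↔ ∃ a : π, (a : E N) + (fderiv ℝ u x a : E N) = v := by
  unfold tp
  rw [LinearMap.mem_range]
  rfl

/-- the vertical distance -/
noncomputable def ht (u : π → πᗮ) (z : E N) : E N :=
  πᗮ.starProjection z - (u (π.orthogonalProjectionOnto z) : E N)

/-- its derivative -/
noncomputable def dht (u : π → πᗮ) (x : π) : E N →L[ℝ] E N :=
  πᗮ.starProjection - πᗮ.subtypeL ∘L (fderiv ℝ u x) ∘L π.orthogonalProjectionOnto

lemma proj_self (a : π) : π.orthogonalProjectionOnto (a : E N) = a :=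
  Submodule.orthogonalProjectionOnto_mem_subspace_eq_self a

lemma proj_perp (b : πᗮ) : π.orthogonalProjectionOnto (b : E N) = 0 :=
  Submodule.orthogonalProjectionOnto_apply_of_mem_orthogonal b.2

lemma perp_self (b : πᗮ) : πᗮ.starProjection (b : E N) = b :=
  Submodule.starProjection_eq_self_iff.2 b.2

lemma perp_proj (a : π) : πᗮ.starProjection (a : E N) = 0 := by
  rw [Submodule.starProjection_orthogonal_apply_eq_zero]
  exact a.2

lemma dht_tp {x : π} {v : E N} (hv : v ∈ tp u x) : dht u x v = 0 := by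
  obtain ⟨a, rfl⟩ := mem_tp.1 hv
  unfold dht
  simp only [sub_apply, ContinuousLinearMap.comp_apply, map_add, proj_self,
    proj_perp, perp_self, perp_proj, Submodule.subtypeL_apply]
  simp

lemma dht_ge (x : π) (v : E N) : ‖v - (tp u x).starProjection v‖ ≤ ‖dht u x v‖ := by
  set T := tp u x with hT
  set s := v - T.starProjection v with hs
  have h1 : dht u x v = dht u x s := by
    rw [hs, map_sub, dht_tp (Submodule.starProjection_apply_mem T v), sub_zero]
  have hperp : ∀ t ∈ T, ⟪s, t⟫ = 0 := by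
    intro t ht
    rw [hs, inner_sub_left, proj_symm, Submodule.starProjection_eq_self_iff.2 ht, sub_self]
  set a := π.orthogonalProjectionOnto s with ha
  set b := πᗮ.starProjection s with hb
  have hab : s = (a : E N) + b := by
    rw [ha, hb]
    exact (Submodule.starProjection_add_starProjection_orthogonal (K := π) s).symm
  have hbm : b ∈ πᗮ := Submodule.starProjection_apply_mem _ _
  have h2 : ⟪(a : E N), b⟫ = 0 := hbm a a.2
  have h3 := hperp _ (mem_tp.2 ⟨a, rfl⟩)
  have h4 : ⟪(a : E N), (fderiv ℝ u x a : E N)⟫ = 0 := (fderiv ℝ u x a).2 a a.2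
  have h5 : ⟪b, (fderiv ℝ u x a : E N)⟫ = -‖a‖ ^ 2 := by
    rw [hab, inner_add_left, inner_add_right, inner_add_right, h4, real_inner_comm (a : E N) b, h2,
      real_inner_self_eq_norm_sq] at h3
    have : ‖(a : E N)‖ = ‖a‖ := rfl
    rw [this] at h3
    linarith
  have h6 : dht u x s = b - (fderiv ℝ u x a : E N) := by
    unfold dht
    simp only [sub_apply, ContinuousLinearMap.comp_apply, Submodule.subtypeL_apply]
    rfl
  have h7 : ‖s‖ ^ 2 = ‖a‖ ^ 2 + ‖b‖ ^ 2 := by
    rw [hab, ← real_inner_self_eq_norm_sq, inner_add_left, inner_add_right, inner_add_right, h2,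
      real_inner_comm (a : E N) b, h2, real_inner_self_eq_norm_sq, real_inner_self_eq_norm_sq]
    have : ‖(a : E N)‖ = ‖a‖ := rfl
    rw [this]
    ring
  have h8 : ⟪b, dht u x s⟫ = ‖s‖ ^ 2 := by
    rw [h6, inner_sub_right, h5, real_inner_self_eq_norm_sq, h7]
    ring
  have h9 : ‖s‖ ^ 2 ≤ ‖b‖ * ‖dht u x s‖ := by
    rw [← h8]
    exact real_inner_le_norm _ _
  have h10 : ‖b‖ ≤ ‖s‖ := by
    have := sq_nonneg ‖a‖
    exact le_of_sq_le_sq (by linarith) (norm_nonneg _)
  rw [h1]
  rcases (norm_nonneg s).eq_or_lt with h | h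
  · rw [← h]
    exact norm_nonneg _
  · have h11 : ‖s‖ * ‖s‖ ≤ ‖s‖ * ‖dht u x s‖ := by
      calc ‖s‖ * ‖s‖ = ‖s‖ ^ 2 := by ring
        _ ≤ ‖b‖ * ‖dht u x s‖ := h9
        _ ≤ ‖s‖ * ‖dht u x s‖ := mul_le_mul_of_nonneg_right h10 (norm_nonneg _)
    exact le_of_mul_le_mul_left h11 h

lemma finrank_tp (x : π) : Module.finrank ℝ (tp u x) = Module.finrank ℝ π := by
  unfold tp
  apply LinearMap.finrank_range_of_inj
  intro a b hab
  have h1 : π.orthogonalProjectionOnto ((π.subtype + πᗮ.subtype ∘ₗ (fderiv ℝ u x : π →ₗ[ℝ] πᗮ)) a) =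
      π.orthogonalProjectionOnto ((π.subtype + πᗮ.subtype ∘ₗ (fderiv ℝ u x : π →ₗ[ℝ] πᗮ)) b) := by
    rw [hab]
  have h2 : ∀ c : π, π.orthogonalProjectionOnto
      ((π.subtype + πᗮ.subtype ∘ₗ (fderiv ℝ u x : π →ₗ[ℝ] πᗮ)) c) = c := by
    intro c
    have : (π.subtype + πᗮ.subtype ∘ₗ (fderiv ℝ u x : π →ₗ[ℝ] πᗮ)) c =
      (c : E N) + (fderiv ℝ u x c : E N) := rfl
    rw [this, map_add, proj_self, proj_perp, add_zero]
  rwa [h2, h2] at h1

end graph

end Pool.Agent.Helper68V
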