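import Pool.Agent.Helper68V.A

/-!
Gradient fields and second derivatives traced over planes; the first variation tested with them.
-/

namespace Pool.Agent.Helper68V

open MeasureTheory Set Filter Topology Metric Pool.Agent.TH337.VF
open scoped ENNReal RealInnerProductSpace

variable {N : ℕ}

/-- the gradient -/
noncomputable def grd (f : E N → ℝ) (z : E N) : E N := ∑ i, fderiv ℝ f z (bs N i) • bs N i

/-- the trace of the second derivative over the plane `S` -/
noncomputable def lap (S : Submodule ℝ (E N)) (f : E N → ℝ) (z : E N) : ℝ :=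
  ∑ i, fderiv ℝ (fderiv ℝ f) z (bs N i) (S.starProjection (bs N i))

lemma inner_grd (f : E N → ℝ) (z v : E N) : ⟪grd f z, v⟫ = fderiv ℝ f z v := by
  unfold grd
  rw [sum_inner]
  conv_rhs => rw [← (bs N).sum_repr' v, map_sum]
  refine Finset.sum_congr rfl fun i _ => ?_
  rw [real_inner_smul_left, map_smul, smul_eq_mul, mul_comm]

lemma norm_grd (f : E N → ℝ) (z : E N) : ‖grd f z‖ ≤ ‖fderiv ℝ f z‖ := by
  have h1 : ‖grd f z‖ * ‖grd f z‖ ≤ ‖fderiv ℝ f z‖ * ‖grd f z‖ := by
    rw [← real_inner_self_eq_norm_mul_norm, inner_grd]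
    exact (le_abs_self _).trans ((fderiv ℝ f z).le_opNorm _)
  rcases (norm_nonneg (grd f z)).eq_or_lt with h | h
  · rw [← h]
    exact norm_nonneg _
  · exact le_of_mul_le_mul_right h1 h

lemma contDiff_fderiv_apply {f : E N → ℝ} (hf : ContDiff ℝ 2 f) (v : E N) :
    ContDiff ℝ 1 (fun z => fderiv ℝ f z v) :=
  (hf.fderiv_right (m := 1) (by norm_num)).clm_apply contDiff_const

lemma grd_contDiff {f : E N → ℝ} (hf : ContDiff ℝ 2 f) : ContDiff ℝ 1 (grd f) := by
  unfold grd
  exact ContDiff.sum fun i _ => (contDiff_fderiv_apply hf _).smul contDiff_const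

lemma fderiv_grd {f : E N → ℝ} (hf : ContDiff ℝ 2 f) (z a : E N) :
    fderiv ℝ (grd f) z a = ∑ i, fderiv ℝ (fderiv ℝ f) z a (bs N i) • bs N i := by
  have h1 : DifferentiableAt ℝ (fderiv ℝ f) z :=
    (hf.fderiv_right (m := 1) (by norm_num)).differentiable one_ne_zero z
  have h2 : ∀ i, HasFDerivAt (fun z => fderiv ℝ f z (bs N i) • bs N i)
      (((fderiv ℝ (fderiv ℝ f) z).flip (bs N i)).smulRight (bs N i)) z := by
    intro i
    have h3 : HasFDerivAt (fun z => fderiv ℝ f z (bs N i))
        ((fderiv ℝ (fderiv ℝ f) z).flip (bs N i)) z := by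
      have := h1.hasFDerivAt.clm_apply (hasFDerivAt_const (bs N i) z)
      simpa using this
    exact h3.smul_const _
  have h4 := HasFDerivAt.fun_sum (u := Finset.univ) fun i _ => h2 i
  unfold grd
  rw [h4.fderiv, sum_apply]
  rfl

lemma trc_grd {f : E N → ℝ} (hf : ContDiff ℝ 2 f) (S : Submodule ℝ (E N)) (z : E N) :
    trc (S.starProjection ∘L fderiv ℝ (grd f) z) = lap S f z := by
  rw [trc_eq]
  unfold lap
  refine Finset.sum_congr rfl fun j _ => ?_
  rw [ContinuousLinearMap.comp_apply, ← proj_symm, fderiv_grd hf, inner_sum]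
  conv_rhs => rw [← (bs N).sum_repr' (S.starProjection (bs N j)), map_sum]
  refine Finset.sum_congr rfl fun i _ => ?_
  rw [real_inner_smul_right, map_smul, smul_eq_mul, mul_comm, real_inner_comm]

/-- the derivative of `φ • grd f`, traced over `S` -/
lemma trc_smul_grd {φ f : E N → ℝ} (hφ : ContDiff ℝ 1 φ) (hf : ContDiff ℝ 2 f)
    (S : Submodule ℝ (E N)) (z : E N) :
    trc (S.starProjection ∘L fderiv ℝ (fun y => φ y • grd f y) z) =
      φ z * lap S f z + fderiv ℝ φ z (S.starProjection (grd f z)) := by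
  have h1 : fderiv ℝ (fun y => φ y • grd f y) z =
      φ z • fderiv ℝ (grd f) z + (fderiv ℝ φ z).smulRight (grd f z) := by
    have ha := ((hφ.differentiable one_ne_zero z).hasFDerivAt).smul
      (((grd_contDiff hf).differentiable one_ne_zero z).hasFDerivAt)
    exact ha.fderiv
  rw [h1, ContinuousLinearMap.comp_add, trc_add, trc_rank, ContinuousLinearMap.comp_smul, trc_smul,
    trc_grd hf]

/-- `lap` of a product with a fixed plane -/
lemma lap_add {f g : E N → ℝ} (hf : ContDiff ℝ 2 f) (hg : ContDiff ℝ 2 g) (S : Submodule ℝ (E N))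
    (z : E N) : lap S (fun y => f y + g y) z = lap S f z + lap S g z := by
  have h1 : fderiv ℝ (fun y => f y + g y) = fun y => fderiv ℝ f y + fderiv ℝ g y := by
    funext y
    exact fderiv_add (hf.differentiable two_ne_zero y) (hg.differentiable two_ne_zero y)
  have h2 : fderiv ℝ (fderiv ℝ (fun y => f y + g y)) z =
      fderiv ℝ (fderiv ℝ f) z + fderiv ℝ (fderiv ℝ g) z := by
    rw [h1]
    exact fderiv_add ((hf.fderiv_right (m := 1) (by norm_num)).differentiable one_ne_zero z)
      ((hg.fderiv_right (m := 1) (by norm_num)).differentiable one_ne_zero z)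
  unfold lap
  rw [h2, ← Finset.sum_add_distrib]
  rfl

end Pool.Agent.Helper68V
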