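import Pool.Agent.Helper68V.B
import Pool.Agent.Helper68V.C
import Mathlib.Analysis.Calculus.BumpFunction.InnerProduct

/-!
A minimal graph is locally the zero set of a function whose second derivative has almost nonnegative
traces over all planes.
-/

namespace Pool.Agent.Helper68V

open MeasureTheory Set Filter Topology Metric Pool.Agent.TH337.VF
open scoped ENNReal RealInnerProductSpace

variable {N : ℕ}

/-- evaluation of the second derivative -/
lemma fderiv_apply_const {F G : Type*} [NormedAddCommGroup F] [NormedSpace ℝ F]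
    [NormedAddCommGroup G] [NormedSpace ℝ G] {c : E N → F →L[ℝ] G} {z : E N}
    (hc : DifferentiableAt ℝ c z) (b : F) (a : E N) :
    fderiv ℝ (fun y => c y b) z a = fderiv ℝ c z a b := by
  have h1 := hc.hasFDerivAt.clm_apply (hasFDerivAt_const b z)
  rw [h1.fderiv]
  simp

section half

variable {w : E N → E N} {z : E N}

lemma half_fderiv (hw : DifferentiableAt ℝ w z) :
    fderiv ℝ (fun y => ‖w y‖ ^ 2 / 2) z = (innerSL ℝ (w z)) ∘L (fderiv ℝ w z) := by
  have h1 : HasFDerivAt (fun y => ‖w y‖ ^ 2) (2 • (innerSL ℝ (w z)).comp (fderiv ℝ w z)) z :=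
    hw.hasFDerivAt.norm_sq
  have h2 : HasFDerivAt (fun y => ‖w y‖ ^ 2 / 2)
      ((1 / 2 : ℝ) • (2 • (innerSL ℝ (w z)).comp (fderiv ℝ w z))) z := by
    have h1' := h1.const_smul (1 / 2 : ℝ)
    refine h1'.congr_of_eventuallyEq (Eventually.of_forall fun y => ?_)
    change ‖w y‖ ^ 2 / 2 = (1 / 2 : ℝ) • (‖w y‖ ^ 2)
    rw [smul_eq_mul]
    ring
  rw [h2.fderiv]
  ext v
  simp only [smul_apply, ContinuousLinearMap.comp_apply, smul_eq_mul, nsmul_eq_mul]
  push_cast
  ring

lemma half_hess (hw : ContDiffAt ℝ 2 w z) (a b : E N) :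
    fderiv ℝ (fderiv ℝ (fun y => ‖w y‖ ^ 2 / 2)) z a b =
      ⟪fderiv ℝ w z a, fderiv ℝ w z b⟫ + ⟪w z, fderiv ℝ (fderiv ℝ w) z a b⟫ := by
  have h1 : ∀ᶠ y in 𝓝 z, DifferentiableAt ℝ w y := by
    filter_upwards [hw.eventually (by simp)] with y hy
    exact hy.differentiableAt two_ne_zero
  have h2 : fderiv ℝ (fun y => ‖w y‖ ^ 2 / 2) =ᶠ[𝓝 z]
      fun y => (innerSL ℝ (w y)) ∘L (fderiv ℝ w y) := by
    filter_upwards [h1] with y hy
    exact half_fderiv hy
  have h3 : ContDiffAt ℝ 1 (fderiv ℝ w) z := hw.fderiv_right (by norm_num)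
  have h4 : DifferentiableAt ℝ (fderiv ℝ w) z := h3.differentiableAt one_ne_zero
  have h5 : DifferentiableAt ℝ w z := hw.differentiableAt two_ne_zero
  have h6 : DifferentiableAt ℝ (fun y => (innerSL ℝ (w y)) ∘L (fderiv ℝ w y)) z := by
    have h7 : DifferentiableAt ℝ (fun y => innerSL ℝ (w y)) z :=
      (innerSL ℝ (E := E N)).differentiableAt.comp z h5
    exact h7.clm_comp h4
  rw [h2.fderiv_eq, ← fderiv_apply_const h6]
  have h8 : (fun y => ((innerSL ℝ (w y)) ∘L (fderiv ℝ w y)) b) =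
      fun y => ⟪w y, fderiv ℝ w y b⟫ := by
    funext y
    rfl
  rw [h8]
  have h9 : DifferentiableAt ℝ (fun y => fderiv ℝ w y b) z := h4.clm_apply (differentiableAt_const b)
  rw [fderiv_inner_apply ℝ h5 h9, fderiv_apply_const h4]
  ring

end half

section graph

variable {π : Submodule ℝ (E N)} {u : π → πᗮ} {x₀ : E N} {r : ℝ}

lemma proj_mem_ball {z : E N} (hz : z ∈ ball x₀ r) :
    π.orthogonalProjectionOnto z ∈ ball (π.orthogonalProjectionOnto x₀) r := by
  rw [mem_ball, dist_eq_norm] at hz ⊢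
  rw [← map_sub]
  exact (Submodule.norm_orthogonalProjectionOnto_apply_le π _).trans_lt hz

lemma ht_contDiffOn (hu : ContDiffOn ℝ 2 u (ball (π.orthogonalProjectionOnto x₀) r)) :
    ContDiffOn ℝ 2 (ht u) (ball x₀ r) := by
  unfold ht
  have h1 : ContDiffOn ℝ 2 (fun z => u (π.orthogonalProjectionOnto z)) (ball x₀ r) :=
    hu.comp (π.orthogonalProjectionOnto.contDiff.contDiffOn) fun z hz => proj_mem_ball hz
  exact (πᗮ.starProjection.contDiff.contDiffOn).sub (πᗮ.subtypeL.contDiff.comp_contDiffOn h1)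

lemma ht_hasFDerivAt (hu : ContDiffOn ℝ 2 u (ball (π.orthogonalProjectionOnto x₀) r)) {z : E N}
    (hz : z ∈ ball x₀ r) : HasFDerivAt (ht u) (dht u (π.orthogonalProjectionOnto z)) z := by
  have h1 : DifferentiableAt ℝ u (π.orthogonalProjectionOnto z) :=
    (hu.contDiffAt (isOpen_ball.mem_nhds (proj_mem_ball hz))).differentiableAt two_ne_zero
  have h2 : HasFDerivAt (fun z => u (π.orthogonalProjectionOnto z))
      ((fderiv ℝ u (π.orthogonalProjectionOnto z)) ∘L π.orthogonalProjectionOnto) z :=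
    h1.hasFDerivAt.comp z π.orthogonalProjectionOnto.hasFDerivAt
  exact πᗮ.starProjection.hasFDerivAt.sub (πᗮ.subtypeL.hasFDerivAt.comp z h2)

lemma ht_second (hu : ContDiffOn ℝ 2 u (ball (π.orthogonalProjectionOnto x₀) r)) {z : E N}
    (hz : z ∈ ball x₀ r) (a b : E N) : fderiv ℝ (fderiv ℝ (ht u)) z a b =
      -(fderiv ℝ (fderiv ℝ u) (π.orthogonalProjectionOnto z) (π.orthogonalProjectionOnto a)
        (π.orthogonalProjectionOnto b) : E N) := by
  have h0 : fderiv ℝ (ht u) =ᶠ[𝓝 z] fun y => dht u (π.orthogonalProjectionOnto y) := by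
    filter_upwards [isOpen_ball.mem_nhds hz] with y hy
    exact (ht_hasFDerivAt hu hy).fderiv
  have h1 : DifferentiableAt ℝ (fderiv ℝ u) (π.orthogonalProjectionOnto z) :=
    ((hu.contDiffAt (isOpen_ball.mem_nhds (proj_mem_ball hz))).fderiv_right (m := 1)
      (by norm_num)).differentiableAt one_ne_zero
  have h2 : DifferentiableAt ℝ (fderiv ℝ (ht u)) z :=
    (((ht_contDiffOn hu).contDiffAt (isOpen_ball.mem_nhds hz)).fderiv_right (m := 1)
      (by norm_num)).differentiableAt one_ne_zero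
  have h3 : (fun y => fderiv ℝ (ht u) y b) =ᶠ[𝓝 z] fun y => πᗮ.starProjection b -
      (fderiv ℝ u (π.orthogonalProjectionOnto y) (π.orthogonalProjectionOnto b) : E N) := by
    filter_upwards [h0] with y hy
    rw [hy]
    rfl
  rw [← fderiv_apply_const h2, h3.fderiv_eq]
  have h4 : HasFDerivAt (fun y => fderiv ℝ u (π.orthogonalProjectionOnto y))
      ((fderiv ℝ (fderiv ℝ u) (π.orthogonalProjectionOnto z)) ∘L π.orthogonalProjectionOnto) z :=
    HasFDerivAt.comp (g := fderiv ℝ u) z h1.hasFDerivAt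
      (π.orthogonalProjectionOnto.hasFDerivAt (x := z))
  have h5 := h4.clm_apply (hasFDerivAt_const (π.orthogonalProjectionOnto b) z)
  have h6 : HasFDerivAt (fun y => (fderiv ℝ u (π.orthogonalProjectionOnto y)
      (π.orthogonalProjectionOnto b) : E N)) _ z := πᗮ.subtypeL.hasFDerivAt.comp z h5
  have h7 := h6.const_sub (πᗮ.starProjection b)
  rw [h7.fderiv]
  simp

/-- the graph of `u` has mean curvature zero at the point above `x` -/
def MinAt (m : ℕ) (u : π → πᗮ) (x : π) : Prop :=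
  ∀ τ : OrthonormalBasis (Fin m) ℝ (tp u x),
    ∑ i, fderiv ℝ (fderiv ℝ u) x (π.orthogonalProjectionOnto (τ i : E N))
      (π.orthogonalProjectionOnto (τ i : E N)) = 0

lemma ht_trace {m : ℕ} (hm : Module.finrank ℝ π = m)
    (hu : ContDiffOn ℝ 2 u (ball (π.orthogonalProjectionOnto x₀) r)) {z : E N}
    (hz : z ∈ ball x₀ r) (hM : MinAt m u (π.orthogonalProjectionOnto z)) :
    ∑ i, fderiv ℝ (fderiv ℝ (ht u)) z (bs N i)
      ((tp u (π.orthogonalProjectionOnto z)).starProjection (bs N i)) = 0 := by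
  have h1 : Module.finrank ℝ (tp u (π.orthogonalProjectionOnto z)) = m := by
    rw [finrank_tp, hm]
  set τ : OrthonormalBasis (Fin m) ℝ (tp u (π.orthogonalProjectionOnto z)) :=
    (stdOrthonormalBasis ℝ (tp u (π.orthogonalProjectionOnto z))).reindex (finCongr h1)
  rw [sum_basis _ τ]
  have h2 : ∀ i, fderiv ℝ (fderiv ℝ (ht u)) z (τ i : E N) (τ i : E N) =
      -(fderiv ℝ (fderiv ℝ u) (π.orthogonalProjectionOnto z)
        (π.orthogonalProjectionOnto (τ i : E N)) (π.orthogonalProjectionOnto (τ i : E N)) : E N) :=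
    fun i => ht_second hu hz _ _
  rw [Finset.sum_congr rfl fun i _ => h2 i, Finset.sum_neg_distrib, neg_eq_zero]
  have h3 := congrArg (fun y : πᗮ => (y : E N)) (hM τ)
  simpa using h3

end graph

end Pool.Agent.Helper68V
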