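import Pool.Agent.Helper68V.L
import Mathlib.Analysis.Normed.Affine.Convex

/-!
A minimal graph is locally the zero set of a nonnegative function whose second derivative has
nonnegative traces over all planes of its dimension.
-/

namespace Pool.Agent.Helper68V

open MeasureTheory Set Filter Topology Metric Pool.Agent.TH337.VF
open scoped ENNReal RealInnerProductSpace

variable {N : ℕ}

lemma key' (S T : Submodule ℝ (E N)) (hd : Module.finrank ℝ S = Module.finrank ℝ T)
    (L : E N →L[ℝ] E N) (hL : ∀ v, ‖v - T.starProjection v‖ ≤ ‖L v‖)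
    (B : E N →L[ℝ] E N →L[ℝ] ℝ) (hB : ∑ i, B (bs N i) (T.starProjection (bs N i)) = 0)
    {κ : ℝ} (hκ0 : 0 ≤ κ) (hκ : ∑ i, ‖B (bs N i)‖ ^ 2 ≤ κ ^ 2) :
    (∑ i, ⟪L (bs N i), L (S.starProjection (bs N i))⟫) / 2 - 2 * κ ^ 2 ≤
      ∑ i, ⟪L (bs N i), L (S.starProjection (bs N i))⟫ +
      ∑ i, B (bs N i) (S.starProjection (bs N i)) := by
  have h1 := defect_le S T L hL
  have h2 : ∑ i, B (bs N i) (S.starProjection (bs N i)) =
      ∑ i, B (bs N i) (S.starProjection (bs N i) - T.starProjection (S.starProjection (bs N i))) -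
      ∑ i, B (bs N i) (T.starProjection (bs N i - S.starProjection (bs N i))) := by
    have h3 : ∑ i, B (bs N i) (S.starProjection (bs N i)) =
        ∑ i, B (bs N i) (S.starProjection (bs N i)) -
          ∑ i, B (bs N i) (T.starProjection (bs N i)) := by
      rw [hB, sub_zero]
    rw [h3, ← Finset.sum_sub_distrib, ← Finset.sum_sub_distrib]
    refine Finset.sum_congr rfl fun i _ => ?_
    simp only [map_sub]
    ring
  have h4 := sum_le_sqrt hκ0 hκ fun i =>
    S.starProjection (bs N i) - T.starProjection (S.starProjection (bs N i))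
  have h5 := sum_le_sqrt hκ0 hκ fun i => T.starProjection (bs N i - S.starProjection (bs N i))
  have h6 : ∑ i, ‖T.starProjection (bs N i - S.starProjection (bs N i))‖ ^ 2 = defect S T := by
    rw [defect', defect_eq, trc_starProjection, trc_starProjection, hd]
  rw [h6] at h5
  change |_| ≤ κ * Real.sqrt (defect S T) at h4
  rw [h2]
  rw [abs_le] at h4 h5
  have h7 := Real.sq_sqrt (defect_nonneg S T)
  nlinarith [sq_nonneg (Real.sqrt (defect S T) - 2 * κ), h4.1, h5.2]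

/-- Hilbert-Schmidt bound -/
lemma hs_bound (S : Submodule ℝ (E N)) (L : E N →L[ℝ] E N) (v : E N) :
    ‖L (S.starProjection v)‖ ^ 2 ≤
      (∑ i, ⟪L (bs N i), L (S.starProjection (bs N i))⟫) * ‖v‖ ^ 2 := by
  rw [trace_LL]
  have h1 : L (S.starProjection v) = ∑ i, ⟪bs N i, v⟫ • L (S.starProjection (bs N i)) := by
    conv_lhs => rw [← (bs N).sum_repr' v, map_sum, map_sum]
    refine Finset.sum_congr rfl fun i _ => ?_
    rw [map_smul, map_smul]
  have h2 : ‖L (S.starProjection v)‖ ≤ ∑ i, ‖⟪bs N i, v⟫‖ * ‖L (S.starProjection (bs N i))‖ := by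
    rw [h1]
    refine (norm_sum_le _ _).trans (Finset.sum_le_sum fun i _ => ?_)
    rw [norm_smul]
  have h3 : (∑ i, ‖⟪bs N i, v⟫‖ * ‖L (S.starProjection (bs N i))‖) ^ 2 ≤
      (∑ i, ‖⟪bs N i, v⟫‖ ^ 2) * ∑ i, ‖L (S.starProjection (bs N i))‖ ^ 2 :=
    Finset.sum_mul_sq_le_sq_mul_sq _ _ _
  have h4 : ∑ i, ‖⟪bs N i, v⟫‖ ^ 2 = ‖v‖ ^ 2 := (bs N).sum_sq_norm_inner_right v
  calc ‖L (S.starProjection v)‖ ^ 2
      ≤ (∑ i, ‖⟪bs N i, v⟫‖ * ‖L (S.starProjection (bs N i))‖) ^ 2 :=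
        pow_le_pow_left₀ (norm_nonneg _) h2 2
    _ ≤ _ := h3
    _ = _ := by rw [h4]; ring

lemma arith1 {w y n D : ℝ} (hw : 0 ≤ w) (_hy : 0 ≤ y) (hn : 0 ≤ n) (hD : 0 ≤ D)
    (h : y ^ 2 ≤ D * n ^ 2) : 2 * w * y ≤ D / 4 + 4 * w ^ 2 * n ^ 2 := by
  have h10 := Real.sq_sqrt hD
  have h9 : y ≤ Real.sqrt D * n := by
    apply le_of_sq_le_sq _ (by positivity)
    rw [mul_pow, h10]
    exact h
  have h11 : 2 * w * y ≤ 2 * w * (Real.sqrt D * n) := mul_le_mul_of_nonneg_left h9 (by positivity)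
  have h12 : 0 ≤ (Real.sqrt D - 4 * w * n) ^ 2 := sq_nonneg _
  have h13 : (Real.sqrt D - 4 * w * n) ^ 2 =
      D - 8 * w * (Real.sqrt D * n) + 16 * w ^ 2 * n ^ 2 := by
    nth_rewrite 2 [← h10]
    ring
  linarith

section graph

variable {π : Submodule ℝ (E N)} {u : π → πᗮ} {x₀ : E N} {r : ℝ}

/-- a global extension of the height function -/
lemma exists_W (hr : 0 < r) (hu : ContDiffOn ℝ 2 u (ball (π.orthogonalProjectionOnto x₀) r)) :
    ∃ W : E N → E N, ContDiff ℝ 2 W ∧ ∀ z ∈ ball x₀ (r / 4), W =ᶠ[𝓝 z] ht u := by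
  let χ : ContDiffBump x₀ := ⟨r / 4, r / 2, by positivity, by linarith⟩
  refine ⟨fun z => χ z • ht u z, ?_, ?_⟩
  · rw [contDiff_iff_contDiffAt]
    intro z
    by_cases hz : z ∈ ball x₀ r
    · exact (χ.contDiff.contDiffAt).smul ((ht_contDiffOn hu).contDiffAt (isOpen_ball.mem_nhds hz))
    · have h1 : z ∉ tsupport χ := by
        rw [χ.tsupport_eq]
        intro h
        exact hz (closedBall_subset_ball (by change r / 2 < r; linarith) h)
      have h2 : (fun z => χ z • ht u z) =ᶠ[𝓝 z] fun _ => 0 := by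
        filter_upwards [notMem_tsupport_iff_eventuallyEq.1 h1] with y hy
        rw [hy]
        simp
      exact contDiffAt_const.congr_of_eventuallyEq h2
  · intro z hz
    filter_upwards [isOpen_ball.mem_nhds hz] with y hy
    rw [χ.one_of_mem_closedBall (ball_subset_closedBall hy), one_smul]

lemma exists_g {m : ℕ} (hm : 1 ≤ m) (hπ : Module.finrank ℝ π = m) (hr : 0 < r)
    (hu : ContDiffOn ℝ 2 u (ball (π.orthogonalProjectionOnto x₀) r))
    (hM : ∀ x ∈ ball (π.orthogonalProjectionOnto x₀) r, MinAt m u x) :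
    ∃ (g : E N → ℝ) (r₁ : ℝ), 0 < r₁ ∧ r₁ < r ∧ ContDiff ℝ 2 g ∧
      (∀ z ∈ closedBall x₀ r₁, ‖ht u z‖ ^ 2 ≤ 2 * g z) ∧
      (∀ z ∈ closedBall x₀ r₁, ht u z = 0 → g z = 0 ∧ ∀ S : Submodule ℝ (E N),
        defect S (tp u (π.orthogonalProjectionOnto z)) ≤ lap S g z) ∧
      (∀ z ∈ closedBall x₀ r₁, ∀ S : Submodule ℝ (E N), Module.finrank ℝ S = m →
        g z / 2 + defect S (tp u (π.orthogonalProjectionOnto z)) / 4 ≤ lap S g z) := by
  obtain ⟨W, hW, hWe⟩ := exists_W hr hu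
  set f : E N → ℝ := fun z => ‖W z‖ ^ 2 / 2 with hf
  have hfc : ContDiff ℝ 2 f := (hW.norm_sq ℝ).div_const 2
  -- bound for the second derivative
  have hW2 : Continuous (fderiv ℝ (fderiv ℝ W)) :=
    (hW.fderiv_right (m := 1) (by norm_num)).continuous_fderiv one_ne_zero
  have hW2n : Continuous fun z => ‖fderiv ℝ (fderiv ℝ W) z‖ :=
    (continuous_norm (E := E N →L[ℝ] E N →L[ℝ] E N)).comp hW2
  obtain ⟨K₂, hK₂'⟩ := (isCompact_closedBall x₀ r).bddAbove_image hW2n.continuousOn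
  have hK₂ : ∀ z ∈ closedBall x₀ r, ‖fderiv ℝ (fderiv ℝ W) z‖ ≤ K₂ := fun z hz =>
    hK₂' (mem_image_of_mem _ hz)
  have hK₂0 : 0 ≤ K₂ :=
    (norm_nonneg (fderiv ℝ (fderiv ℝ W) x₀)).trans (hK₂ x₀ (mem_closedBall_self hr.le))
  set lam : ℝ := 4 * N * K₂ ^ 2 with hlam
  have hlam0 : 0 ≤ lam := by positivity
  set K : ℝ := lam + 1 with hK
  have hK0 : 1 ≤ K := by linarith
  set q : E N → ℝ := fun y => 1 + K * ‖y - x₀‖ ^ 2 with hq
  have hqc : ContDiff ℝ 2 q := quad_contDiff x₀ K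
  set r₁ : ℝ := min (r / 8) (1 / (8 * K)) with hr₁
  have hr₁0 : 0 < r₁ := lt_min (by positivity) (by positivity)
  have hb : ∀ z ∈ closedBall x₀ r₁, z ∈ ball x₀ (r / 4) := by
    intro z hz
    refine closedBall_subset_ball ?_ hz
    exact (min_le_left _ _).trans_lt (by linarith)
  have hdist : ∀ z ∈ closedBall x₀ r₁, 32 * K ^ 2 * ‖z - x₀‖ ^ 2 ≤ 1 := by
    intro z hz
    rw [mem_closedBall, dist_eq_norm] at hz
    have h1 : ‖z - x₀‖ ≤ 1 / (8 * K) := hz.trans (min_le_right _ _)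
    have h2 : 8 * K * ‖z - x₀‖ ≤ 1 := by
      rw [le_div_iff₀ (by positivity)] at h1
      linarith
    have h3 : 0 ≤ 8 * K * ‖z - x₀‖ := by positivity
    nlinarith
  have hq1 : ∀ z, 1 ≤ q z := by
    intro z
    have : 0 ≤ K * ‖z - x₀‖ ^ 2 := by positivity
    simp only [hq]
    linarith
  have hq2 : ∀ z ∈ closedBall x₀ r₁, q z ≤ 2 := by
    intro z hz
    have h1 := hdist z hz
    have h2 : K * ‖z - x₀‖ ^ 2 ≤ K ^ 2 * ‖z - x₀‖ ^ 2 := by
      have : K ≤ K ^ 2 := by nlinarith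
      exact mul_le_mul_of_nonneg_right this (by positivity)
    simp only [hq]
    nlinarith [sq_nonneg (K * ‖z - x₀‖)]
  -- facts near a point
  have hball : ∀ z ∈ closedBall x₀ r₁, z ∈ ball x₀ r := fun z hz =>
    ball_subset_ball (by linarith) (hb z hz)
  have hWz : ∀ z ∈ closedBall x₀ r₁, W z = ht u z := fun z hz => (hWe z (hb z hz)).self_of_nhds
  have hWd : ∀ z ∈ closedBall x₀ r₁, fderiv ℝ W z = dht u (π.orthogonalProjectionOnto z) := by
    intro z hz
    rw [(hWe z (hb z hz)).fderiv_eq]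
    exact (ht_hasFDerivAt hu (hball z hz)).fderiv
  have hWt : ∀ z ∈ closedBall x₀ r₁, ∑ i, fderiv ℝ (fderiv ℝ W) z (bs N i)
      ((tp u (π.orthogonalProjectionOnto z)).starProjection (bs N i)) = 0 := by
    intro z hz
    rw [(hWe z (hb z hz)).fderiv.fderiv_eq]
    exact ht_trace hπ hu (hball z hz) (hM _ (proj_mem_ball (hball z hz)))
  have hlapf : ∀ z (S : Submodule ℝ (E N)), lap S f z =
      ∑ i, ⟪fderiv ℝ W z (bs N i), fderiv ℝ W z (S.starProjection (bs N i))⟫ +
      ∑ i, ⟪W z, fderiv ℝ (fderiv ℝ W) z (bs N i) (S.starProjection (bs N i))⟫ := by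
    intro z S
    unfold lap
    rw [← Finset.sum_add_distrib]
    refine Finset.sum_congr rfl fun i _ => ?_
    exact half_hess hW.contDiffAt _ _
  have hlapg : ∀ z (S : Submodule ℝ (E N)), lap S (fun y => q y * f y) z =
      q z * lap S f z + f z * (2 * K * Module.finrank ℝ S) +
        2 * fderiv ℝ f z (S.starProjection (grd q z)) := by
    intro z S
    rw [lap_mul hqc hfc, hq, lap_quad]
  refine ⟨fun y => q y * f y, r₁, hr₁0, ?_, hqc.mul hfc, ?_, ?_, ?_⟩
  · exact (min_le_left _ _).trans_lt (by linarith)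
  · intro z hz
    rw [← hWz z hz]
    have h1 : ‖W z‖ ^ 2 = 2 * f z := by
      simp only [hf]
      ring
    have h2 : 0 ≤ f z := by
      simp only [hf]
      positivity
    have h3 := hq1 z
    show _ ≤ 2 * (q z * f z)
    rw [h1]
    nlinarith
  · intro z hz h0
    rw [← hWz z hz] at h0
    have h1 : f z = 0 := by
      simp [hf, h0]
    refine ⟨by show q z * f z = 0; rw [h1, mul_zero], fun S => ?_⟩
    have h2 : fderiv ℝ f z (S.starProjection (grd q z)) = 0 := by
      have := half_fderiv (hW.differentiable two_ne_zero z)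
      rw [hf, this]
      simp [h0]
    rw [hlapg z S, h1, h2, hlapf z S, h0]
    simp only [inner_zero_left, Finset.sum_const_zero, add_zero, zero_mul, mul_zero]
    have h3 : defect S (tp u (π.orthogonalProjectionOnto z)) ≤
        ∑ i, ⟪fderiv ℝ W z (bs N i), fderiv ℝ W z (S.starProjection (bs N i))⟫ := by
      apply defect_le
      intro v
      rw [hWd z hz]
      exact dht_ge _ v
    have h4 := hq1 z
    have h5 := (defect_nonneg S (tp u (π.orthogonalProjectionOnto z))).trans h3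
    nlinarith
  · intro z hz S hS
    have hf0 : 0 ≤ f z := by
      simp only [hf]
      positivity
    set D : ℝ := ∑ i, ⟪fderiv ℝ W z (bs N i), fderiv ℝ W z (S.starProjection (bs N i))⟫ with hD
    have hD0 : 0 ≤ D := by
      rw [hD, trace_LL]
      exact Finset.sum_nonneg fun _ _ => by positivity
    -- the bilinear form
    set B : E N →L[ℝ] E N →L[ℝ] ℝ :=
      ((ContinuousLinearMap.compL ℝ (E N) (E N) ℝ) (innerSL ℝ (W z))) ∘L
        (fderiv ℝ (fderiv ℝ W) z) with hB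
    have hBa : ∀ a b, B a b = ⟪W z, fderiv ℝ (fderiv ℝ W) z a b⟫ := fun a b => rfl
    have hB0 : ∑ i, B (bs N i)
        ((tp u (π.orthogonalProjectionOnto z)).starProjection (bs N i)) = 0 := by
      simp only [hBa]
      rw [← inner_sum, hWt z hz, inner_zero_right]
    have hzr : z ∈ closedBall x₀ r := ball_subset_closedBall (hball z hz)
    have hBn : ∀ i, ‖B (bs N i)‖ ≤ ‖W z‖ * K₂ := by
      intro i
      have h1 : B (bs N i) = (innerSL ℝ (W z)) ∘L (fderiv ℝ (fderiv ℝ W) z (bs N i)) := rfl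
      rw [h1]
      refine (ContinuousLinearMap.opNorm_comp_le _ _).trans ?_
      rw [innerSL_apply_norm]
      refine mul_le_mul_of_nonneg_left ?_ (norm_nonneg _)
      refine ((fderiv ℝ (fderiv ℝ W) z).le_opNorm _).trans ?_
      have h2 : ‖bs N i‖ = 1 := (bs N).orthonormal.1 i
      rw [h2, mul_one]
      exact hK₂ z hzr
    have hκ : ∑ i, ‖B (bs N i)‖ ^ 2 ≤ (‖W z‖ * K₂ * Real.sqrt N) ^ 2 := by
      calc ∑ i, ‖B (bs N i)‖ ^ 2 ≤ ∑ _i : Fin N, (‖W z‖ * K₂) ^ 2 :=
            Finset.sum_le_sum fun i _ => pow_le_pow_left₀ (norm_nonneg _) (hBn i) 2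
        _ = N * (‖W z‖ * K₂) ^ 2 := by simp
        _ = (‖W z‖ * K₂ * Real.sqrt N) ^ 2 := by
          rw [mul_pow _ (Real.sqrt N), Real.sq_sqrt (Nat.cast_nonneg N)]
          ring
    have hd : Module.finrank ℝ S = Module.finrank ℝ (tp u (π.orthogonalProjectionOnto z)) := by
      rw [hS, finrank_tp, hπ]
    have hLv : ∀ v, ‖v - (tp u (π.orthogonalProjectionOnto z)).starProjection v‖ ≤
        ‖fderiv ℝ W z v‖ := by
      intro v
      rw [hWd z hz]
      exact dht_ge _ v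
    have h1 := key' S (tp u (π.orthogonalProjectionOnto z)) hd (fderiv ℝ W z) hLv B hB0
      (κ := ‖W z‖ * K₂ * Real.sqrt N) (by positivity) hκ
    have h2 : D / 2 - lam * f z ≤ lap S f z := by
      rw [hlapf z S]
      have e : 2 * (‖W z‖ * K₂ * Real.sqrt N) ^ 2 = lam * f z := by
        rw [mul_pow _ (Real.sqrt N), Real.sq_sqrt (Nat.cast_nonneg N)]
        simp only [hf, hlam]
        ring
      rw [e] at h1
      exact h1
    -- the cross term
    have h3 : |fderiv ℝ f z (S.starProjection (grd q z))| ≤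
        ‖W z‖ * ‖fderiv ℝ W z (S.starProjection (grd q z))‖ := by
      have := half_fderiv (hW.differentiable two_ne_zero z)
      rw [hf, this]
      exact abs_real_inner_le_norm (W z) (fderiv ℝ W z (S.starProjection (grd q z)))
    have h4 := hs_bound S (fderiv ℝ W z) (grd q z)
    rw [← hD] at h4
    have h5 := norm_grd_quad x₀ K (by linarith) z
    have h6 : ‖grd q z‖ ^ 2 ≤ 4 * K ^ 2 * ‖z - x₀‖ ^ 2 := by
      calc ‖grd q z‖ ^ 2 ≤ (2 * K * ‖z - x₀‖) ^ 2 := pow_le_pow_left₀ (norm_nonneg _) h5 2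
        _ = _ := by ring
    have h7 : -(D / 4 + 4 * ‖W z‖ ^ 2 * ‖grd q z‖ ^ 2) ≤
        2 * fderiv ℝ f z (S.starProjection (grd q z)) := by
      rw [abs_le] at h3
      set y := ‖fderiv ℝ W z (S.starProjection (grd q z))‖ with hy
      have hy0 : 0 ≤ y := norm_nonneg _
      have h8 := arith1 (norm_nonneg (W z)) hy0 (norm_nonneg (grd q z)) hD0 h4
      linarith [h3.1]
    have h8 : ‖W z‖ ^ 2 = 2 * f z := by
      simp only [hf]
      ring
    have h9 := hdist z hz
    have h10 := hq1 z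
    have h11 := hq2 z hz
    rw [hlapg z S, hS]
    show q z * f z / 2 + _ ≤ _
    have hdD : defect S (tp u (π.orthogonalProjectionOnto z)) ≤ D :=
      defect_le S (tp u (π.orthogonalProjectionOnto z)) (fderiv ℝ W z) hLv
    have h12 : 4 * ‖W z‖ ^ 2 * ‖grd q z‖ ^ 2 ≤ f z := by
      rw [h8]
      calc 4 * (2 * f z) * ‖grd q z‖ ^ 2 ≤ 4 * (2 * f z) * (4 * K ^ 2 * ‖z - x₀‖ ^ 2) :=
            mul_le_mul_of_nonneg_left h6 (by positivity)
        _ = f z * (32 * K ^ 2 * ‖z - x₀‖ ^ 2) := by ring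
        _ ≤ f z * 1 := mul_le_mul_of_nonneg_left h9 hf0
        _ = f z := mul_one _
    have h13 : q z * (D / 2 - lam * f z) ≤ q z * lap S f z :=
      mul_le_mul_of_nonneg_left h2 (by linarith)
    have hm' : (1 : ℝ) ≤ m := by exact_mod_cast hm
    have h14 : 2 * K * f z ≤ f z * (2 * K * m) := by
      have : 0 ≤ f z * (2 * K) := by positivity
      nlinarith
    have h15 : D / 2 ≤ q z * (D / 2) := by nlinarith
    have h16 : q z * (lam * f z) ≤ 2 * (lam * f z) :=
      mul_le_mul_of_nonneg_right h11 (by positivity)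
    have h17 : q z * f z / 2 ≤ f z := by nlinarith
    have h18 : 2 * K * f z = 2 * (lam * f z) + 2 * f z := by
      rw [hK]
      ring
    have e : q z * (D / 2 - lam * f z) = q z * (D / 2) - q z * (lam * f z) := by ring
    rw [e] at h13
    linarith

/-- chords of the graph are nearly tangential -/
lemma chord (hr : 0 < r) (hu : ContDiffOn ℝ 2 u (ball (π.orthogonalProjectionOnto x₀) r)) :
    ∃ K : ℝ, 0 ≤ K ∧ ∀ z ∈ ball x₀ (r / 4), ∀ b ∈ ball x₀ (r / 4), ht u z = 0 → ht u b = 0 →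
      ‖(z - b) - (tp u (π.orthogonalProjectionOnto z)).starProjection (z - b)‖ ≤
        K * ‖z - b‖ ^ 2 := by
  obtain ⟨W, hW, hWe⟩ := exists_W hr hu
  have hW2 : Continuous (fderiv ℝ (fderiv ℝ W)) :=
    (hW.fderiv_right (m := 1) (by norm_num)).continuous_fderiv one_ne_zero
  have hW2n : Continuous fun z => ‖fderiv ℝ (fderiv ℝ W) z‖ :=
    (continuous_norm (E := E N →L[ℝ] E N →L[ℝ] E N)).comp hW2
  obtain ⟨K₂, hK₂'⟩ := (isCompact_closedBall x₀ r).bddAbove_image hW2n.continuousOn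
  have hK₂ : ∀ z ∈ closedBall x₀ r, ‖fderiv ℝ (fderiv ℝ W) z‖ ≤ K₂ := fun z hz =>
    hK₂' (mem_image_of_mem _ hz)
  have hK₂0 : 0 ≤ K₂ :=
    (norm_nonneg (fderiv ℝ (fderiv ℝ W) x₀)).trans (hK₂ x₀ (mem_closedBall_self hr.le))
  refine ⟨K₂, hK₂0, ?_⟩
  intro z hz b hb hz0 hb0
  have hsub : ball x₀ (r / 4) ⊆ closedBall x₀ r :=
    (ball_subset_ball (by linarith)).trans ball_subset_closedBall
  have hWz : W z = 0 := by
    rw [(hWe z hz).self_of_nhds, hz0]
  have hWb : W b = 0 := by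
    rw [(hWe b hb).self_of_nhds, hb0]
  have hWd : fderiv ℝ W z = dht u (π.orthogonalProjectionOnto z) := by
    rw [(hWe z hz).fderiv_eq]
    exact (ht_hasFDerivAt hu (ball_subset_ball (by linarith) hz)).fderiv
  have h1 : ∀ y ∈ ball x₀ (r / 4), ‖fderiv ℝ W y - fderiv ℝ W z‖ ≤ K₂ * ‖y - z‖ := by
    intro y hy
    exact (convex_ball x₀ (r / 4)).norm_image_sub_le_of_norm_hasFDerivWithin_le
      (f := fderiv ℝ W) (f' := fderiv ℝ (fderiv ℝ W))
      (fun x _ => (((hW.fderiv_right (m := 1) (by norm_num)).differentiable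
        one_ne_zero) x).hasFDerivAt.hasFDerivWithinAt)
      (fun x hx => hK₂ x (hsub hx)) hz hy
  have h2 : ‖W b - W z - fderiv ℝ W z (b - z)‖ ≤ K₂ * ‖b - z‖ * ‖b - z‖ := by
    have hseg : segment ℝ z b ⊆ ball x₀ (r / 4) := (convex_ball x₀ (r / 4)).segment_subset hz hb
    refine (convex_segment z b).norm_image_sub_le_of_norm_hasFDerivWithin_le'
      (f := W) (f' := fderiv ℝ W) (φ := fderiv ℝ W z)
      (fun x _ => ((hW.differentiable two_ne_zero) x).hasFDerivAt.hasFDerivWithinAt) ?_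
      (left_mem_segment ℝ z b) (right_mem_segment ℝ z b)
    intro x hx
    refine (h1 x (hseg hx)).trans (mul_le_mul_of_nonneg_left ?_ hK₂0)
    rw [← dist_eq_norm, ← dist_eq_norm, dist_comm x z, dist_comm b z]
    have h5 := dist_add_dist_of_mem_segment hx
    have h6 : 0 ≤ dist x b := dist_nonneg
    linarith
  rw [hWb, hWz, sub_self, zero_sub, norm_neg] at h2
  have h3 := dht_ge (u := u) (π.orthogonalProjectionOnto z) (z - b)
  rw [← hWd] at h3
  have h4 : ‖fderiv ℝ W z (z - b)‖ = ‖fderiv ℝ W z (b - z)‖ := by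
    rw [← norm_neg, ← map_neg, neg_sub]
  rw [h4] at h3
  refine h3.trans (h2.trans (le_of_eq ?_))
  rw [norm_sub_rev b z]
  ring

end graph

end Pool.Agent.Helper68V
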