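import Pool.Agent.Helper68V.D
import Pool.Agent.TH337.VF.Cutoff

/-!
Product and chain rules for traced second derivatives.
-/

namespace Pool.Agent.Helper68V

open MeasureTheory Set Filter Topology Metric Pool.Agent.TH337.VF
open scoped ENNReal RealInnerProductSpace

variable {N : ℕ}

lemma cd_fderiv {f : E N → ℝ} (hf : ContDiff ℝ 2 f) (z : E N) : DifferentiableAt ℝ (fderiv ℝ f) z :=
  (hf.fderiv_right (m := 1) (by norm_num)).differentiable one_ne_zero z

lemma hess_mul {q f : E N → ℝ} (hq : ContDiff ℝ 2 q) (hf : ContDiff ℝ 2 f) (z a b : E N) :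
    fderiv ℝ (fderiv ℝ (fun y => q y * f y)) z a b =
      q z * fderiv ℝ (fderiv ℝ f) z a b + fderiv ℝ q z a * fderiv ℝ f z b +
      f z * fderiv ℝ (fderiv ℝ q) z a b + fderiv ℝ f z a * fderiv ℝ q z b := by
  have hqd : ∀ y, DifferentiableAt ℝ q y := fun y => hq.differentiable two_ne_zero y
  have hfd : ∀ y, DifferentiableAt ℝ f y := fun y => hf.differentiable two_ne_zero y
  have h1 : (fun y => fderiv ℝ (fun y => q y * f y) y b) =
      fun y => q y * fderiv ℝ f y b + f y * fderiv ℝ q y b := by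
    funext y
    rw [fderiv_fun_mul (hqd y) (hfd y)]
    rfl
  rw [← fderiv_apply_const (cd_fderiv (hq.mul hf) z), h1]
  have h2 : HasFDerivAt (fun y => fderiv ℝ f y b) ((fderiv ℝ (fderiv ℝ f) z).flip b) z := by
    have := (cd_fderiv hf z).hasFDerivAt.clm_apply (hasFDerivAt_const b z)
    simpa using this
  have h3 : HasFDerivAt (fun y => fderiv ℝ q y b) ((fderiv ℝ (fderiv ℝ q) z).flip b) z := by
    have := (cd_fderiv hq z).hasFDerivAt.clm_apply (hasFDerivAt_const b z)
    simpa using this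
  have h4 := ((hqd z).hasFDerivAt.mul h2).add ((hfd z).hasFDerivAt.mul h3)
  have h5 : fderiv ℝ (fun y => q y * fderiv ℝ f y b + f y * fderiv ℝ q y b) z = _ := h4.fderiv
  rw [h5]
  simp only [add_apply, smul_apply, ContinuousLinearMap.flip_apply, smul_eq_mul]
  ring

lemma hess_comp {F F' F'' : ℝ → ℝ} (hF : ∀ t, HasDerivAt F (F' t) t)
    (hF' : ∀ t, HasDerivAt F' (F'' t) t) {g : E N → ℝ} (hg : ContDiff ℝ 2 g)
    (z a b : E N) (hd : DifferentiableAt ℝ (fderiv ℝ (fun y => F (g y))) z) :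
    fderiv ℝ (fderiv ℝ (fun y => F (g y))) z a b =
      F' (g z) * fderiv ℝ (fderiv ℝ g) z a b + F'' (g z) * fderiv ℝ g z a * fderiv ℝ g z b := by
  have hgd : ∀ y, DifferentiableAt ℝ g y := fun y => hg.differentiable two_ne_zero y
  have h0 : ∀ y, HasFDerivAt (fun y => F (g y)) (F' (g y) • fderiv ℝ g y) y := fun y =>
    (hF (g y)).comp_hasFDerivAt y (hgd y).hasFDerivAt
  have h1 : (fun y => fderiv ℝ (fun y => F (g y)) y b) = fun y => F' (g y) * fderiv ℝ g y b := by
    funext y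
    rw [(h0 y).fderiv]
    rfl
  rw [← fderiv_apply_const hd, h1]
  have h2 : HasFDerivAt (fun y => fderiv ℝ g y b) ((fderiv ℝ (fderiv ℝ g) z).flip b) z := by
    have := (cd_fderiv hg z).hasFDerivAt.clm_apply (hasFDerivAt_const b z)
    simpa using this
  have h3 : HasFDerivAt (fun y => F' (g y)) (F'' (g z) • fderiv ℝ g z) z :=
    (hF' (g z)).comp_hasFDerivAt z (hgd z).hasFDerivAt
  have h4 : fderiv ℝ (fun y => F' (g y) * fderiv ℝ g y b) z = _ := (h3.mul h2).fderiv
  rw [h4]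
  simp only [add_apply, smul_apply, ContinuousLinearMap.flip_apply, smul_eq_mul]
  ring

/-- the trace of a product of two differentials -/
lemma sum_fderiv (S : Submodule ℝ (E N)) (q f : E N → ℝ) (z : E N) :
    ∑ i, fderiv ℝ q z (bs N i) * fderiv ℝ f z (S.starProjection (bs N i)) =
      fderiv ℝ f z (S.starProjection (grd q z)) := by
  unfold grd
  rw [map_sum, map_sum]
  refine Finset.sum_congr rfl fun i _ => ?_
  rw [map_smul, map_smul, smul_eq_mul]

lemma fderiv_proj_symm (S : Submodule ℝ (E N)) (q f : E N → ℝ) (z : E N) :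
    fderiv ℝ f z (S.starProjection (grd q z)) = fderiv ℝ q z (S.starProjection (grd f z)) := by
  rw [← inner_grd f, ← inner_grd q, ← proj_symm, real_inner_comm]

lemma lap_mul {q f : E N → ℝ} (hq : ContDiff ℝ 2 q) (hf : ContDiff ℝ 2 f) (S : Submodule ℝ (E N))
    (z : E N) : lap S (fun y => q y * f y) z =
      q z * lap S f z + f z * lap S q z + 2 * fderiv ℝ f z (S.starProjection (grd q z)) := by
  unfold lap
  rw [Finset.sum_congr rfl fun i _ => hess_mul hq hf z (bs N i) (S.starProjection (bs N i))]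
  rw [Finset.sum_add_distrib, Finset.sum_add_distrib, Finset.sum_add_distrib, ← Finset.mul_sum,
    ← Finset.mul_sum, sum_fderiv, sum_fderiv, fderiv_proj_symm S f q]
  ring

lemma lap_comp {F F' F'' : ℝ → ℝ} (hF : ∀ t, HasDerivAt F (F' t) t)
    (hF' : ∀ t, HasDerivAt F' (F'' t) t) {g : E N → ℝ} (hg : ContDiff ℝ 2 g)
    (hFg : ContDiff ℝ 2 (fun y => F (g y))) (S : Submodule ℝ (E N)) (z : E N) :
    lap S (fun y => F (g y)) z =
      F' (g z) * lap S g z + F'' (g z) * ‖S.starProjection (grd g z)‖ ^ 2 := by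
  unfold lap
  rw [Finset.sum_congr rfl fun i _ => hess_comp hF hF' hg z (bs N i) (S.starProjection (bs N i))
    (cd_fderiv hFg z)]
  rw [Finset.sum_add_distrib, ← Finset.mul_sum]
  congr 1
  rw [proj_sq, inner_grd, ← sum_fderiv, Finset.mul_sum]
  refine Finset.sum_congr rfl fun i _ => ?_
  ring

lemma lap_congr {f g : E N → ℝ} {z : E N} (h : f =ᶠ[𝓝 z] g) (S : Submodule ℝ (E N)) :
    lap S f z = lap S g z := by
  unfold lap
  rw [h.fderiv.fderiv_eq]

lemma lap_zero_of_notMem {f : E N → ℝ} {z : E N} (h : z ∉ tsupport f) (S : Submodule ℝ (E N)) :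
    lap S f z = 0 := by
  have h1 : f =ᶠ[𝓝 z] fun _ => 0 := notMem_tsupport_iff_eventuallyEq.1 h
  rw [lap_congr h1]
  unfold lap
  have h2 : fderiv ℝ (fun _ : E N => (0 : ℝ)) = fun _ => 0 := by
    funext y
    simp
  rw [h2]
  simp

/-- the quadratic function -/
lemma fderiv_quad (x₀ : E N) (K : ℝ) (z : E N) :
    HasFDerivAt (fun y : E N => 1 + K * ‖y - x₀‖ ^ 2) ((2 * K) • innerSL ℝ (z - x₀)) z := by
  have h1 := ((hasFDerivAt_sq x₀ z).const_mul K).const_add 1
  have e : (2 * K) • innerSL ℝ (z - x₀) = K • ((2:ℝ) • innerSL ℝ (z - x₀)) := by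
    rw [smul_smul, mul_comm]
  rw [e]
  exact h1

lemma quad_contDiff (x₀ : E N) (K : ℝ) : ContDiff ℝ 2 (fun y : E N => 1 + K * ‖y - x₀‖ ^ 2) :=
  contDiff_const.add (contDiff_const.mul ((contDiff_id.sub contDiff_const).norm_sq ℝ))

lemma lap_quad (x₀ : E N) (K : ℝ) (S : Submodule ℝ (E N)) (z : E N) :
    lap S (fun y : E N => 1 + K * ‖y - x₀‖ ^ 2) z = 2 * K * Module.finrank ℝ S := by
  unfold lap
  have h1 : ∀ a b : E N, fderiv ℝ (fderiv ℝ (fun y : E N => 1 + K * ‖y - x₀‖ ^ 2)) z a b =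
      2 * K * ⟪a, b⟫ := by
    intro a b
    rw [← fderiv_apply_const (cd_fderiv (quad_contDiff x₀ K) z)]
    have h2 : (fun y => fderiv ℝ (fun y : E N => 1 + K * ‖y - x₀‖ ^ 2) y b) =
        fun y => 2 * K * ⟪b, y - x₀⟫ := by
      funext y
      rw [(fderiv_quad x₀ K y).fderiv]
      simp only [smul_apply, innerSL_apply_apply, smul_eq_mul]
      rw [real_inner_comm]
    rw [h2]
    have h3 : HasFDerivAt (fun y : E N => 2 * K * ⟪b, y - x₀⟫) ((2 * K) • innerSL ℝ b) z := by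
      have h5 : HasFDerivAt (fun y : E N => y - x₀) (ContinuousLinearMap.id ℝ (E N)) z :=
        (hasFDerivAt_id z).sub_const x₀
      have h6 : HasFDerivAt (innerSL ℝ b) (innerSL ℝ b) (z - x₀) := (innerSL ℝ b).hasFDerivAt
      have h7 := h6.comp z h5
      rw [ContinuousLinearMap.comp_id] at h7
      have h4 : HasFDerivAt (fun y : E N => ⟪b, y - x₀⟫) (innerSL ℝ b) z := h7
      exact h4.const_mul (2 * K)
    rw [h3.fderiv]
    simp only [smul_apply, innerSL_apply_apply, smul_eq_mul]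
    rw [real_inner_comm]
  simp only [h1]
  rw [← Finset.mul_sum, ← trc_eq, trc_starProjection]

lemma norm_grd_quad (x₀ : E N) (K : ℝ) (hK : 0 ≤ K) (z : E N) :
    ‖grd (fun y : E N => 1 + K * ‖y - x₀‖ ^ 2) z‖ ≤ 2 * K * ‖z - x₀‖ := by
  refine (norm_grd _ _).trans ?_
  rw [(fderiv_quad x₀ K z).fderiv, norm_smul, innerSL_apply_norm, Real.norm_of_nonneg (by positivity)]

/-- the cube of the positive part -/
lemma hasDerivAt_poscube (t : ℝ) :
    HasDerivAt (fun t : ℝ => (max 0 t) ^ 3) (3 * (max 0 t) ^ 2) t := by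
  have h1 : ∀ t ∈ Iic (0:ℝ), HasDerivWithinAt (fun t : ℝ => (max 0 t) ^ 3) (3 * (max 0 t) ^ 2)
      (Iic 0) t := by
    intro t ht
    rw [max_eq_left ht]
    have e : (3 : ℝ) * 0 ^ 2 = 0 := by norm_num
    rw [e]
    apply (hasDerivWithinAt_const t (Iic (0:ℝ)) (0:ℝ)).congr
    · intro x hx
      rw [max_eq_left hx]
      norm_num
    · rw [max_eq_left ht]
      norm_num
  have h2 : ∀ t ∈ Ici (0:ℝ), HasDerivWithinAt (fun t : ℝ => (max 0 t) ^ 3) (3 * (max 0 t) ^ 2)
      (Ici 0) t := by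
    intro t ht
    have h3 := (hasDerivAt_pow 3 t).hasDerivWithinAt (s := Ici (0:ℝ))
    have e : 3 * (max 0 t) ^ 2 = ((3:ℕ):ℝ) * t ^ (3 - 1) := by
      rw [max_eq_right ht]
      norm_num
    rw [e]
    apply h3.congr
    · intro x hx
      rw [max_eq_right hx]
    · rw [max_eq_right ht]
  rcases lt_trichotomy t 0 with h | h | h
  · exact (h1 t h.le).hasDerivAt (Iic_mem_nhds h)
  · subst h
    have := (h1 0 (mem_Iic.2 le_rfl)).union (h2 0 (mem_Ici.2 le_rfl))
    rwa [Iic_union_Ici, hasDerivWithinAt_univ] at this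
  · exact (h2 t h.le).hasDerivAt (Ici_mem_nhds h)

lemma contDiff_poscube : ContDiff ℝ 2 (fun t : ℝ => (max 0 t) ^ 3) := by
  have h : (2 : WithTop ℕ∞) = 1 + 1 := by norm_num
  rw [h, contDiff_succ_iff_deriv]
  refine ⟨fun u => (hasDerivAt_poscube u).differentiableAt, by simp, ?_⟩
  have h1 : deriv (fun t : ℝ => (max 0 t) ^ 3) = fun t => 3 * (max 0 t) ^ 2 := by
    funext u
    exact (hasDerivAt_poscube u).deriv
  rw [h1]
  exact contDiff_const.mul contDiff_possq

end Pool.Agent.Helper68V
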