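import Pool.Agent.Helper68V.G
import Pool.Agent.TH337.VF.Restrict

/-!
No isolated pieces off a minimal submanifold.
-/

namespace Pool.Agent.Helper68V

open MeasureTheory Set Filter Topology Metric Pool.Agent.TH337.VF
open scoped ENNReal RealInnerProductSpace Manifold ContDiff

variable {N : ℕ}

lemma tsupport_grd (f : E N → ℝ) : tsupport (grd f) ⊆ tsupport f := by
  apply closure_minimal _ (isClosed_tsupport f)
  intro y hy
  by_contra hc
  apply hy
  have h1 : fderiv ℝ f y = 0 := by
    by_contra h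
    exact hc (support_fderiv_subset ℝ (by simpa using h))
  unfold grd
  simp [h1]

lemma test_lap {m : ℕ} {U : Set (E N)} {μ : Measure (E N)} {T : E N → Submodule ℝ (E N)}
    (hS : Stat m U μ fun x => (T x).starProjection) {g : E N → ℝ} (hg : ContDiff ℝ 2 g)
    (hc : HasCompactSupport g) (hU : tsupport g ⊆ U) :
    Integrable (fun y => lap (T y) g y) μ ∧ ∫ y, lap (T y) g y ∂μ = 0 := by
  have h1 := tsupport_grd g
  have h2 : HasCompactSupport (grd g) := hc.of_isClosed_subset (isClosed_tsupport _) h1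
  have h3 := integrable_trc hS (grd_contDiff hg) h2 (h1.trans hU)
  have h4 := hS.stat (grd g) (grd_contDiff hg) h2 (h1.trans hU)
  simp only [trc_grd hg] at h3 h4
  exact ⟨h3, h4⟩

/-- the truncated cube -/
noncomputable def cub (ε t : ℝ) : ℝ := (max 0 (t - ε)) ^ 3

lemma cub_contDiff (ε : ℝ) : ContDiff ℝ 2 (cub ε) :=
  contDiff_poscube.comp (contDiff_id.sub contDiff_const)

lemma cub_der (ε t : ℝ) : HasDerivAt (cub ε) (3 * (max 0 (t - ε)) ^ 2) t := by
  have h1 : HasDerivAt (fun t : ℝ => t - ε) 1 t := (hasDerivAt_id t).sub_const ε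
  have h2 := (hasDerivAt_poscube (t - ε)).comp t h1
  rw [mul_one] at h2
  exact h2

lemma cub_der' (ε t : ℝ) :
    HasDerivAt (fun t => 3 * (max 0 (t - ε)) ^ 2) (6 * max 0 (t - ε)) t := by
  have h1 : HasDerivAt (fun t : ℝ => t - ε) 1 t := (hasDerivAt_id t).sub_const ε
  have h2 := ((hasDerivAt_possq (t - ε)).comp t h1).const_mul 3
  have e : 3 * (2 * max 0 (t - ε) * 1) = 6 * max 0 (t - ε) := by ring
  rw [e] at h2
  exact h2

/-- a piece of the support on which a function is positive and subharmonic, separated from the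
rest and not reaching the boundary, is empty -/
theorem no_piece {m : ℕ} {U : Set (E N)} {μ : Measure (E N)} {T : E N → Submodule ℝ (E N)}
    (hS : Stat m U μ fun x => (T x).starProjection) {g : E N → ℝ} (hg : ContDiff ℝ 2 g)
    {O : Set (E N)} (hO : IsOpen O) (hOb : Bornology.IsBounded O) (hOU : O ⊆ U)
    {A G : Set (E N)} (hA : A = (μ.support ∩ O) ∩ {z | 0 < g z}) (hGA : G ⊆ A)
    (hsub : ∀ᵐ z ∂μ, z ∈ G → 0 < lap (T z) g z)
    (h1 : closure G ∩ (A \ G) = ∅) (h2 : G ∩ closure (A \ G) = ∅) (hGO : closure G ⊆ O) :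
    G = ∅ := by
  have hgc : Continuous g := hg.continuous
  set U' : Set (E N) := O ∩ {z | 0 < g z} with hU'
  have hU'o : IsOpen U' := hO.inter (isOpen_lt continuous_const hgc)
  have hU'U : U' ⊆ U := inter_subset_left.trans hOU
  have hS' := hS.sub hU'U
  set W₁ : Set (E N) := (closure (A \ G))ᶜ with hW₁
  set W₂ : Set (E N) := (closure G)ᶜ with hW₂
  have hW₁o : IsOpen W₁ := isClosed_closure.isOpen_compl
  have hW₂o : IsOpen W₂ := isClosed_closure.isOpen_compl
  have hAe : μ.support ∩ U' = A := by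
    rw [hA, hU', inter_assoc]
  have h12 : μ.support ∩ U' ∩ W₁ ∩ W₂ = ∅ := by
    rw [hAe, eq_empty_iff_forall_notMem]
    rintro y ⟨⟨hyA, hy1⟩, hy2⟩
    by_cases hyG : y ∈ G
    · exact hy2 (subset_closure hyG)
    · exact hy1 (subset_closure ⟨hyA, hyG⟩)
  have hAW : A ⊆ W₁ ∪ W₂ := by
    intro y hy
    by_cases hyG : y ∈ G
    · left
      intro h
      have : y ∈ G ∩ closure (A \ G) := ⟨hyG, h⟩
      rw [h2] at this
      exact this
    · right
      intro h
      have : y ∈ closure G ∩ (A \ G) := ⟨h, hy, hyG⟩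
      rw [h1] at this
      exact this
  -- cutoff
  obtain ⟨η, hη0, hη1, hη⟩ := exists_contMDiffMap_zero_one_nhds_of_isClosed (n := 2)
    𝓘(ℝ, E N) hO.isClosed_compl (isClosed_closure (s := G))
    (Set.disjoint_left.2 fun y hy hy' => hy (hGO hy'))
  have hηc : ContDiff ℝ 2 (η : E N → ℝ) := η.contMDiff.contDiff
  have hηO : tsupport (η : E N → ℝ) ⊆ O := by
    intro y hy
    by_contra hyO
    have hnear : ∀ᶠ x in 𝓝 y, η x = 0 := hη0.filter_mono (nhds_le_nhdsSet (s := Oᶜ) hyO)
    exact notMem_tsupport_iff_eventuallyEq.2 hnear hy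
  have hηcs : HasCompactSupport (η : E N → ℝ) := by
    apply (isCompact_of_isClosed_isBounded (isClosed_tsupport _))
    exact hOb.subset hηO
  -- a.e. facts on W₁ ∩ U'
  have key : ∀ ε : ℝ, 0 < ε → ∀ᵐ y ∂(μ.restrict W₁), y ∈ U' → g y ≤ ε := by
    intro ε hε
    set F : E N → ℝ := fun y => cub ε (g y) with hF
    have hFc : ContDiff ℝ 2 F := (cub_contDiff ε).comp hg
    set k : E N → ℝ := fun y => η y * F y with hk
    have hkc : ContDiff ℝ 2 k := hηc.mul hFc
    have hksub : tsupport k ⊆ tsupport (η : E N → ℝ) := by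
      apply closure_mono
      intro y hy
      by_contra hcon
      apply hy
      have : η y = 0 := by simpa using hcon
      show η y * F y = 0
      rw [this, zero_mul]
    have hkcs : HasCompactSupport k := hηcs.of_isClosed_subset (isClosed_tsupport k) hksub
    have hkg : tsupport k ⊆ {z | ε ≤ g z} := by
      apply closure_minimal _ (isClosed_le continuous_const hgc)
      intro y hy
      by_contra hcon
      apply hy
      have h3 : max 0 (g y - ε) = 0 := max_eq_left (by
        have : g y < ε := not_le.1 hcon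
        linarith)
      show η y * (max 0 (g y - ε)) ^ 3 = 0
      rw [h3]
      simp
    have hkU' : tsupport k ⊆ U' := fun y hy =>
      ⟨hηO (hksub hy), lt_of_lt_of_le hε (hkg hy)⟩
    have hgrd := tsupport_grd k
    have hgcs : HasCompactSupport (grd k) := hkcs.of_isClosed_subset (isClosed_tsupport _) hgrd
    have hsep := separated hS' hW₁o hW₂o h12 (grd_contDiff hkc) hgcs (hgrd.trans hkU') (by
      intro y hy
      exact hAW (hAe ▸ ⟨hy.2, hkU' (hgrd hy.1)⟩))
    have hint := (integrable_trc hS' (grd_contDiff hkc) hgcs (hgrd.trans hkU')).restrict (s := W₁)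
    simp only [trc_grd hkc] at hsep hint
    -- pointwise inequality
    have hpt : ∀ᵐ y ∂(μ.restrict W₁), (y ∈ U' → 0 < lap (T y) g y ∧
        3 * (max 0 (g y - ε)) ^ 2 * lap (T y) g y ≤ lap (T y) k y) ∧ 0 ≤ lap (T y) k y := by
      have hsup : ∀ᵐ y ∂(μ.restrict W₁), y ∈ μ.support :=
        ae_restrict_of_ae (Measure.support_mem_ae (μ := μ))
      filter_upwards [hsup, ae_restrict_mem hW₁o.measurableSet, ae_restrict_of_ae hsub] with
        y hy1 hy2 hy3
      have hmain : y ∈ U' → 0 < lap (T y) g y ∧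
          3 * (max 0 (g y - ε)) ^ 2 * lap (T y) g y ≤ lap (T y) k y := by
        intro hyU
        have hyA : y ∈ A := hAe ▸ ⟨hy1, hyU⟩
        have hyG : y ∈ G := by
          by_contra hyG
          exact hy2 (subset_closure ⟨hyA, hyG⟩)
        have hnear : ∀ᶠ x in 𝓝 y, η x = 1 :=
          hη1.filter_mono (nhds_le_nhdsSet (s := closure G) (subset_closure hyG))
        have heq : k =ᶠ[𝓝 y] F := by
          filter_upwards [hnear] with x hx
          show η x * F x = F x
          rw [hx, one_mul]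
        refine ⟨hy3 hyG, ?_⟩
        rw [lap_congr heq, hF, lap_comp (cub_der ε) (cub_der' ε) hg hFc]
        have h5 : 0 ≤ 6 * max 0 (g y - ε) * ‖(T y).starProjection (grd g y)‖ ^ 2 := by positivity
        linarith
      refine ⟨hmain, ?_⟩
      by_cases hyU : y ∈ U'
      · obtain ⟨h3, h4⟩ := hmain hyU
        have h5 : 0 ≤ 3 * (max 0 (g y - ε)) ^ 2 * lap (T y) g y := by positivity
        linarith
      · rw [lap_zero_of_notMem fun h => hyU (hkU' h)]
    have hz : ∀ᵐ y ∂(μ.restrict W₁), lap (T y) k y = 0 := by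
      have h3 := (integral_eq_zero_iff_of_nonneg_ae (μ := μ.restrict W₁)
        (f := fun y => lap (T y) k y) (hpt.mono fun y hy => hy.2) hint).1 hsep
      exact h3
    filter_upwards [hpt, hz] with y hy1 hy2 hyU
    obtain ⟨h3, h4⟩ := hy1.1 hyU
    rw [hy2] at h4
    by_contra hcon
    rw [not_le] at hcon
    have h5 : 0 < max 0 (g y - ε) := lt_max_of_lt_right (by linarith)
    have h6 : 0 < 3 * (max 0 (g y - ε)) ^ 2 * lap (T y) g y := by positivity
    linarith
  -- conclusion
  have hnull : μ (W₁ ∩ U') = 0 := by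
    have h3 : ∀ᵐ y ∂(μ.restrict W₁), y ∉ U' := by
      have h4 : ∀ n : ℕ, ∀ᵐ y ∂(μ.restrict W₁), y ∈ U' → g y ≤ 1 / ((n : ℝ) + 1) :=
        fun n => key _ (by positivity)
      rw [← ae_all_iff] at h4
      filter_upwards [h4] with y hy hyU
      have h5 : 0 < g y := hyU.2
      obtain ⟨n, hn⟩ := exists_nat_one_div_lt h5
      have := hy n hyU
      linarith
    rw [ae_iff, Measure.restrict_apply' hW₁o.measurableSet] at h3
    simp only [not_not] at h3
    rw [inter_comm]
    exact h3
  rw [eq_empty_iff_forall_notMem]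
  intro z hz
  have hzA := hGA hz
  have hzW : z ∈ W₁ := by
    intro h
    have : z ∈ G ∩ closure (A \ G) := ⟨hz, h⟩
    rw [h2] at this
    exact this
  rw [← hAe] at hzA
  have h3 := (Measure.mem_support_iff_forall z).1 hzA.1 (W₁ ∩ U')
    ((hW₁o.inter hU'o).mem_nhds ⟨hzW, hzA.2⟩)
  rw [hnull] at h3
  exact lt_irrefl _ h3

end Pool.Agent.Helper68V
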