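import Pool.Agent.Helper68V.P1
import Pool.Agent.TH337.VF.Dens

/-!
Weighted monotonicity and the mean value inequality.
-/

namespace Pool.Agent.Helper68V

open MeasureTheory Set Filter Topology Metric Pool.Agent.TH337.VF
open scoped ENNReal RealInnerProductSpace Manifold ContDiff

variable {N : ℕ}

lemma trc_smul_field {φ : E N → ℝ} {Z : E N → E N} (hφ : Differentiable ℝ φ) (hZ : Differentiable ℝ Z)
    (P : E N →L[ℝ] E N) (z : E N) :
    trc (P ∘L fderiv ℝ (fun y => φ y • Z y) z) =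
      φ z * trc (P ∘L fderiv ℝ Z z) + fderiv ℝ φ z (P (Z z)) := by
  have h1 : fderiv ℝ (fun y => φ y • Z y) z =
      φ z • fderiv ℝ Z z + (fderiv ℝ φ z).smulRight (Z z) := by
    have ha := ((hφ z).hasFDerivAt).smul ((hZ z).hasFDerivAt)
    exact ha.fderiv
  rw [h1, ContinuousLinearMap.comp_add, trc_add, trc_rank, ContinuousLinearMap.comp_smul, trc_smul]

lemma integrableOn_cb {μ : Measure (E N)} {a : E N} {R : ℝ} (hfin : μ (closedBall a R) < ⊤)
    {f : E N → ℝ} (hf : Continuous f) : IntegrableOn f (closedBall a R) μ := by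
  obtain ⟨C, hC⟩ := (isCompact_closedBall a R).exists_bound_of_continuousOn hf.continuousOn
  exact Measure.integrableOn_of_bounded hfin.ne hf.aestronglyMeasurable
    (ae_restrict_of_forall_mem measurableSet_closedBall hC)

/-- antiderivative of the weight -/
noncomputable def Hf (r : ℝ) (s : ℝ) : ℝ := -(r ^ 2 / 6) * (max 0 (1 - s / r ^ 2)) ^ 3

lemma Hf_der {r : ℝ} (hr : 0 < r) (s : ℝ) :
    HasDerivAt (Hf r) ((1 / 2) * wt 0 (s / r ^ 2)) s := by
  have h1 : HasDerivAt (fun s : ℝ => 1 - s / r ^ 2) (-(1 / r ^ 2)) s :=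
    ((hasDerivAt_id s).div_const _).const_sub 1
  have h2 := ((hasDerivAt_poscube (1 - s / r ^ 2)).comp s h1).const_mul (-(r ^ 2 / 6))
  have e : (1 / 2) * wt 0 (s / r ^ 2) =
      -(r ^ 2 / 6) * (3 * (max 0 (1 - s / r ^ 2)) ^ 2 * (-(1 / r ^ 2))) := by
    unfold wt
    rw [zero_add, pow_one]
    field_simp
    ring
  rw [e]
  exact h2

lemma Hf_nonpos (r s : ℝ) : Hf r s ≤ 0 := by
  unfold Hf
  have h1 : 0 ≤ r ^ 2 / 6 * (max 0 (1 - s / r ^ 2)) ^ 3 := by positivity
  linarith

lemma Hf_contDiff (r : ℝ) : ContDiff ℝ 2 (Hf r) :=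
  contDiff_const.mul (contDiff_poscube.comp (contDiff_const.sub (contDiff_id.div_const _)))

/-- the weighted test -/
lemma test_weighted {m : ℕ} {U : Set (E N)} {μ : Measure (E N)} {T : E N → Submodule ℝ (E N)}
    (hS : Stat m U μ fun x => (T x).starProjection)
    (hT : ∀ᵐ x ∂(μ.restrict U), Module.finrank ℝ (T x) = m) {g : E N → ℝ} (hg : ContDiff ℝ 2 g)
    {a : E N} {R r : ℝ} (hR : closedBall a R ⊆ U) (hr : 0 < r) (hrR : r ≤ R)
    (hg0 : ∀ z ∈ closedBall a R, 0 ≤ g z)
    (hsub : ∀ z ∈ closedBall a R, ∀ S : Submodule ℝ (E N), Module.finrank ℝ S = m →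
      0 ≤ lap S g z) :
    ∫ y, g y * (m * wt 0 (‖y - a‖ ^ 2 / r ^ 2) +
      2 * (‖y - a‖ ^ 2 / r ^ 2) * wt' 0 (‖y - a‖ ^ 2 / r ^ 2)) ∂(μ.restrict (closedBall a R)) ≤ 0 := by
  have hf := wt_Wt 0
  have hr2 : 0 < r ^ 2 := by positivity
  set k : ℝ → ℝ := fun s => wt 0 (s / r ^ 2) with hk
  set k' : ℝ → ℝ := fun s => wt' 0 (s / r ^ 2) / r ^ 2 with hk'
  have hkd : ∀ s, HasDerivAt k (k' s) s := by
    intro s
    have h1 : HasDerivAt (fun s : ℝ => s / r ^ 2) (1 / r ^ 2) s := (hasDerivAt_id s).div_const _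
    have h2 := (hf.der (s / r ^ 2)).comp s h1
    have e : k' s = wt' 0 (s / r ^ 2) * (1 / r ^ 2) := by
      simp only [hk']
      ring
    rw [e]
    exact h2
  have hkc : ContDiff ℝ 1 k := hf.contDiff.comp (contDiff_id.div_const _)
  have hradc : ContDiff ℝ 1 (rad k a) := (hkc.comp (contDiff_sq a)).smul (contDiff_id.sub contDiff_const)
  have hsq2 : ContDiff ℝ 2 (fun y : E N => ‖y - a‖ ^ 2) :=
    (contDiff_id.sub contDiff_const).norm_sq ℝ
  set Ψ : E N → ℝ := fun y => Hf r (‖y - a‖ ^ 2) with hΨ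
  have hΨc : ContDiff ℝ 2 Ψ := (Hf_contDiff r).comp hsq2
  have hg1 : ContDiff ℝ 1 g := hg.of_le (by norm_num)
  set X : E N → E N := fun y => g y • rad k a y + (-Ψ y) • grd g y with hX
  have hXc : ContDiff ℝ 1 X :=
    (hg1.smul hradc).add ((hΨc.of_le (by norm_num)).neg.smul (grd_contDiff hg))
  have hfar : ∀ y, y ∉ closedBall a r → 1 ≤ ‖y - a‖ ^ 2 / r ^ 2 := by
    intro y hy
    have h1 : r < ‖y - a‖ := by
      rw [mem_closedBall, dist_eq_norm] at hy
      exact not_le.1 hy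
    rw [one_le_div hr2]
    exact pow_le_pow_left₀ hr.le h1.le 2
  have hzero : ∀ y, y ∉ closedBall a r → X y = 0 := by
    intro y hy
    have h2 := hfar y hy
    have h3 : Ψ y = 0 := by
      simp only [hΨ, Hf]
      rw [max_eq_left (by linarith)]
      simp
    simp [hX, rad, hk, hf.zero _ h2, h3]
  have hsubX : tsupport X ⊆ closedBall a r := by
    apply closure_minimal _ isClosed_closedBall
    intro y hy
    by_contra hc
    exact hy (hzero y hc)
  have hcs : HasCompactSupport X := HasCompactSupport.intro (isCompact_closedBall a r) hzero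
  have hbR : closedBall a r ⊆ closedBall a R := closedBall_subset_closedBall hrR
  have hstat := hS.stat X hXc hcs (hsubX.trans (hbR.trans hR))
  have hint := (integrable_trc hS hXc hcs (hsubX.trans (hbR.trans hR))).restrict (s := closedBall a R)
  have h3 : ∫ y, trc ((T y).starProjection ∘L fderiv ℝ X y) ∂μ =
      ∫ y, trc ((T y).starProjection ∘L fderiv ℝ X y) ∂(μ.restrict (closedBall a R)) := by
    symm
    apply setIntegral_eq_integral_of_forall_compl_eq_zero
    intro y hy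
    have hy' : y ∉ tsupport X := fun h => hy (hbR (hsubX h))
    rw [fderiv_zero_of_notMem hy', ContinuousLinearMap.comp_zero, trc_zero]
  rw [h3] at hstat
  have : IsFiniteMeasure (μ.restrict (closedBall a R)) :=
    ⟨by simpa using hS.fin _ hR (isCompact_closedBall a R)⟩
  have hdim : ∀ᵐ x ∂(μ.restrict (closedBall a R)), Module.finrank ℝ (T x) = m :=
    ae_restrict_of_ae_restrict_of_subset hR hT
  rw [← hstat]
  -- integrability of the left side
  have hcontF : Continuous fun y : E N => g y * (m * wt 0 (‖y - a‖ ^ 2 / r ^ 2) +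
      2 * (‖y - a‖ ^ 2 / r ^ 2) * wt' 0 (‖y - a‖ ^ 2 / r ^ 2)) := by
    have h1 : Continuous fun y : E N => ‖y - a‖ ^ 2 / r ^ 2 := by fun_prop
    exact hg.continuous.mul ((continuous_const.mul (hf.contf.comp h1)).add
      ((continuous_const.mul h1).mul (hf.cont.comp h1)))
  have hintF : Integrable (fun y : E N => g y * (m * wt 0 (‖y - a‖ ^ 2 / r ^ 2) +
      2 * (‖y - a‖ ^ 2 / r ^ 2) * wt' 0 (‖y - a‖ ^ 2 / r ^ 2))) (μ.restrict (closedBall a R)) := by
    have hc : HasCompactSupport (fun y : E N => g y * (m * wt 0 (‖y - a‖ ^ 2 / r ^ 2) +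
      2 * (‖y - a‖ ^ 2 / r ^ 2) * wt' 0 (‖y - a‖ ^ 2 / r ^ 2))) := by
      apply HasCompactSupport.intro (isCompact_closedBall a r)
      intro y hy
      have h2 := hfar y hy
      simp [hf.zero _ h2, hf.zero' _ h2]
    exact hcontF.integrable_of_hasCompactSupport hc
  apply integral_mono_ae hintF hint
  filter_upwards [hdim, ae_restrict_mem measurableSet_closedBall] with y hy hyR
  -- compute the trace
  set P := (T y).starProjection with hP
  have hd1 : Differentiable ℝ (fun y => g y • rad k a y) := (hg1.smul hradc).differentiable one_ne_zero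
  have hd2 : Differentiable ℝ (fun y => (-Ψ y) • grd g y) :=
    ((hΨc.of_le (by norm_num)).neg.smul (grd_contDiff hg)).differentiable one_ne_zero
  have hXd : fderiv ℝ X y = fderiv ℝ (fun y => g y • rad k a y) y +
      fderiv ℝ (fun y => (-Ψ y) • grd g y) y := fderiv_add (hd1 y) (hd2 y)
  have e1 : trc (P ∘L fderiv ℝ (fun y => g y • rad k a y) y) =
      g y * (k (‖y - a‖ ^ 2) * m + 2 * k' (‖y - a‖ ^ 2) * ⟪y - a, P (y - a)⟫) +
        k (‖y - a‖ ^ 2) * fderiv ℝ g y (P (y - a)) := by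
    rw [trc_smul_field (hg1.differentiable one_ne_zero) (hradc.differentiable one_ne_zero),
      trc_rad hkd, hP, trc_starProjection, hy]
    congr 1
    unfold rad
    rw [map_smul, map_smul, smul_eq_mul]
  have e2 : trc (P ∘L fderiv ℝ (fun y => (-Ψ y) • grd g y) y) =
      (-Ψ y) * lap (T y) g y - k (‖y - a‖ ^ 2) * fderiv ℝ g y (P (y - a)) := by
    rw [trc_smul_grd (hΨc.of_le (by norm_num)).neg hg, sub_eq_add_neg]
    congr 1
    have h4' := HasDerivAt.comp_hasFDerivAt (f := fun y : E N => ‖y - a‖ ^ 2) y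
      (Hf_der hr (‖y - a‖ ^ 2)) (hasFDerivAt_sq a y)
    have h4 : HasFDerivAt (fun y => -Ψ y) (-(((1 / 2) * wt 0 (‖y - a‖ ^ 2 / r ^ 2)) •
        ((2:ℝ) • innerSL ℝ (y - a)))) y := h4'.neg
    rw [h4.fderiv]
    have h5 : fderiv ℝ g y (P (y - a)) = ⟪y - a, P (grd g y)⟫ := by
      rw [← inner_grd, hP, ← proj_symm, real_inner_comm]
    rw [h5]
    simp only [neg_apply, smul_apply, innerSL_apply_apply, smul_eq_mul, hk]
    ring
  rw [hXd, ContinuousLinearMap.comp_add, trc_add, e1, e2]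
  have h6 : 0 ≤ (-Ψ y) * lap (T y) g y :=
    mul_nonneg (by have := Hf_nonpos r (‖y - a‖ ^ 2); simp only [hΨ]; linarith)
      (hsub y hyR (T y) hy)
  have h7 := inner_le_of_norm (hS.nrm y) (y - a)
  have h8 : wt' 0 (‖y - a‖ ^ 2 / r ^ 2) ≤ 0 := hf.nonpos _ (by positivity)
  have h9 : k' (‖y - a‖ ^ 2) ≤ 0 := div_nonpos_of_nonpos_of_nonneg h8 hr2.le
  have h10 : k' (‖y - a‖ ^ 2) * ‖y - a‖ ^ 2 ≤ k' (‖y - a‖ ^ 2) * ⟪y - a, P (y - a)⟫ :=
    mul_le_mul_of_nonpos_left h7 h9
  have h11 : 2 * (‖y - a‖ ^ 2 / r ^ 2) * wt' 0 (‖y - a‖ ^ 2 / r ^ 2) =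
      2 * (k' (‖y - a‖ ^ 2) * ‖y - a‖ ^ 2) := by
    simp only [hk']
    field_simp
  rw [h11]
  have h12 := hg0 y hyR
  have h13 : m * wt 0 (‖y - a‖ ^ 2 / r ^ 2) + 2 * (k' (‖y - a‖ ^ 2) * ‖y - a‖ ^ 2) ≤
      k (‖y - a‖ ^ 2) * m + 2 * k' (‖y - a‖ ^ 2) * ⟪y - a, P (y - a)⟫ := by
    simp only [hk]
    linarith
  have h14 := mul_le_mul_of_nonneg_left h13 h12
  linarith

/-- monotonicity from the differential inequality -/
lemma mono_of_ineq {m : ℕ} {f f' : ℝ → ℝ} (hf : Wt f f') (ν : Measure (E N)) [IsFiniteMeasure ν]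
    {a : E N} {R r : ℝ} (hr : 0 < r) (hrR : r ≤ R)
    (hI : ∀ x, 0 < x → x ≤ R → m * I f ν a x ≤ x *
      ∫ y, f' (‖y - a‖ ^ 2 / x ^ 2) * (-2 * ‖y - a‖ ^ 2 / x ^ 3) ∂ν) :
    I f ν a r / r ^ m ≤ I f ν a R / R ^ m := by
  have hR0 : 0 < R := hr.trans_le hrR
  have hder : ∀ x, 0 < x → HasDerivAt (fun x => I f ν a x / x ^ m)
      (((∫ y, f' (‖y - a‖ ^ 2 / x ^ 2) * (-2 * ‖y - a‖ ^ 2 / x ^ 3) ∂ν) * x ^ m -
        I f ν a x * ((m:ℝ) * x ^ (m - 1))) / (x ^ m) ^ 2) x := by
    intro x hx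
    exact (hasDerivAt_I hf ν a hx).2.div (hasDerivAt_pow m x) (by positivity)
  have hmono : MonotoneOn (fun x => I f ν a x / x ^ m) (Icc r R) := by
    apply monotoneOn_of_deriv_nonneg (convex_Icc r R)
    · intro x hx
      exact (hder x (hr.trans_le hx.1)).continuousAt.continuousWithinAt
    · intro x hx
      rw [interior_Icc] at hx
      exact (hder x (hr.trans hx.1)).differentiableAt.differentiableWithinAt
    · intro x hx
      rw [interior_Icc] at hx
      have hx0 : 0 < x := hr.trans hx.1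
      rw [(hder x hx0).deriv]
      apply div_nonneg _ (by positivity)
      have h1 := hI x hx0 hx.2.le
      rcases Nat.eq_zero_or_pos m with h0 | h0
      · subst h0
        simp only [Nat.cast_zero, zero_mul] at h1
        have : 0 ≤ ∫ y, f' (‖y - a‖ ^ 2 / x ^ 2) * (-2 * ‖y - a‖ ^ 2 / x ^ 3) ∂ν := by
          by_contra hc
          push Not at hc
          nlinarith
        simpa using this
      · have h2 : x ^ m = x * x ^ (m - 1) := by
          rw [← pow_succ', Nat.sub_add_cancel h0]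
        rw [h2]
        have h3 : 0 < x ^ (m - 1) := by positivity
        nlinarith
  exact hmono ⟨le_rfl, hrR⟩ ⟨hrR, le_rfl⟩ hrR

/-- weighted monotonicity -/
lemma weighted_mono {m : ℕ} {U : Set (E N)} {μ : Measure (E N)} {T : E N → Submodule ℝ (E N)}
    (hS : Stat m U μ fun x => (T x).starProjection)
    (hT : ∀ᵐ x ∂(μ.restrict U), Module.finrank ℝ (T x) = m) {g : E N → ℝ} (hg : ContDiff ℝ 2 g)
    {a : E N} {R r : ℝ} (hR : closedBall a R ⊆ U) (hr : 0 < r) (hrR : r ≤ R)
    (hg0 : ∀ z ∈ closedBall a R, 0 ≤ g z)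
    (hsub : ∀ z ∈ closedBall a R, ∀ S : Submodule ℝ (E N), Module.finrank ℝ S = m →
      0 ≤ lap S g z) :
    (∫ y in closedBall a R, g y * wt 0 (‖y - a‖ ^ 2 / r ^ 2) ∂μ) / r ^ m ≤
      (∫ y in closedBall a R, g y * wt 0 (‖y - a‖ ^ 2 / R ^ 2) ∂μ) / R ^ m := by
  have hfin : IsFiniteMeasure (μ.restrict (closedBall a R)) :=
    ⟨by simpa using hS.fin _ hR (isCompact_closedBall a R)⟩
  have hgi : Integrable g (μ.restrict (closedBall a R)) :=
    integrableOn_cb (hS.fin _ hR (isCompact_closedBall a R)) hg.continuous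
  set ν : Measure (E N) := (μ.restrict (closedBall a R)).withDensity
    fun y => ENNReal.ofReal (g y) with hν
  have hνfin : IsFiniteMeasure ν := isFiniteMeasure_withDensity_ofReal hgi.2
  have hconv : ∀ F : E N → ℝ, ∫ y, F y ∂ν = ∫ y in closedBall a R, g y * F y ∂μ := by
    intro F
    rw [hν, integral_withDensity_eq_integral_toReal_smul
      (hg.continuous.measurable.ennreal_ofReal) (Eventually.of_forall fun y => ENNReal.ofReal_lt_top)]
    apply setIntegral_congr_fun measurableSet_closedBall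
    intro y hy
    show (ENNReal.ofReal (g y)).toReal • F y = g y * F y
    rw [ENNReal.toReal_ofReal (hg0 y hy), smul_eq_mul]
  have hIe : ∀ x, I (wt 0) ν a x = ∫ y in closedBall a R, g y * wt 0 (‖y - a‖ ^ 2 / x ^ 2) ∂μ :=
    fun x => hconv _
  rw [← hIe, ← hIe]
  apply mono_of_ineq (wt_Wt 0) ν hr hrR
  intro x hx hxR
  have h1 := test_weighted hS hT hg hR hx hxR hg0 hsub
  rw [← hconv] at h1
  have h2 := (hasDerivAt_I (wt_Wt 0) ν a hx).1
  have h3 := integrable_wt (wt_Wt 0) ν a x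
  have h4 : ∫ y, (m * wt 0 (‖y - a‖ ^ 2 / x ^ 2) + 2 * (‖y - a‖ ^ 2 / x ^ 2) *
      wt' 0 (‖y - a‖ ^ 2 / x ^ 2)) ∂ν =
      m * I (wt 0) ν a x - x *
      ∫ y, wt' 0 (‖y - a‖ ^ 2 / x ^ 2) * (-2 * ‖y - a‖ ^ 2 / x ^ 3) ∂ν := by
    rw [I, ← integral_const_mul, ← integral_const_mul, ← integral_sub (h3.const_mul _)
      (h2.const_mul _)]
    apply integral_congr_ae
    filter_upwards with y
    field_simp
    ring
  rw [h4] at h1
  linarith

/-- mean value inequality -/
lemma mean_value {m : ℕ} {U : Set (E N)} {μ : Measure (E N)} {T : E N → Submodule ℝ (E N)}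
    (hS : Stat m U μ fun x => (T x).starProjection)
    (hT : ∀ᵐ x ∂(μ.restrict U), Module.finrank ℝ (T x) = m) {g : E N → ℝ} (hg : ContDiff ℝ 2 g)
    {a : E N} {R : ℝ} (hR : closedBall a R ⊆ U) (hR0 : 0 < R)
    (hg0 : ∀ z ∈ closedBall a R, 0 ≤ g z)
    (hsub : ∀ z ∈ closedBall a R, ∀ S : Submodule ℝ (E N), Module.finrank ℝ S = m →
      0 ≤ lap S g z) {c : ℝ} (hc : 0 < c)
    (hdens : ∀ s, 0 < s → s ≤ R → c * s ^ m ≤ μ.real (ball a s)) :
    g a * (c * R ^ m) ≤ 4 * 2 ^ m * ∫ y in closedBall a R, g y ∂μ := by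
  have hfin : IsFiniteMeasure (μ.restrict (closedBall a R)) :=
    ⟨by simpa using hS.fin _ hR (isCompact_closedBall a R)⟩
  have hgi : IntegrableOn g (closedBall a R) μ :=
    integrableOn_cb (hS.fin _ hR (isCompact_closedBall a R)) hg.continuous
  have hint0 : 0 ≤ ∫ y in closedBall a R, g y ∂μ :=
    setIntegral_nonneg measurableSet_closedBall hg0
  have ha : 0 ≤ g a := hg0 a (mem_closedBall_self hR0.le)
  rcases ha.eq_or_lt with h | h
  · rw [← h, zero_mul]
    positivity
  · -- choose s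
    have h1 : ∀ᶠ y in 𝓝 a, g a / 2 < g y :=
      hg.continuous.continuousAt.eventually_const_lt (by linarith)
    obtain ⟨s₀, hs₀, hs₀'⟩ := Metric.eventually_nhds_iff_ball.1 h1
    set s : ℝ := min s₀ R with hs
    have hs0 : 0 < s := lt_min hs₀ hR0
    have hsR : s ≤ R := min_le_right _ _
    have h2 := weighted_mono hS hT hg hR hs0 hsR hg0 hsub
    have hwle : ∀ u : ℝ, 0 ≤ u → wt 0 u ≤ 1 := by
      intro u hu
      unfold wt
      rw [zero_add, pow_one]
      have h3 : max 0 (1 - u) ≤ 1 := max_le (by norm_num) (by linarith)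
      have h4 : 0 ≤ max 0 (1 - u) := le_max_left _ _
      nlinarith
    have hw0 : ∀ u : ℝ, 0 ≤ wt 0 u := fun u => by unfold wt; positivity
    have hcontw : ∀ x : ℝ, Continuous fun y : E N => g y * wt 0 (‖y - a‖ ^ 2 / x ^ 2) := by
      intro x
      have h1 : Continuous fun y : E N => ‖y - a‖ ^ 2 / x ^ 2 := by fun_prop
      exact hg.continuous.mul ((wt_Wt 0).contf.comp h1)
    have hintw : ∀ x : ℝ, IntegrableOn (fun y : E N => g y * wt 0 (‖y - a‖ ^ 2 / x ^ 2))
        (closedBall a R) μ := fun x =>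
      integrableOn_cb (hS.fin _ hR (isCompact_closedBall a R)) (hcontw x)
    -- upper bound
    have h3 : ∫ y in closedBall a R, g y * wt 0 (‖y - a‖ ^ 2 / R ^ 2) ∂μ ≤
        ∫ y in closedBall a R, g y ∂μ := by
      apply setIntegral_mono_on (hintw R) hgi measurableSet_closedBall
      intro y hy
      have h4 := hg0 y hy
      have h5 := hwle (‖y - a‖ ^ 2 / R ^ 2) (by positivity)
      nlinarith
    -- lower bound
    have h4 : (g a / 2 * (9 / 16)) * μ.real (ball a (s / 2)) ≤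
        ∫ y in closedBall a R, g y * wt 0 (‖y - a‖ ^ 2 / s ^ 2) ∂μ := by
      have hbb : ball a (s / 2) ⊆ closedBall a R :=
        ball_subset_closedBall.trans (closedBall_subset_closedBall (by linarith))
      have h5 : ∫ y in ball a (s / 2), g y * wt 0 (‖y - a‖ ^ 2 / s ^ 2) ∂μ ≤
          ∫ y in closedBall a R, g y * wt 0 (‖y - a‖ ^ 2 / s ^ 2) ∂μ := by
        apply setIntegral_mono_set (hintw s) _ hbb.eventuallyLE
        filter_upwards [ae_restrict_mem measurableSet_closedBall] with y hy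
        exact mul_nonneg (hg0 y hy) (hw0 _)
      refine le_trans ?_ h5
      have h6 : (g a / 2 * (9 / 16)) * μ.real (ball a (s / 2)) =
          ∫ _y in ball a (s / 2), (g a / 2 * (9 / 16)) ∂μ := by
        rw [setIntegral_const, smul_eq_mul, mul_comm]
      rw [h6]
      have hmb : μ (ball a (s / 2)) < ⊤ := (measure_mono hbb).trans_lt
        (hS.fin _ hR (isCompact_closedBall a R))
      apply setIntegral_mono_on (integrableOn_const hmb.ne) ((hintw s).mono_set hbb)
        measurableSet_ball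
      intro y hy
      have h7 : g a / 2 < g y := by
        apply hs₀'
        refine ball_subset_ball ?_ hy
        have := min_le_left s₀ R
        linarith
      rw [mem_ball, dist_eq_norm] at hy
      have h8 : ‖y - a‖ ^ 2 / s ^ 2 ≤ 1 / 4 := by
        rw [div_le_iff₀ (by positivity)]
        have := pow_le_pow_left₀ (norm_nonneg (y - a)) hy.le 2
        nlinarith
      have h9 : 9 / 16 ≤ wt 0 (‖y - a‖ ^ 2 / s ^ 2) := by
        unfold wt
        rw [zero_add, pow_one]
        have h10 : 3 / 4 ≤ max 0 (1 - ‖y - a‖ ^ 2 / s ^ 2) := le_max_of_le_right (by linarith)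
        nlinarith
      exact mul_le_mul h7.le h9 (by norm_num) (by linarith)
    have h5 := hdens (s / 2) (by positivity) (by linarith)
    have h6 : (g a / 2 * (9 / 16)) * (c * (s / 2) ^ m) ≤
        ∫ y in closedBall a R, g y * wt 0 (‖y - a‖ ^ 2 / s ^ 2) ∂μ :=
      (mul_le_mul_of_nonneg_left h5 (by positivity)).trans h4
    have h7 : (g a / 2 * (9 / 16)) * (c * (1 / 2) ^ m) ≤
        (∫ y in closedBall a R, g y ∂μ) / R ^ m := by
      calc (g a / 2 * (9 / 16)) * (c * (1 / 2) ^ m)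
          = ((g a / 2 * (9 / 16)) * (c * (s / 2) ^ m)) / s ^ m := by
            rw [div_pow, div_pow]
            field_simp
            norm_num
        _ ≤ (∫ y in closedBall a R, g y * wt 0 (‖y - a‖ ^ 2 / s ^ 2) ∂μ) / s ^ m :=
            div_le_div_of_nonneg_right h6 (by positivity)
        _ ≤ _ := h2
        _ ≤ _ := div_le_div_of_nonneg_right h3 (by positivity)
    rw [le_div_iff₀ (by positivity)] at h7
    have h8 : g a * (c * R ^ m) * (9 / 32) =
        2 ^ m * ((g a / 2 * (9 / 16)) * (c * (1 / 2) ^ m) * R ^ m) := by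
      rw [div_pow]
      field_simp
      norm_num
    have h9 : g a * (c * R ^ m) * (9 / 32) ≤ 2 ^ m * ∫ y in closedBall a R, g y ∂μ := by
      rw [h8]
      exact mul_le_mul_of_nonneg_left h7 (by positivity)
    have h10 : 0 ≤ g a * (c * R ^ m) := by positivity
    nlinarith

end Pool.Agent.Helper68V
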