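import Pool.Agent.Helper68V.P2

/-!
Decay of the defining function along the support.
-/

namespace Pool.Agent.Helper68V

open MeasureTheory Set Filter Topology Metric Pool.Agent.TH337.VF
open scoped ENNReal RealInnerProductSpace Manifold ContDiff

variable {N : ℕ}

theorem contact {m : ℕ} {U : Set (E N)} {μ : Measure (E N)} {T : E N → Submodule ℝ (E N)}
    (hS : Stat m U μ fun x => (T x).starProjection)
    (hT : ∀ᵐ x ∂(μ.restrict U), Module.finrank ℝ (T x) = m) {g : E N → ℝ} (hg : ContDiff ℝ 2 g)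
    {x₀ : E N} {r₁ : ℝ} (hr₁ : 0 < r₁) (hR : closedBall x₀ r₁ ⊆ U)
    (hg0 : ∀ z ∈ closedBall x₀ r₁, 0 ≤ g z)
    (hsub : ∀ z ∈ closedBall x₀ r₁, ∀ S : Submodule ℝ (E N), Module.finrank ℝ S = m →
      0 ≤ lap S g z) {c : ℝ} (hc : 0 < c)
    (hdens : ∀ a ∈ μ.support, ∀ s, 0 < s → closedBall a s ⊆ closedBall x₀ r₁ →
      c * s ^ m ≤ μ.real (ball a s)) (hx₀ : g x₀ = 0) (k : ℕ)
    (h1 : ∀ᶠ r in 𝓝[>] (0:ℝ), μ.real (closedBall x₀ r ∩ {z | g z ≠ 0}) / r ^ m <
      c / (4 * 4 ^ m) * (1 / 2) ^ k) :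
    ∃ C ρ : ℝ, 0 ≤ C ∧ 0 < ρ ∧ ρ ≤ r₁ ∧ ∀ z ∈ μ.support, dist z x₀ ≤ ρ →
      g z ≤ C * dist z x₀ ^ k := by
  set A : ℝ := c / (4 * 4 ^ m) * (1 / 2) ^ k with hA
  have hA0 : 0 < A := by positivity
  obtain ⟨ρ₀, hρ₀, hρ₀'⟩ := mem_nhdsGT_iff_exists_Ioc_subset.1 h1
  have hρ₀0 : 0 < ρ₀ := hρ₀
  set ρ : ℝ := min ρ₀ r₁ with hρ
  have hρ0 : 0 < ρ := lt_min hρ₀0 hr₁
  have hρr : ρ ≤ r₁ := min_le_right _ _
  -- upper bound of g
  obtain ⟨B, hB⟩ := (isCompact_closedBall x₀ r₁).bddAbove_image hg.continuous.continuousOn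
  have hB' : ∀ z ∈ closedBall x₀ r₁, g z ≤ B := fun z hz => hB (mem_image_of_mem _ hz)
  have hB0 : 0 ≤ B := by
    have := hB' x₀ (mem_closedBall_self hr₁.le)
    rwa [hx₀] at this
  -- one step
  have step : ∀ r, 0 < r → r ≤ ρ → ∀ D : ℝ, 0 ≤ D →
      (∀ z ∈ μ.support, z ∈ closedBall x₀ r → g z ≤ D) →
      ∀ z ∈ μ.support, z ∈ closedBall x₀ (r / 2) → g z ≤ (1 / 2) ^ k * D := by
    intro r hr hrρ D hD hDz a ha har
    have hrm : μ.real (closedBall x₀ r ∩ {z | g z ≠ 0}) / r ^ m < A :=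
      hρ₀' ⟨hr, hrρ.trans (min_le_left _ _)⟩
    rw [div_lt_iff₀ (by positivity)] at hrm
    have hsubr : closedBall a (r / 2) ⊆ closedBall x₀ r := by
      apply closedBall_subset_closedBall'
      rw [mem_closedBall] at har
      linarith
    have hr1 : closedBall x₀ r ⊆ closedBall x₀ r₁ := closedBall_subset_closedBall (hrρ.trans hρr)
    have hmv := mean_value hS hT hg (a := a) (R := r / 2) (hsubr.trans (hr1.trans hR))
      (by positivity) (fun z hz => hg0 z (hr1 (hsubr hz)))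
      (fun z hz => hsub z (hr1 (hsubr hz))) hc (fun s hs hsR => by
        apply hdens a ha s hs
        exact (closedBall_subset_closedBall hsR).trans (hsubr.trans hr1))
    -- bound the integral
    have hfinr : μ (closedBall x₀ r) < ⊤ := hS.fin _ (hr1.trans hR) (isCompact_closedBall x₀ r)
    have hI1 : ∫ y in closedBall a (r / 2), g y ∂μ ≤ ∫ y in closedBall x₀ r, g y ∂μ := by
      apply setIntegral_mono_set (integrableOn_cb hfinr hg.continuous) _ hsubr.eventuallyLE
      filter_upwards [ae_restrict_mem measurableSet_closedBall] with y hy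
      exact hg0 y (hr1 hy)
    have hms : MeasurableSet {z | g z ≠ 0} :=
      (isOpen_ne_fun hg.continuous continuous_const).measurableSet
    have hI2 : ∫ y in closedBall x₀ r, g y ∂μ ≤
        ∫ y in closedBall x₀ r, ({z | g z ≠ 0}.indicator (fun _ => D)) y ∂μ := by
      apply integral_mono_ae (integrableOn_cb hfinr hg.continuous)
      · have : IsFiniteMeasure (μ.restrict (closedBall x₀ r)) := ⟨by simpa using hfinr⟩
        exact (integrable_const D).indicator hms
      · filter_upwards [ae_restrict_mem measurableSet_closedBall,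
          ae_restrict_of_ae (Measure.support_mem_ae (μ := μ))] with y hy hys
        by_cases h0 : g y = 0
        · rw [indicator_of_notMem (by simpa using h0), h0]
        · rw [indicator_of_mem (by simpa using h0)]
          exact hDz y hys hy
    have hI3 : ∫ y in closedBall x₀ r, ({z | g z ≠ 0}.indicator (fun _ => D)) y ∂μ =
        D * μ.real (closedBall x₀ r ∩ {z | g z ≠ 0}) := by
      rw [integral_indicator hms, setIntegral_const, smul_eq_mul, mul_comm]
      congr 1
      rw [measureReal_restrict_apply hms, inter_comm]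
    have h2 : g a * (c * (r / 2) ^ m) ≤ 4 * 2 ^ m * (D * (A * r ^ m)) := by
      refine hmv.trans ?_
      apply mul_le_mul_of_nonneg_left _ (by positivity)
      refine (hI1.trans hI2).trans ?_
      rw [hI3]
      exact mul_le_mul_of_nonneg_left hrm.le hD
    have h3 : g a * (c * (r / 2) ^ m) ≤ ((1 / 2) ^ k * D) * (c * (r / 2) ^ m) := by
      refine h2.trans (le_of_eq ?_)
      have h4 : (4 : ℝ) ^ m = 2 ^ m * 2 ^ m := by
        rw [← mul_pow]
        norm_num
      rw [hA, h4, div_pow r]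
      field_simp
    exact le_of_mul_le_mul_right h3 (by positivity)
  have hind : ∀ j : ℕ, ∀ z ∈ μ.support, z ∈ closedBall x₀ (ρ * (1 / 2) ^ j) →
      g z ≤ ((1 / 2) ^ k) ^ j * B := by
    intro j
    induction j with
    | zero =>
      intro z _ hz
      rw [pow_zero, mul_one] at hz
      rw [pow_zero, one_mul]
      exact hB' z (closedBall_subset_closedBall hρr hz)
    | succ j ih =>
      intro z hzs hz
      have h2 : ρ * (1 / 2 : ℝ) ^ j ≤ ρ := by
        have : (1 / 2 : ℝ) ^ j ≤ 1 := pow_le_one₀ (by norm_num) (by norm_num)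
        nlinarith
      have h3 := step (ρ * (1 / 2) ^ j) (by positivity) h2 (((1 / 2) ^ k) ^ j * B) (by positivity)
        ih z hzs (by
          have e : ρ * (1 / 2 : ℝ) ^ j / 2 = ρ * (1 / 2) ^ (j + 1) := by
            rw [pow_succ]
            ring
          rw [e]
          exact hz)
      refine h3.trans (le_of_eq ?_)
      rw [pow_succ ((1 / 2 : ℝ) ^ k) j]
      ring
  refine ⟨(2 / ρ) ^ k * B, ρ, by positivity, hρ0, hρr, ?_⟩
  intro z hzs hz
  rcases (dist_nonneg (x := z) (y := x₀)).eq_or_lt with h0 | h0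
  · have hzx : z = x₀ := dist_eq_zero.1 h0.symm
    subst hzx
    rw [hx₀]
    positivity
  · have hx1 : 0 < dist z x₀ / ρ := by positivity
    have hx2 : dist z x₀ / ρ ≤ 1 := by
      rw [div_le_one hρ0]
      exact hz
    obtain ⟨j, hj1, hj2⟩ := exists_nat_pow_near_of_lt_one hx1 hx2 (by norm_num : (0:ℝ) < 1 / 2)
      (by norm_num)
    have h2 := hind j z hzs (by
      rw [mem_closedBall]
      rw [div_le_iff₀ hρ0] at hj2
      linarith)
    refine h2.trans ?_
    have h3 : ((1 / 2 : ℝ) ^ k) ^ j = ((1 / 2) ^ j) ^ k := by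
      rw [← pow_mul, ← pow_mul, mul_comm]
    have h4 : (1 / 2 : ℝ) ^ j ≤ 2 * (dist z x₀ / ρ) := by
      have : (1 / 2 : ℝ) ^ (j + 1) = (1 / 2) ^ j / 2 := by
        rw [pow_succ]
        ring
      rw [this] at hj1
      linarith
    have h5 : ((1 / 2 : ℝ) ^ j) ^ k ≤ (2 * (dist z x₀ / ρ)) ^ k :=
      pow_le_pow_left₀ (by positivity) h4 k
    rw [h3]
    calc ((1 / 2 : ℝ) ^ j) ^ k * B ≤ (2 * (dist z x₀ / ρ)) ^ k * B :=
          mul_le_mul_of_nonneg_right h5 hB0
      _ = (2 / ρ) ^ k * B * dist z x₀ ^ k := by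
        rw [mul_pow, div_pow, div_pow]
        ring

end Pool.Agent.Helper68V
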