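import Pool.Agent.Helper68V.P3

/-!
Green identity and decay of the tilt.
-/

namespace Pool.Agent.Helper68V

open MeasureTheory Set Filter Topology Metric Pool.Agent.TH337.VF
open scoped ENNReal RealInnerProductSpace Manifold ContDiff

variable {N : ℕ}

lemma green {m : ℕ} {U : Set (E N)} {μ : Measure (E N)} {T : E N → Submodule ℝ (E N)}
    (hS : Stat m U μ fun x => (T x).starProjection) {χ g : E N → ℝ} (hχ : ContDiff ℝ 2 χ)
    (hc : HasCompactSupport χ) (hU : tsupport χ ⊆ U) (hg : ContDiff ℝ 2 g) :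
    Integrable (fun y => χ y * lap (T y) g y - g y * lap (T y) χ y) μ ∧
      ∫ y, (χ y * lap (T y) g y - g y * lap (T y) χ y) ∂μ = 0 := by
  have hχ1 : ContDiff ℝ 1 χ := hχ.of_le (by norm_num)
  have hg1 : ContDiff ℝ 1 g := hg.of_le (by norm_num)
  set X : E N → E N := fun y => χ y • grd g y - g y • grd χ y with hX
  have hXc : ContDiff ℝ 1 X := (hχ1.smul (grd_contDiff hg)).sub (hg1.smul (grd_contDiff hχ))
  have hsub : tsupport X ⊆ tsupport χ := by
    apply closure_minimal _ (isClosed_tsupport χ)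
    intro y hy
    by_contra hcon
    apply hy
    have h1 : χ y = 0 := image_eq_zero_of_notMem_tsupport hcon
    have h2 : grd χ y = 0 := by
      by_contra h
      exact hcon (tsupport_grd χ (subset_tsupport _ h))
    simp [hX, h1, h2]
  have hcs : HasCompactSupport X := hc.of_isClosed_subset (isClosed_tsupport X) hsub
  have h1 := integrable_trc hS hXc hcs (hsub.trans hU)
  have h2 := hS.stat X hXc hcs (hsub.trans hU)
  have h3 : ∀ y, trc ((T y).starProjection ∘L fderiv ℝ X y) =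
      χ y * lap (T y) g y - g y * lap (T y) χ y := by
    intro y
    have hd1 : DifferentiableAt ℝ (fun y => χ y • grd g y) y :=
      (hχ1.smul (grd_contDiff hg)).differentiable one_ne_zero y
    have hd2 : DifferentiableAt ℝ (fun y => g y • grd χ y) y :=
      (hg1.smul (grd_contDiff hχ)).differentiable one_ne_zero y
    have h4 : fderiv ℝ X y = fderiv ℝ (fun y => χ y • grd g y) y -
        fderiv ℝ (fun y => g y • grd χ y) y := fderiv_sub hd1 hd2
    rw [h4, ContinuousLinearMap.comp_sub, trc_sub, trc_smul_grd hχ1 hg, trc_smul_grd hg1 hχ,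
      fderiv_proj_symm]
    ring
  simp only [h3] at h1 h2
  exact ⟨h1, h2⟩

lemma lap_sq (x₀ : E N) (S : Submodule ℝ (E N)) (z : E N) :
    lap S (fun y : E N => ‖y - x₀‖ ^ 2) z = 2 * Module.finrank ℝ S := by
  have h1 := lap_quad x₀ 1 S z
  have h2 : fderiv ℝ (fun y : E N => 1 + 1 * ‖y - x₀‖ ^ 2) =
      fderiv ℝ (fun y : E N => ‖y - x₀‖ ^ 2) := by
    funext y
    rw [fderiv_const_add]
    simp
  unfold lap at h1 ⊢
  rw [h2] at h1
  rw [h1]
  ring

lemma grd_sq (x₀ z : E N) : grd (fun y : E N => ‖y - x₀‖ ^ 2) z = (2 : ℝ) • (z - x₀) := by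
  apply ext_inner_right ℝ
  intro v
  rw [inner_grd, (hasFDerivAt_sq x₀ z).fderiv]
  simp only [smul_apply, innerSL_apply_apply, smul_eq_mul]
  rw [real_inner_smul_left]

lemma sq_contDiff2 (x₀ : E N) : ContDiff ℝ 2 (fun y : E N => ‖y - x₀‖ ^ 2) :=
  (contDiff_id.sub contDiff_const).norm_sq ℝ

lemma norm_proj_le (S : Submodule ℝ (E N)) (v : E N) : ‖S.starProjection v‖ ≤ ‖v‖ :=
  S.norm_starProjection_apply_le v

/-- the cutoff -/
lemma Hf_lap {R : ℝ} (hR : 0 < R) (x₀ : E N) (S : Submodule ℝ (E N)) (z : E N) :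
    |lap S (fun y => -Hf R (‖y - x₀‖ ^ 2)) z| ≤ Module.finrank ℝ S + 4 := by
  have hR2 : 0 < R ^ 2 := by positivity
  have hF : ∀ t, HasDerivAt (fun s => -Hf R s) (-((1 / 2) * wt 0 (t / R ^ 2))) t := fun t =>
    (Hf_der hR t).neg
  have hF' : ∀ t, HasDerivAt (fun t => -((1 / 2) * wt 0 (t / R ^ 2)))
      (-((1 / 2) * (wt' 0 (t / R ^ 2) * (1 / R ^ 2)))) t := by
    intro t
    have h1 : HasDerivAt (fun s : ℝ => s / R ^ 2) (1 / R ^ 2) t := (hasDerivAt_id t).div_const _
    exact ((((wt_Wt 0).der (t / R ^ 2)).comp t h1).const_mul (1 / 2)).neg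
  have hc : ContDiff ℝ 2 (fun y : E N => -Hf R (‖y - x₀‖ ^ 2)) :=
    ((Hf_contDiff R).comp (sq_contDiff2 x₀)).neg
  rw [lap_comp (F := fun s => -Hf R s) hF hF' (sq_contDiff2 x₀) hc, lap_sq, grd_sq]
  set t := ‖z - x₀‖ ^ 2 / R ^ 2 with ht
  have ht0 : 0 ≤ t := by positivity
  have h1 : 0 ≤ wt 0 t ∧ wt 0 t ≤ 1 := by
    unfold wt
    rw [zero_add, pow_one]
    have h3 : max 0 (1 - t) ≤ 1 := max_le (by norm_num) (by linarith)
    have h4 : 0 ≤ max 0 (1 - t) := le_max_left _ _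
    constructor <;> nlinarith
  have h2 : ‖S.starProjection ((2 : ℝ) • (z - x₀))‖ ^ 2 ≤ 4 * ‖z - x₀‖ ^ 2 := by
    have h3 := norm_proj_le S ((2 : ℝ) • (z - x₀))
    rw [norm_smul] at h3
    calc ‖S.starProjection ((2 : ℝ) • (z - x₀))‖ ^ 2 ≤ (‖(2 : ℝ)‖ * ‖z - x₀‖) ^ 2 :=
          pow_le_pow_left₀ (norm_nonneg _) h3 2
      _ = 4 * ‖z - x₀‖ ^ 2 := by
        norm_num
        ring
  have h3 : wt' 0 t = -(2 * max 0 (1 - t)) := by
    unfold wt'
    rw [zero_add, pow_one, pow_zero]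
    norm_num
  have h4 : |-((1 / 2) * (wt' 0 t * (1 / R ^ 2))) * ‖S.starProjection ((2 : ℝ) • (z - x₀))‖ ^ 2| ≤
      4 := by
    rw [h3]
    have h5 : -((1 / 2) * (-(2 * max 0 (1 - t)) * (1 / R ^ 2))) *
        ‖S.starProjection ((2 : ℝ) • (z - x₀))‖ ^ 2 =
        max 0 (1 - t) * (‖S.starProjection ((2 : ℝ) • (z - x₀))‖ ^ 2 / R ^ 2) := by ring
    rw [h5, abs_of_nonneg (by positivity)]
    have h6 : ‖S.starProjection ((2 : ℝ) • (z - x₀))‖ ^ 2 / R ^ 2 ≤ 4 * t := by
      rw [ht, ← mul_div_assoc]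
      exact div_le_div_of_nonneg_right h2 hR2.le
    rcases le_total t 1 with h7 | h7
    · have h8 : max 0 (1 - t) ≤ 1 := max_le (by norm_num) (by linarith)
      have h9 : 0 ≤ max 0 (1 - t) := le_max_left _ _
      calc max 0 (1 - t) * (‖S.starProjection ((2 : ℝ) • (z - x₀))‖ ^ 2 / R ^ 2)
          ≤ 1 * (4 * t) := mul_le_mul h8 h6 (by positivity) (by norm_num)
        _ ≤ 4 := by linarith
    · rw [max_eq_left (by linarith), zero_mul]
      norm_num
  have h5 : |-((1 / 2) * wt 0 t) * (2 * (Module.finrank ℝ S : ℝ))| ≤ Module.finrank ℝ S := by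
    have h6 : -((1 / 2) * wt 0 t) * (2 * (Module.finrank ℝ S : ℝ)) =
        -(wt 0 t * Module.finrank ℝ S) := by ring
    rw [h6, abs_neg, abs_of_nonneg (mul_nonneg h1.1 (Nat.cast_nonneg _))]
    have h7 : (0 : ℝ) ≤ Module.finrank ℝ S := Nat.cast_nonneg _
    nlinarith [h1.2]
  exact (abs_add_le _ _).trans (add_le_add h5 h4)

/-- Caccioppoli type inequality -/
lemma tilt_bound {m : ℕ} {U : Set (E N)} {μ : Measure (E N)} {T : E N → Submodule ℝ (E N)}
    (hS : Stat m U μ fun x => (T x).starProjection)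
    (hT : ∀ᵐ x ∂(μ.restrict U), Module.finrank ℝ (T x) = m) {g : E N → ℝ} (hg : ContDiff ℝ 2 g)
    {x₀ : E N} {R : ℝ} (hR0 : 0 < R) (hR : closedBall x₀ R ⊆ U)
    (hg0 : ∀ z ∈ closedBall x₀ R, 0 ≤ g z) {d : E N → ℝ}
    (hd0 : ∀ z, 0 ≤ d z)
    (hsub : ∀ᵐ z ∂(μ.restrict (closedBall x₀ R)), d z ≤ lap (T z) g z) :
    ∫⁻ z in closedBall x₀ (R / 2), ENNReal.ofReal (d z) ∂μ ≤
      ENNReal.ofReal (16 * (m + 4) / R ^ 2 * ∫ z in closedBall x₀ R, g z ∂μ) := by
  have hR2 : 0 < R ^ 2 := by positivity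
  set χ : E N → ℝ := fun y => -Hf R (‖y - x₀‖ ^ 2) with hχ
  have hχc : ContDiff ℝ 2 χ := ((Hf_contDiff R).comp (sq_contDiff2 x₀)).neg
  have hχ0 : ∀ y, 0 ≤ χ y := fun y => by
    have := Hf_nonpos R (‖y - x₀‖ ^ 2)
    simp only [hχ]
    linarith
  have hzero : ∀ y, y ∉ closedBall x₀ R → χ y = 0 := by
    intro y hy
    have h1 : R < ‖y - x₀‖ := by
      rw [mem_closedBall, dist_eq_norm] at hy
      exact not_le.1 hy
    have h2 : 1 ≤ ‖y - x₀‖ ^ 2 / R ^ 2 := by
      rw [one_le_div hR2]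
      exact pow_le_pow_left₀ hR0.le h1.le 2
    simp only [hχ, Hf]
    rw [max_eq_left (by linarith)]
    simp
  have htsup : tsupport χ ⊆ closedBall x₀ R := by
    apply closure_minimal _ isClosed_closedBall
    intro y hy
    by_contra hc
    exact hy (hzero y hc)
  have hcs : HasCompactSupport χ := HasCompactSupport.intro (isCompact_closedBall x₀ R) hzero
  obtain ⟨hint, hstat⟩ := green hS hχc hcs (htsup.trans hR) hg
  have hfin : μ (closedBall x₀ R) < ⊤ := hS.fin _ hR (isCompact_closedBall x₀ R)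
  have hgi : IntegrableOn g (closedBall x₀ R) μ := integrableOn_cb hfin hg.continuous
  have hdim : ∀ᵐ x ∂(μ.restrict (closedBall x₀ R)), Module.finrank ℝ (T x) = m :=
    ae_restrict_of_ae_restrict_of_subset hR hT
  -- restrict the integral
  have h3 : ∫ y in closedBall x₀ R, (χ y * lap (T y) g y - g y * lap (T y) χ y) ∂μ = 0 := by
    rw [← hstat]
    apply setIntegral_eq_integral_of_forall_compl_eq_zero
    intro y hy
    rw [hzero y hy, lap_zero_of_notMem fun h => hy (htsup h)]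
    ring
  -- lower bound
  have hint' := hint.restrict (s := closedBall x₀ R)
  have hsumint : Integrable (fun y => (χ y * lap (T y) g y - g y * lap (T y) χ y) + (m + 4) * g y)
      (μ.restrict (closedBall x₀ R)) := hint'.add (hgi.const_mul _)
  have hkey : ∫⁻ y in closedBall x₀ R, ENNReal.ofReal (χ y * d y) ∂μ ≤
      ENNReal.ofReal ((m + 4) * ∫ z in closedBall x₀ R, g z ∂μ) := by
    have h4 : ∀ᵐ y ∂(μ.restrict (closedBall x₀ R)), χ y * d y ≤
        (χ y * lap (T y) g y - g y * lap (T y) χ y) + (m + 4) * g y := by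
      filter_upwards [hdim, hsub, ae_restrict_mem measurableSet_closedBall] with y h5 h6 h7
      have h8 := Hf_lap hR0 x₀ (T y) y
      rw [h5] at h8
      change |lap (T y) χ y| ≤ _ at h8
      rw [abs_le] at h8
      have h9 := mul_le_mul_of_nonneg_left h6 (hχ0 y)
      have h10 := mul_le_mul_of_nonneg_left h8.2 (hg0 y h7)
      linarith
    calc ∫⁻ y in closedBall x₀ R, ENNReal.ofReal (χ y * d y) ∂μ
        ≤ ∫⁻ y in closedBall x₀ R, ENNReal.ofReal
          ((χ y * lap (T y) g y - g y * lap (T y) χ y) + (m + 4) * g y) ∂μ :=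
          lintegral_mono_ae (h4.mono fun y hy => ENNReal.ofReal_le_ofReal hy)
      _ = ENNReal.ofReal (∫ y in closedBall x₀ R,
          ((χ y * lap (T y) g y - g y * lap (T y) χ y) + (m + 4) * g y) ∂μ) := by
          rw [ofReal_integral_eq_lintegral_ofReal hsumint]
          filter_upwards [h4] with y hy
          exact (mul_nonneg (hχ0 y) (hd0 y)).trans hy
      _ = ENNReal.ofReal ((m + 4) * ∫ z in closedBall x₀ R, g z ∂μ) := by
          rw [integral_add hint' (hgi.const_mul _), h3, zero_add, integral_const_mul]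
  have hlow : ENNReal.ofReal (R ^ 2 / 16) *
      ∫⁻ z in closedBall x₀ (R / 2), ENNReal.ofReal (d z) ∂μ ≤
      ∫⁻ y in closedBall x₀ R, ENNReal.ofReal (χ y * d y) ∂μ := by
    rw [← lintegral_const_mul' _ _ ENNReal.ofReal_ne_top]
    have hsubset : closedBall x₀ (R / 2) ⊆ closedBall x₀ R :=
      closedBall_subset_closedBall (by linarith)
    refine le_trans ?_ (lintegral_mono_set hsubset)
    apply setLIntegral_mono' measurableSet_closedBall
    intro y hy
    rw [← ENNReal.ofReal_mul (by positivity)]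
    apply ENNReal.ofReal_le_ofReal
    apply mul_le_mul_of_nonneg_right _ (hd0 y)
    rw [mem_closedBall, dist_eq_norm] at hy
    have h5 : ‖y - x₀‖ ^ 2 / R ^ 2 ≤ 1 / 4 := by
      rw [div_le_iff₀ hR2]
      have := pow_le_pow_left₀ (norm_nonneg (y - x₀)) hy 2
      nlinarith
    have h6 : 3 / 4 ≤ max 0 (1 - ‖y - x₀‖ ^ 2 / R ^ 2) := le_max_of_le_right (by linarith)
    have h7 : (3 / 4 : ℝ) ^ 3 ≤ (max 0 (1 - ‖y - x₀‖ ^ 2 / R ^ 2)) ^ 3 :=
      pow_le_pow_left₀ (by norm_num) h6 3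
    simp only [hχ, Hf]
    nlinarith
  have h5 := hlow.trans hkey
  have h6 : ENNReal.ofReal (R ^ 2 / 16) ≠ 0 := (ENNReal.ofReal_pos.2 (by positivity)).ne'
  have h7 : ENNReal.ofReal (16 * (m + 4) / R ^ 2 * ∫ z in closedBall x₀ R, g z ∂μ) =
      ENNReal.ofReal ((m + 4) * ∫ z in closedBall x₀ R, g z ∂μ) / ENNReal.ofReal (R ^ 2 / 16) := by
    rw [← ENNReal.ofReal_div_of_pos (by positivity)]
    congr 1
    field_simp
  rw [h7, ENNReal.le_div_iff_mul_le (Or.inl h6) (Or.inl ENNReal.ofReal_ne_top), mul_comm]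
  exact h5

/-- the norm of the difference of two projections -/
lemma norm_sub_le_defect (S T : Submodule ℝ (E N)) (h : Module.finrank ℝ S = Module.finrank ℝ T) :
    ‖S.starProjection - T.starProjection‖ ^ 2 ≤ 2 * defect S T := by
  set L : E N →L[ℝ] E N := S.starProjection - T.starProjection with hL
  have h1 : ∑ i, ‖L (bs N i)‖ ^ 2 = 2 * defect S T := by
    have h2 : ∀ i, ‖L (bs N i)‖ ^ 2 = ⟪bs N i, S.starProjection (bs N i)⟫ +
        ⟪bs N i, T.starProjection (bs N i)⟫ -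
        2 * ⟪bs N i, (T.starProjection ∘L S.starProjection) (bs N i)⟫ := by
      intro i
      have e : L (bs N i) = S.starProjection (bs N i) - T.starProjection (bs N i) := rfl
      have e2 : ⟪bs N i, T.starProjection (S.starProjection (bs N i))⟫ =
          ⟪S.starProjection (bs N i), T.starProjection (bs N i)⟫ := by
        rw [← proj_symm, real_inner_comm]
      rw [e, norm_sub_sq_real, proj_sq, proj_sq, ContinuousLinearMap.comp_apply, e2]
      ring
    rw [Finset.sum_congr rfl fun i _ => h2 i, Finset.sum_sub_distrib, Finset.sum_add_distrib,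
      ← Finset.mul_sum, ← trc_eq, ← trc_eq, ← trc_eq, defect_eq, trc_starProjection,
      trc_starProjection, h]
    ring
  have hd0 : 0 ≤ 2 * defect S T := by
    have := defect_nonneg S T
    linarith
  have h3 : ‖L‖ ≤ Real.sqrt (2 * defect S T) := by
    apply L.opNorm_le_bound (Real.sqrt_nonneg _)
    intro v
    have h4 : L v = ∑ i, ⟪bs N i, v⟫ • L (bs N i) := by
      conv_lhs => rw [← (bs N).sum_repr' v, map_sum]
      refine Finset.sum_congr rfl fun i _ => ?_
      rw [map_smul]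
    have h5 : ‖L v‖ ≤ ∑ i, ‖⟪bs N i, v⟫‖ * ‖L (bs N i)‖ := by
      rw [h4]
      refine (norm_sum_le _ _).trans (Finset.sum_le_sum fun i _ => ?_)
      rw [norm_smul]
    have h6 : (∑ i, ‖⟪bs N i, v⟫‖ * ‖L (bs N i)‖) ^ 2 ≤
        (∑ i, ‖⟪bs N i, v⟫‖ ^ 2) * ∑ i, ‖L (bs N i)‖ ^ 2 :=
      Finset.sum_mul_sq_le_sq_mul_sq _ _ _
    have h7 : ∑ i, ‖⟪bs N i, v⟫‖ ^ 2 = ‖v‖ ^ 2 := (bs N).sum_sq_norm_inner_right v
    rw [h7, h1] at h6
    apply h5.trans
    apply le_of_sq_le_sq _ (by positivity)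
    rw [mul_pow, Real.sq_sqrt hd0, mul_comm]
    exact h6
  calc ‖L‖ ^ 2 ≤ (Real.sqrt (2 * defect S T)) ^ 2 := pow_le_pow_left₀ (norm_nonneg _) h3 2
    _ = 2 * defect S T := Real.sq_sqrt hd0

end Pool.Agent.Helper68V
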