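import Pool.Agent.Helper68V.P4

/-!
A stationary varifold supported in a minimal submanifold has no holes.
-/

namespace Pool.Agent.Helper68V

open MeasureTheory Set Filter Topology Metric Pool.Agent.TH337.VF
open scoped ENNReal RealInnerProductSpace Manifold ContDiff

variable {N : ℕ}

lemma lap_ae_zero {m : ℕ} {U : Set (E N)} {μ : Measure (E N)} {T : E N → Submodule ℝ (E N)}
    (hS : Stat m U μ fun x => (T x).starProjection) {g : E N → ℝ} (hg : ContDiff ℝ 2 g)
    {x₀ : E N} {R : ℝ} (hR0 : 0 < R) (hR : closedBall x₀ R ⊆ U)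
    (hgz : ∀ᵐ z ∂(μ.restrict (closedBall x₀ R)), g z = 0)
    (hnn : ∀ᵐ z ∂(μ.restrict (closedBall x₀ R)), 0 ≤ lap (T z) g z) :
    ∀ᵐ z ∂(μ.restrict (closedBall x₀ R)), z ∈ ball x₀ R → lap (T z) g z = 0 := by
  have hR2 : 0 < R ^ 2 := by positivity
  set χ : E N → ℝ := fun y => -Hf R (‖y - x₀‖ ^ 2) with hχ
  have hχc : ContDiff ℝ 2 χ := ((Hf_contDiff R).comp (sq_contDiff2 x₀)).neg
  have hχ0 : ∀ y, 0 ≤ χ y := fun y => by
    have := Hf_nonpos R (‖y - x₀‖ ^ 2)
    simp only [hχ]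
    linarith
  have hzero : ∀ y, y ∉ closedBall x₀ R → χ y = 0 := by
    intro y hy
    have h1 : R < ‖y - x₀‖ := by
      rw [mem_closedBall, dist_eq_norm] at hy
      exact not_le.1 hy
    have h2 : 1 ≤ ‖y - x₀‖ ^ 2 / R ^ 2 := by
      rw [one_le_div hR2]
      exact pow_le_pow_left₀ hR0.le h1.le 2
    simp only [hχ, Hf]
    rw [max_eq_left (by linarith)]
    simp
  have htsup : tsupport χ ⊆ closedBall x₀ R := by
    apply closure_minimal _ isClosed_closedBall
    intro y hy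
    by_contra hc
    exact hy (hzero y hc)
  have hcs : HasCompactSupport χ := HasCompactSupport.intro (isCompact_closedBall x₀ R) hzero
  obtain ⟨hint, hstat⟩ := green hS hχc hcs (htsup.trans hR) hg
  have h3 : ∫ y in closedBall x₀ R, (χ y * lap (T y) g y - g y * lap (T y) χ y) ∂μ = 0 := by
    rw [← hstat]
    apply setIntegral_eq_integral_of_forall_compl_eq_zero
    intro y hy
    rw [hzero y hy, lap_zero_of_notMem fun h => hy (htsup h)]
    ring
  have hint' := hint.restrict (s := closedBall x₀ R)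
  have h4 : ∀ᵐ y ∂(μ.restrict (closedBall x₀ R)),
      0 ≤ χ y * lap (T y) g y - g y * lap (T y) χ y := by
    filter_upwards [hgz, hnn] with y h5 h6
    rw [h5, zero_mul, sub_zero]
    exact mul_nonneg (hχ0 y) h6
  have h5 := (integral_eq_zero_iff_of_nonneg_ae (μ := μ.restrict (closedBall x₀ R))
    (f := fun y => χ y * lap (T y) g y - g y * lap (T y) χ y) h4 hint').1 h3
  filter_upwards [hgz, h5] with y h6 h7 hy
  have h8 : χ y * lap (T y) g y = 0 := by
    have : χ y * lap (T y) g y - g y * lap (T y) χ y = 0 := h7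
    rw [h6, zero_mul, sub_zero] at this
    exact this
  rcases mul_eq_zero.1 h8 with h9 | h9
  · exfalso
    rw [mem_ball, dist_eq_norm] at hy
    have h10 : ‖y - x₀‖ ^ 2 / R ^ 2 < 1 := by
      rw [div_lt_one hR2]
      exact pow_lt_pow_left₀ hy (norm_nonneg _) two_ne_zero
    have h11 : 0 < max 0 (1 - ‖y - x₀‖ ^ 2 / R ^ 2) := lt_max_of_lt_right (by linarith)
    have h12 : 0 < χ y := by
      simp only [hχ, Hf]
      have : 0 < R ^ 2 / 6 * (max 0 (1 - ‖y - x₀‖ ^ 2 / R ^ 2)) ^ 3 := by positivity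
      linarith
    exact h12.ne' h9
  · exact h9

lemma eq_of_defect {S T : Submodule ℝ (E N)} (hd : Module.finrank ℝ S = Module.finrank ℝ T)
    (h : defect S T = 0) : S = T := by
  have h1 : ∀ i, S.starProjection (bs N i) = T.starProjection (S.starProjection (bs N i)) := by
    unfold defect at h
    intro i
    have h2 := (Finset.sum_eq_zero_iff_of_nonneg (fun _ _ => by positivity)).1 h i
      (Finset.mem_univ i)
    exact sub_eq_zero.1 (norm_eq_zero.1 (pow_eq_zero_iff two_ne_zero |>.1 h2))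
  have h2 : ∀ v, S.starProjection v = T.starProjection (S.starProjection v) := by
    intro v
    conv_lhs => rw [← (bs N).sum_repr' v, map_sum]
    conv_rhs => rw [← (bs N).sum_repr' v, map_sum, map_sum]
    refine Finset.sum_congr rfl fun i _ => ?_
    rw [map_smul, map_smul, ← h1 i]
  apply Submodule.eq_of_le_of_finrank_eq _ hd
  intro v hv
  have h3 : S.starProjection v = v := Submodule.starProjection_eq_self_iff.2 hv
  have h4 := h2 v
  rw [h3] at h4
  rw [h4]
  exact Submodule.starProjection_apply_mem T v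

section graph

variable {π : Submodule ℝ (E N)} {u : π → πᗮ} {x₀ : E N} {r : ℝ}

theorem no_hole {m : ℕ} (hm : 1 ≤ m) {U : Set (E N)} {μ : Measure (E N)}
    {T : E N → Submodule ℝ (E N)} (hS : Stat m U μ fun x => (T x).starProjection)
    (hT : ∀ᵐ x ∂(μ.restrict U), Module.finrank ℝ (T x) = m)
    (hπ : Module.finrank ℝ π = m) (hr : 0 < r)
    (hu : ContDiffOn ℝ 2 u (ball (π.orthogonalProjectionOnto x₀) r))
    (hM : ∀ x ∈ ball (π.orthogonalProjectionOnto x₀) r, MinAt m u x)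
    (hrU : closedBall x₀ r ⊆ U) (hsupp : ∀ z ∈ μ.support, z ∈ ball x₀ r → ht u z = 0)
    (hx₀ : x₀ ∈ μ.support) :
    ∃ ρ : ℝ, 0 < ρ ∧ ∀ z ∈ ball x₀ ρ, ht u z = 0 → z ∈ μ.support := by
  obtain ⟨g, r₁, hr₁, hr₁r, hg, -, hg2, -⟩ := exists_g hm hπ hr hu hM
  obtain ⟨K, hK0, hK⟩ := chord hr hu
  have hm' : (1 : ℝ) ≤ m := by exact_mod_cast hm
  have hcr : closedBall x₀ r₁ ⊆ ball x₀ r := closedBall_subset_ball hr₁r
  have hcU : closedBall x₀ r₁ ⊆ U := (hcr.trans ball_subset_closedBall).trans hrU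
  have hT' : ∀ᵐ x ∂(μ.restrict (closedBall x₀ r₁)), Module.finrank ℝ (T x) = m :=
    ae_restrict_of_ae_restrict_of_subset hcU hT
  -- the planes
  have hz0 : ∀ᵐ z ∂(μ.restrict (closedBall x₀ r₁)), z ∈ closedBall x₀ r₁ ∧ ht u z = 0 := by
    filter_upwards [ae_restrict_mem measurableSet_closedBall,
      ae_restrict_of_ae (Measure.support_mem_ae (μ := μ))] with z h1 h2
    exact ⟨h1, hsupp z h2 (hcr h1)⟩
  have hlap := lap_ae_zero hS hg hr₁ hcU
    (hz0.mono fun z hz => (hg2 z hz.1 hz.2).1)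
    (hz0.mono fun z hz => (defect_nonneg _ _).trans ((hg2 z hz.1 hz.2).2 (T z)))
  have hplane : ∀ᵐ z ∂μ, z ∈ ball x₀ r₁ → T z = tp u (π.orthogonalProjectionOnto z) := by
    have h1 : ∀ᵐ z ∂(μ.restrict (closedBall x₀ r₁)), z ∈ ball x₀ r₁ →
        T z = tp u (π.orthogonalProjectionOnto z) := by
      filter_upwards [hlap, hz0, hT'] with z h2 h3 h4 hz
      apply eq_of_defect
      · rw [h4, finrank_tp, hπ]
      · have h5 := (hg2 z h3.1 h3.2).2 (T z)
        rw [h2 hz] at h5
        exact le_antisymm h5 (defect_nonneg _ _)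
    have h2 := ae_imp_of_ae_restrict h1
    filter_upwards [h2] with z hz hzb
    exact hz (ball_subset_closedBall hzb) hzb
  have hdim : ∀ᵐ z ∂μ, z ∈ closedBall x₀ r₁ → Module.finrank ℝ (T z) = m :=
    ae_imp_of_ae_restrict hT'
  -- choose ρ
  set ρ : ℝ := min (min (r₁ / 4) (r / 16)) (1 / (4 * (K + 1))) with hρ
  have hρ0 : 0 < ρ := lt_min (lt_min (by positivity) (by positivity)) (by positivity)
  have hρ1 : ρ ≤ r₁ / 4 := (min_le_left _ _).trans (min_le_left _ _)
  have hρ2 : ρ ≤ r / 16 := (min_le_left _ _).trans (min_le_right _ _)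
  have hρ3 : ρ ≤ 1 / (4 * (K + 1)) := min_le_right _ _
  have hKρ : K * ρ ≤ 1 / 4 := by
    rw [le_div_iff₀ (by positivity)] at hρ3
    nlinarith
  refine ⟨ρ, hρ0, ?_⟩
  intro b hb hb0
  by_contra hbs
  have hcl : IsClosed μ.support := Measure.isClosed_support
  obtain ⟨y₀, hy₀, hdist⟩ := hcl.exists_infDist_eq_dist ⟨x₀, hx₀⟩ b
  set s : ℝ := dist b y₀ with hs
  have hs0 : 0 < s := by
    rw [hs, dist_pos]
    rintro rfl
    exact hbs hy₀
  have hsρ : s < ρ := by
    rw [← hdist]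
    exact (infDist_le_dist_of_mem hx₀).trans_lt (mem_ball.1 hb)
  have hfar : ∀ z ∈ μ.support, s ≤ ‖z - b‖ := by
    intro z hz
    rw [← hdist, ← dist_eq_norm, dist_comm]
    exact infDist_le_dist_of_mem hz
  have hby : ‖y₀ - b‖ = s := by
    rw [← dist_eq_norm, dist_comm]
  have hyx : dist y₀ x₀ < 2 * ρ := by
    have h1 := dist_triangle y₀ b x₀
    rw [dist_comm y₀ b] at h1
    rw [mem_ball] at hb
    linarith
  -- constants
  set A : ℝ := 2 * m with hA
  have hA0 : 0 < A := by positivity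
  set α : ℝ := A / s ^ 2 with hα
  have hα0 : 0 < α := by positivity
  have hαs : α * s ^ 2 = A := by
    rw [hα]
    field_simp
  set κ : ℝ := Real.exp (-(2 * A)) * (α * m) with hκ
  have hκ0 : 0 < κ := by positivity
  set ε : ℝ := κ / (4 * m) with hε
  have hε0 : 0 < ε := by positivity
  set τ : ℝ := ε * (s / 8) ^ 2 with hτ
  have hτ0 : 0 < τ := by positivity
  set c₀ : ℝ := 1 + Real.exp (-(α * s ^ 2)) - τ with hc₀
  set F : ℝ → ℝ := fun t => Real.exp (-(α * t)) - c₀ with hF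
  set F' : ℝ → ℝ := fun t => -α * Real.exp (-(α * t)) with hF'
  set F'' : ℝ → ℝ := fun t => α ^ 2 * Real.exp (-(α * t)) with hF''
  have hexp : ∀ t, HasDerivAt (fun t => Real.exp (-(α * t))) (-α * Real.exp (-(α * t))) t := by
    intro t
    have h1 : HasDerivAt (fun t : ℝ => -(α * t)) (-(α * 1)) t :=
      ((hasDerivAt_id t).const_mul α).neg
    have h2 := h1.exp
    have e : -α * Real.exp (-(α * t)) = Real.exp (-(α * t)) * -(α * 1) := by ring
    rw [e]
    exact h2
  have hFd : ∀ t, HasDerivAt F (F' t) t := fun t => (hexp t).sub_const c₀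
  have hFd' : ∀ t, HasDerivAt F' (F'' t) t := by
    intro t
    have h1 := (hexp t).const_mul (-α)
    have e : F'' t = -α * (-α * Real.exp (-(α * t))) := by
      simp only [hF'']
      ring
    rw [e]
    exact h1
  have hFc : ContDiff ℝ 2 F :=
    ((contDiff_const.mul contDiff_id).neg.exp).sub contDiff_const
  have hFbc : ContDiff ℝ 2 (fun z : E N => F (‖z - b‖ ^ 2)) := hFc.comp (sq_contDiff2 b)
  set k : E N → ℝ := fun z => F (‖z - b‖ ^ 2) + (1 + (-ε) * ‖z - y₀‖ ^ 2) with hk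
  have hkc : ContDiff ℝ 2 k := hFbc.add (quad_contDiff y₀ (-ε))
  have hkle : ∀ z ∈ μ.support, k z ≤ τ - ε * ‖z - y₀‖ ^ 2 := by
    intro z hz
    have h1 : Real.exp (-(α * ‖z - b‖ ^ 2)) ≤ Real.exp (-(α * s ^ 2)) := by
      apply Real.exp_le_exp.2
      have h2 : s ^ 2 ≤ ‖z - b‖ ^ 2 := pow_le_pow_left₀ hs0.le (hfar z hz) 2
      have h3 := mul_le_mul_of_nonneg_left h2 hα0.le
      linarith
    simp only [hk, hF, hc₀]
    linarith
  set O : Set (E N) := ball y₀ (s / 4) with hO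
  have hOx : O ⊆ ball x₀ (3 * ρ) := by
    intro z hz
    rw [hO, mem_ball] at hz
    rw [mem_ball]
    have := dist_triangle z y₀ x₀
    linarith
  have hOU : O ⊆ U := (hOx.trans (ball_subset_closedBall.trans
    (closedBall_subset_closedBall (by linarith)))).trans hcU
  have hAcl : closure ((μ.support ∩ O) ∩ {z | 0 < k z}) ⊆ closedBall y₀ (s / 8) := by
    apply closure_minimal _ isClosed_closedBall
    intro z hz
    have h1 := hkle z hz.1.1
    have h2 : 0 < k z := hz.2
    have h3 : ε * ‖z - y₀‖ ^ 2 < ε * (s / 8) ^ 2 := by linarith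
    have h4 : ‖z - y₀‖ ^ 2 < (s / 8) ^ 2 := lt_of_mul_lt_mul_left h3 hε0.le
    rw [mem_closedBall, dist_eq_norm]
    exact (lt_of_pow_lt_pow_left₀ 2 (by positivity) h4).le
  have hempty := no_piece hS hkc (O := O) isOpen_ball isBounded_ball hOU
    (A := (μ.support ∩ O) ∩ {z | 0 < k z}) (G := (μ.support ∩ O) ∩ {z | 0 < k z}) rfl subset_rfl
    ?_ (by rw [Set.sdiff_self, inter_empty]) (by rw [Set.sdiff_self, closure_empty, inter_empty])
    (hAcl.trans (closedBall_subset_ball (by linarith)))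
  · have hy : y₀ ∈ (μ.support ∩ O) ∩ {z | 0 < k z} := by
      refine ⟨⟨hy₀, mem_ball_self (by positivity)⟩, ?_⟩
      show 0 < k y₀
      have : k y₀ = τ := by
        simp only [hk, hF, hc₀]
        rw [hby, sub_self, norm_zero]
        ring
      rw [this]
      exact hτ0
    rw [hempty] at hy
    exact hy
  · filter_upwards [hplane, hdim] with z h1 h2 hz
    have hzO : z ∈ O := hz.1.2
    have hz3 : dist z x₀ < 3 * ρ := mem_ball.1 (hOx hzO)
    have hzr₁ : z ∈ ball x₀ r₁ := by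
      rw [mem_ball]
      linarith
    have hz4 : z ∈ ball x₀ (r / 4) := by
      rw [mem_ball]
      linarith
    have hb4 : b ∈ ball x₀ (r / 4) := by
      rw [mem_ball] at hb ⊢
      linarith
    have hzM : ht u z = 0 := hsupp z hz.1.1 (ball_subset_ball (by linarith) hz4)
    have hch := hK z hz4 b hb4 hzM hb0
    rw [← h1 hzr₁] at hch
    have hfin := h2 (ball_subset_closedBall hzr₁)
    have hzy : ‖z - y₀‖ < s / 4 := by
      rw [← dist_eq_norm]
      exact mem_ball.1 hzO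
    have hzb1 : ‖z - b‖ ≤ 5 / 4 * s := by
      have h3 : z - b = (z - y₀) + (y₀ - b) := by abel
      have h4 := norm_add_le (z - y₀) (y₀ - b)
      rw [← h3, hby] at h4
      linarith
    have hzb2 : s ≤ ‖z - b‖ := hfar z hz.1.1
    set n : ℝ := ‖z - b‖ with hn
    set w : E N := z - b with hw
    -- the tangential part
    have h5 : K * n ^ 2 ≤ n / 2 := by
      have h6 : K * n ≤ 1 / 2 := by
        have h7 : K * n ≤ K * (5 / 4 * s) := mul_le_mul_of_nonneg_left hzb1 hK0
        have h8 : K * s ≤ K * ρ := mul_le_mul_of_nonneg_left hsρ.le hK0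
        nlinarith
      have hn0 : 0 ≤ n := norm_nonneg _
      nlinarith
    have h6 : ‖w - (T z).starProjection w‖ ^ 2 ≤ n ^ 2 / 4 := by
      calc ‖w - (T z).starProjection w‖ ^ 2 ≤ (n / 2) ^ 2 :=
            pow_le_pow_left₀ (norm_nonneg _) (hch.trans h5) 2
        _ = n ^ 2 / 4 := by ring
    have h7 : 3 / 4 * s ^ 2 ≤ ‖(T z).starProjection w‖ ^ 2 := by
      rw [proj_res_sq, ← proj_sq] at h6
      have h8 : s ^ 2 ≤ n ^ 2 := pow_le_pow_left₀ hs0.le hzb2 2
      have h9 : ‖w‖ = n := rfl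
      rw [h9] at h6
      nlinarith
    have hlapk : lap (T z) k z = F' (n ^ 2) * (2 * m) + F'' (n ^ 2) *
        ‖(T z).starProjection ((2 : ℝ) • w)‖ ^ 2 + 2 * (-ε) * m := by
      rw [hk, lap_add hFbc (quad_contDiff y₀ (-ε)), lap_quad,
        lap_comp hFd hFd' (sq_contDiff2 b) hFbc, lap_sq, grd_sq, hfin]
    have h10 : ‖(T z).starProjection ((2 : ℝ) • w)‖ ^ 2 = 4 * ‖(T z).starProjection w‖ ^ 2 := by
      rw [map_smul, norm_smul, mul_pow]
      norm_num
    rw [hlapk, h10]
    have h11 : F' (n ^ 2) * (2 * m) + F'' (n ^ 2) * (4 * ‖(T z).starProjection w‖ ^ 2) =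
        Real.exp (-(α * n ^ 2)) * (α * (4 * α * ‖(T z).starProjection w‖ ^ 2 - 2 * m)) := by
      simp only [hF', hF'']
      ring
    rw [h11]
    have h12 : (m : ℝ) ≤ 4 * α * ‖(T z).starProjection w‖ ^ 2 - 2 * m := by
      have h13 : 4 * α * (3 / 4 * s ^ 2) ≤ 4 * α * ‖(T z).starProjection w‖ ^ 2 :=
        mul_le_mul_of_nonneg_left h7 (by positivity)
      have h14 : 4 * α * (3 / 4 * s ^ 2) = 3 * A := by
        rw [← hαs]
        ring
      rw [h14, hA] at h13
      linarith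
    have h13 : Real.exp (-(2 * A)) ≤ Real.exp (-(α * n ^ 2)) := by
      apply Real.exp_le_exp.2
      have h14 : n ^ 2 ≤ 25 / 16 * s ^ 2 := by
        calc n ^ 2 ≤ (5 / 4 * s) ^ 2 := pow_le_pow_left₀ (norm_nonneg _) hzb1 2
          _ = 25 / 16 * s ^ 2 := by ring
      have h15 : α * n ^ 2 ≤ α * (25 / 16 * s ^ 2) := mul_le_mul_of_nonneg_left h14 hα0.le
      have h16 : α * (25 / 16 * s ^ 2) = 25 / 16 * A := by
        rw [← hαs]
        ring
      linarith
    have h14 : κ ≤ Real.exp (-(α * n ^ 2)) *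
        (α * (4 * α * ‖(T z).starProjection w‖ ^ 2 - 2 * m)) := by
      rw [hκ]
      apply mul_le_mul h13 (mul_le_mul_of_nonneg_left h12 hα0.le) (by positivity)
        (Real.exp_pos _).le
    have h15 : 2 * (-ε) * m = -(κ / 2) := by
      rw [hε]
      field_simp
      ring
    rw [h15]
    linarith

end graph

end Pool.Agent.Helper68V
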