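import Pool.Agent.Helper68V.P5
import Pool.Agent.TH337.VF.Local

/-!
Densities and components.
-/

namespace Pool.Agent.Helper68V

open MeasureTheory Set Filter Topology Metric Pool.Agent.TH337.VF
open scoped ENNReal RealInnerProductSpace

variable {N : ℕ}

/-- lower mass bound at the points of the support -/
lemma lower_supp {m : ℕ} {U : Set (E N)} {μ : Measure (E N)} {P : E N → E N →L[ℝ] E N}
    (hS : Stat m U μ P) {θ : ℝ≥0∞} (hθ : θ ≠ ⊤)
    (h1 : ∀ᵐ x ∂(μ.restrict U), θ ≤ density m μ x) {a : E N} (ha : a ∈ μ.support) {R : ℝ}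
    (hR0 : 0 < R) (hR : ball a R ⊆ U) :
    θ * (volume (ball (0 : EuclideanSpace ℝ (Fin m)) 1) * ENNReal.ofReal R ^ m) ≤
      μ (ball a R) := by
  apply lower hS hθ _ hR hR0
  intro δ hδ
  have hδ' : 0 < min δ R := lt_min hδ hR0
  have h2 : μ (ball a (min δ R)) ≠ 0 :=
    ((Measure.mem_support_iff_forall a).1 ha _ (ball_mem_nhds a hδ')).ne'
  have h3 : ∀ᵐ x ∂(μ.restrict (ball a (min δ R))), θ ≤ density m μ x :=
    ae_restrict_of_ae_restrict_of_subset ((ball_subset_ball (min_le_right _ _)).trans hR) h1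
  obtain ⟨x, hx1, hx2⟩ := Measure.exists_mem_of_measure_ne_zero_of_ae h2 h3
  exact ⟨x, ball_subset_ball (min_le_left _ _) hx1, hx2⟩

/-- the real constant in the lower mass bound -/
noncomputable def cst (m : ℕ) (θ : ℝ≥0∞) : ℝ :=
  (θ * volume (ball (0 : EuclideanSpace ℝ (Fin m)) 1)).toReal

lemma cst_pos {m : ℕ} {θ : ℝ≥0∞} (h0 : θ ≠ 0) (h1 : θ ≠ ⊤) : 0 < cst m θ :=
  ENNReal.toReal_pos (mul_ne_zero h0 (omega_pos m)) (ENNReal.mul_ne_top h1 (omega_lt m))

lemma lower_real {m : ℕ} {U : Set (E N)} {μ : Measure (E N)} {P : E N → E N →L[ℝ] E N}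
    (hS : Stat m U μ P) {θ : ℝ≥0∞} (hθ : θ ≠ ⊤)
    (h1 : ∀ᵐ x ∂(μ.restrict U), θ ≤ density m μ x) {a : E N} (ha : a ∈ μ.support) {R : ℝ}
    (hR0 : 0 < R) (hR : closedBall a R ⊆ U) :
    cst m θ * R ^ m ≤ μ.real (ball a R) := by
  have h2 := lower_supp hS hθ h1 ha hR0 (ball_subset_closedBall.trans hR)
  have h3 : μ (ball a R) ≠ ⊤ := ((measure_mono ball_subset_closedBall).trans_lt
    (hS.fin _ hR (isCompact_closedBall a R))).ne
  have h4 := ENNReal.toReal_mono h3 h2
  rw [← mul_assoc, ENNReal.toReal_mul, ENNReal.toReal_pow, ENNReal.toReal_ofReal hR0.le] at h4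
  exact h4

/-- from the upper density to a bound for all small radii -/
lemma upperDens_bound {m : ℕ} {μ : Measure (E N)} {S : Set (E N)} {x₀ : E N} {θ : ℝ≥0∞}
    (hθ : θ ≠ ⊤) {A : ℝ} (hA : 0 < A)
    (h : upperDens m μ S x₀ < θ * ENNReal.ofReal A) :
    ∀ᶠ r in 𝓝[>] (0:ℝ), μ.real (closedBall x₀ r ∩ S) / r ^ m < cst m θ * A := by
  set om := volume (ball (0 : EuclideanSpace ℝ (Fin m)) 1) with hom
  have hom0 : om ≠ 0 := omega_pos m
  have hom1 : om ≠ ⊤ := omega_lt m
  have hθA : θ * ENNReal.ofReal A ≠ ⊤ := ENNReal.mul_ne_top hθ ENNReal.ofReal_ne_top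
  obtain ⟨B, hB1, hB2⟩ := exists_between h
  have hBt : B ≠ ⊤ := (hB2.trans_le le_top).ne
  -- choose the enlargement factor
  have h1 : Tendsto (fun l : ℝ => B * ENNReal.ofReal l ^ m) (𝓝[>] 1)
      (𝓝 (B * ENNReal.ofReal 1 ^ m)) := by
    apply ENNReal.Tendsto.const_mul _ (Or.inr hBt)
    apply ENNReal.Tendsto.pow
    apply ENNReal.tendsto_ofReal
    exact tendsto_nhdsWithin_of_tendsto_nhds tendsto_id
  rw [ENNReal.ofReal_one, one_pow, mul_one] at h1
  obtain ⟨l, hl1, hl2⟩ := ((h1.eventually (gt_mem_nhds hB2)).and self_mem_nhdsWithin).exists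
  have hl : 1 < l := hl2
  have h2 : ∀ᶠ r in 𝓝[>] (0:ℝ), μ (ball x₀ r ∩ S) / (om * ENNReal.ofReal r ^ m) < B :=
    eventually_lt_of_limsup_lt hB1
  have h3 : Tendsto (fun r : ℝ => l * r) (𝓝[>] 0) (𝓝[>] 0) := by
    apply tendsto_nhdsWithin_iff.2
    constructor
    · have : Tendsto (fun r : ℝ => l * r) (𝓝 0) (𝓝 (l * 0)) := tendsto_id.const_mul l
      rw [mul_zero] at this
      exact tendsto_nhdsWithin_of_tendsto_nhds this
    · filter_upwards [self_mem_nhdsWithin] with r hr
      have : (0:ℝ) < r := hr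
      exact mul_pos (by linarith) this
  filter_upwards [h3.eventually h2, self_mem_nhdsWithin] with r h4 hr
  have hr0 : (0:ℝ) < r := hr
  have hlr : 0 < l * r := by positivity
  have hne : om * ENNReal.ofReal (l * r) ^ m ≠ 0 :=
    mul_ne_zero hom0 (pow_ne_zero _ (ENNReal.ofReal_pos.2 hlr).ne')
  have hnt : om * ENNReal.ofReal (l * r) ^ m ≠ ⊤ :=
    ENNReal.mul_ne_top hom1 (ENNReal.pow_ne_top ENNReal.ofReal_ne_top)
  rw [ENNReal.div_lt_iff (Or.inl hne) (Or.inl hnt)] at h4
  have h5 : μ (closedBall x₀ r ∩ S) ≤ μ (ball x₀ (l * r) ∩ S) := by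
    apply measure_mono
    apply inter_subset_inter_left
    apply closedBall_subset_ball
    nlinarith
  have h6 : B * (om * ENNReal.ofReal (l * r) ^ m) =
      (B * ENNReal.ofReal l ^ m) * (om * ENNReal.ofReal r ^ m) := by
    rw [ENNReal.ofReal_mul (by linarith), mul_pow]
    ring
  have h7 : μ (closedBall x₀ r ∩ S) < (θ * ENNReal.ofReal A) * (om * ENNReal.ofReal r ^ m) := by
    refine (h5.trans_lt h4).trans_le ?_
    rw [h6]
    exact mul_le_mul_left hl1.le _
  have h8 : (θ * ENNReal.ofReal A) * (om * ENNReal.ofReal r ^ m) ≠ ⊤ :=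
    ENNReal.mul_ne_top hθA (ENNReal.mul_ne_top hom1 (ENNReal.pow_ne_top ENNReal.ofReal_ne_top))
  have h9 := (ENNReal.toReal_lt_toReal (h7.trans_le le_top).ne h8).2 h7
  rw [div_lt_iff₀ (by positivity)]
  refine h9.trans_eq ?_
  unfold cst
  rw [ENNReal.toReal_mul, ENNReal.toReal_mul, ENNReal.toReal_mul, ENNReal.toReal_mul,
    ENNReal.toReal_pow, ENNReal.toReal_ofReal hr0.le, ENNReal.toReal_ofReal hA.le]
  ring

/-- almost every point of a set is a point of density zero of the complement -/
lemma ae_upperDens_zero {m : ℕ} {U : Set (E N)} {μ : Measure (E N)} {P : E N → E N →L[ℝ] E N}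
    (hS : Stat m U μ P) (hU : IsOpen U) {M : Set (E N)} (hM : MeasurableSet M) :
    ∀ᵐ x ∂(μ.restrict U), x ∈ M → upperDens m μ Mᶜ x = 0 := by
  set om := volume (ball (0 : EuclideanSpace ℝ (Fin m)) 1) with hom
  have hom0 : om ≠ 0 := omega_pos m
  have hom1 : om ≠ ⊤ := omega_lt m
  rw [ae_iff, Measure.restrict_apply' hU.measurableSet]
  apply measure_null_of_locally_null
  rintro z ⟨-, hzU⟩
  obtain ⟨R₀, hR₀, hRU⟩ := Metric.isOpen_iff.1 hU z hzU
  set R : ℝ := R₀ / 4 with hR
  have hR0 : 0 < R := by positivity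
  have hcU : closedBall z (3 * R) ⊆ U := (closedBall_subset_ball (by linarith)).trans hRU
  set μ' : Measure (E N) := μ.restrict (closedBall z (3 * R)) with hμ'
  have hfin : IsFiniteMeasure μ' := ⟨by
    rw [hμ', Measure.restrict_apply_univ]
    exact hS.fin _ hcU (isCompact_closedBall _ _)⟩
  have hdt := Besicovitch.ae_tendsto_measure_inter_div_of_measurableSet μ' hM.compl
  refine ⟨ball z R ∩ ({a | ¬(a ∈ M → upperDens m μ Mᶜ a = 0)} ∩ U), ?_, ?_⟩
  · exact inter_mem (mem_nhdsWithin_of_mem_nhds (ball_mem_nhds z hR0)) self_mem_nhdsWithin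
  · have hbR : ball z R ⊆ closedBall z (3 * R) :=
      ball_subset_closedBall.trans (closedBall_subset_closedBall (by linarith))
    have h1 : ∀ᵐ x ∂μ', x ∈ ball z R → x ∈ M → upperDens m μ Mᶜ x = 0 := by
      filter_upwards [hdt] with x hx hxz hxM
      rw [indicator_of_notMem (by simpa using hxM)] at hx
      have hxR : closedBall x R ⊆ closedBall z (3 * R) := by
        apply closedBall_subset_closedBall'
        rw [mem_ball] at hxz
        linarith
      have hxRU : closedBall x R ⊆ U := hxR.trans hcU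
      set C : ℝ≥0∞ := ENNReal.ofReal ((2 / R) ^ m) * μ (ball x R) / om with hC
      have hCt : C ≠ ⊤ := by
        apply ENNReal.div_ne_top _ hom0
        apply ENNReal.mul_ne_top ENNReal.ofReal_ne_top
        exact ((measure_mono ball_subset_closedBall).trans_lt
          (hS.fin _ hxRU (isCompact_closedBall x R))).ne
      have h2 : Tendsto (fun r => (μ' (Mᶜ ∩ closedBall x r) / μ' (closedBall x r)) * C) (𝓝[>] 0)
          (𝓝 0) := by
        have h3 := ENNReal.Tendsto.mul_const hx (Or.inr hCt) (b := C)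
        rwa [zero_mul] at h3
      have h3 : upperDens m μ Mᶜ x ≤
          limsup (fun r => (μ' (Mᶜ ∩ closedBall x r) / μ' (closedBall x r)) * C) (𝓝[>] 0) := by
        unfold upperDens
        apply limsup_le_limsup
        · filter_upwards [Ioc_mem_nhdsGT (show (0:ℝ) < R / 2 by positivity)] with r hr
          have hr0 : 0 < r := hr.1
          have hrR : r ≤ R / 2 := hr.2
          have hsub : closedBall x r ⊆ closedBall z (3 * R) :=
            (closedBall_subset_closedBall (by linarith)).trans hxR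
          have e1 : μ' (Mᶜ ∩ closedBall x r) = μ (Mᶜ ∩ closedBall x r) := by
            rw [hμ', Measure.restrict_apply' measurableSet_closedBall,
              inter_eq_left.2 (inter_subset_right.trans hsub)]
          have e2 : μ' (closedBall x r) = μ (closedBall x r) := by
            rw [hμ', Measure.restrict_apply' measurableSet_closedBall, inter_eq_left.2 hsub]
          rw [e1, e2]
          have h4 : μ (ball x r ∩ Mᶜ) ≤ μ (Mᶜ ∩ closedBall x r) := by
            apply measure_mono
            intro y hy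
            exact ⟨hy.2, ball_subset_closedBall hy.1⟩
          have h5 : μ (closedBall x r) ≤
              ENNReal.ofReal ((2 / R) ^ m) * μ (ball x R) * ENNReal.ofReal r ^ m := by
            have h6 : μ (closedBall x r) ≤ μ (ball x (2 * r)) :=
              measure_mono (closedBall_subset_ball (by linarith))
            have h7 := mono' hS hxRU (r := 2 * r) (by linarith) (by linarith)
            refine h6.trans (h7.trans (le_of_eq ?_))
            have e3 : (2 * r / R) ^ m = (2 / R) ^ m * r ^ m := by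
              rw [← mul_pow]
              congr 1
              ring
            rw [e3, ENNReal.ofReal_mul (by positivity), ENNReal.ofReal_pow hr0.le]
            ring
          have hr' : ENNReal.ofReal r ^ m ≠ 0 := pow_ne_zero _ (ENNReal.ofReal_pos.2 hr0).ne'
          have hr'' : ENNReal.ofReal r ^ m ≠ ⊤ := ENNReal.pow_ne_top ENNReal.ofReal_ne_top
          have homr : om * ENNReal.ofReal r ^ m ≠ 0 := mul_ne_zero hom0 hr'
          have homr' : om * ENNReal.ofReal r ^ m ≠ ⊤ := ENNReal.mul_ne_top hom1 hr''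
          have hfc : μ (closedBall x r) ≠ ⊤ :=
            (hS.fin _ (hsub.trans hcU) (isCompact_closedBall x r)).ne
          rw [ENNReal.div_le_iff homr homr']
          refine h4.trans ?_
          rcases eq_or_ne (μ (closedBall x r)) 0 with h0 | h0
          · rw [measure_mono_null inter_subset_right h0]
            exact zero_le
          · calc μ (Mᶜ ∩ closedBall x r)
                = μ (Mᶜ ∩ closedBall x r) / μ (closedBall x r) * μ (closedBall x r) := by
                  rw [ENNReal.div_mul_cancel h0 hfc]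
              _ ≤ μ (Mᶜ ∩ closedBall x r) / μ (closedBall x r) *
                  (ENNReal.ofReal ((2 / R) ^ m) * μ (ball x R) * ENNReal.ofReal r ^ m) :=
                  mul_le_mul_right h5 _
              _ = μ (Mᶜ ∩ closedBall x r) / μ (closedBall x r) * C *
                  (om * ENNReal.ofReal r ^ m) := by
                  have h8 : C * om = ENNReal.ofReal ((2 / R) ^ m) * μ (ball x R) := by
                    rw [hC, ENNReal.div_mul_cancel hom0 hom1]
                  rw [← h8]
                  ring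
        · isBoundedDefault
        · isBoundedDefault
      rw [h2.limsup_eq] at h3
      exact le_antisymm h3 zero_le
    have h2 : μ' {x | ¬(x ∈ ball z R → x ∈ M → upperDens m μ Mᶜ x = 0)} = 0 := ae_iff.1 h1
    rw [hμ', Measure.restrict_apply' measurableSet_closedBall] at h2
    refine measure_mono_null ?_ h2
    rintro x ⟨hx1, hx2, -⟩
    refine ⟨?_, hbR hx1⟩
    intro h
    exact hx2 (h hx1)

/-- if no relatively clopen part of `K` avoids the sphere then all components reach it -/
lemma component_reaches {K : Set (E N)} (hK : IsCompact K) {x₀ : E N} {r : ℝ}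
    (h : ∀ Z : Set (E N), Z ⊆ K → Z.Nonempty → IsClosed Z → IsClosed (K \ Z) →
      ∃ y ∈ Z, dist y x₀ = r) {z : E N} (hz : z ∈ K) :
    ∃ y ∈ connectedComponentIn K z, dist y x₀ = r := by
  by_contra hcon
  push Not at hcon
  have hKc : CompactSpace K := isCompact_iff_compactSpace.1 hK
  set S : Set K := {y | dist (y : E N) x₀ = r} with hS
  have hSc : IsClosed S := isClosed_eq (continuous_subtype_val.dist continuous_const)
    continuous_const
  have hSK : IsCompact S := hSc.isCompact
  have hdisj : S ∩ ⋂ s : { s : Set K // IsClopen s ∧ (⟨z, hz⟩ : K) ∈ s }, (s : Set K) = ∅ := by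
    rw [← connectedComponent_eq_iInter_isClopen, eq_empty_iff_forall_notMem]
    rintro y ⟨hy1, hy2⟩
    apply hcon (y : E N) _ hy1
    rw [connectedComponentIn_eq_image hz]
    exact mem_image_of_mem _ hy2
  have hne : Nonempty { s : Set K // IsClopen s ∧ (⟨z, hz⟩ : K) ∈ s } :=
    ⟨⟨univ, isClopen_univ, mem_univ _⟩⟩
  obtain ⟨⟨Z, hZ1, hZ2⟩, hZ3⟩ := hSK.elim_directed_family_closed
    (fun s : { s : Set K // IsClopen s ∧ (⟨z, hz⟩ : K) ∈ s } => (s : Set K))
    (fun s => s.2.1.isClosed) hdisj (by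
      intro s t
      exact ⟨⟨s.1 ∩ t.1, s.2.1.inter t.2.1, s.2.2, t.2.2⟩, inter_subset_left,
        inter_subset_right⟩)
  have hKcl : IsClosed K := hK.isClosed
  obtain ⟨y, hy1, hy2⟩ := h (Subtype.val '' Z) (by rintro _ ⟨y, -, rfl⟩; exact y.2)
    ⟨z, ⟨z, hz⟩, hZ2, rfl⟩ (hKcl.isClosedEmbedding_subtypeVal.isClosedMap _ hZ1.isClosed) (by
      have e : K \ Subtype.val '' Z = Subtype.val '' Zᶜ := by
        ext x
        constructor
        · rintro ⟨hx1, hx2⟩
          exact ⟨⟨x, hx1⟩, fun h => hx2 ⟨⟨x, hx1⟩, h, rfl⟩, rfl⟩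
        · rintro ⟨y, hy, rfl⟩
          refine ⟨y.2, ?_⟩
          rintro ⟨w, hw, hwy⟩
          rw [Subtype.val_injective hwy] at hw
          exact hy hw
      rw [e]
      exact hKcl.isClosedEmbedding_subtypeVal.isClosedMap _ hZ1.compl.isClosed)
  obtain ⟨w, hw, rfl⟩ := hy1
  have : w ∈ S ∩ Z := ⟨hy2, hw⟩
  rw [hZ3] at this
  exact this

end Pool.Agent.Helper68V
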