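import Pool.Agent.Helper68V.P6

/-!
Contact of a stationary varifold with a minimal graph: internal versions of the results.
-/

namespace Pool.Agent.Helper68V

open MeasureTheory Set Filter Topology Metric Pool.Agent.TH337.VF
open scoped ENNReal RealInnerProductSpace

/-- internal version of a minimal graph -/
structure GraphAt {N : ℕ} (m : ℕ) (M : Set (EuclideanSpace ℝ (Fin N)))
    (x₀ : EuclideanSpace ℝ (Fin N)) (π : Submodule ℝ (EuclideanSpace ℝ (Fin N))) (u : π → πᗮ)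
    (r : ℝ) : Prop where
  pos : 0 < r
  dim : Module.finrank ℝ π = m
  smooth : ContDiffOn ℝ 2 u (ball (π.orthogonalProjectionOnto x₀) r)
  graph : ∀ z ∈ ball x₀ r, (z ∈ M ↔
    πᗮ.starProjection z = (u (π.orthogonalProjectionOnto z) : EuclideanSpace ℝ (Fin N)))
  minimal : ∀ x ∈ ball (π.orthogonalProjectionOnto x₀) r, MinAt m u x

/-- internal version of the decay of the height -/
def HeightDecay {N : ℕ} (k : ℕ) (μ : Measure (EuclideanSpace ℝ (Fin N)))
    (M : Set (EuclideanSpace ℝ (Fin N))) (x₀ : EuclideanSpace ℝ (Fin N)) : Prop :=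
  ∃ C ρ : ℝ, 0 < ρ ∧ ∀ z ∈ μ.support, dist z x₀ < ρ → infDist z M ≤ C * dist z x₀ ^ (k + 1)

/-- internal version of the decay of the tilt -/
def TiltDecay {N : ℕ} (m k : ℕ) (μ : Measure (EuclideanSpace ℝ (Fin N)))
    (T : EuclideanSpace ℝ (Fin N) → Submodule ℝ (EuclideanSpace ℝ (Fin N)))
    (x₀ : EuclideanSpace ℝ (Fin N)) {π : Submodule ℝ (EuclideanSpace ℝ (Fin N))}
    (u : π → πᗮ) : Prop :=
  ∃ C ρ : ℝ, 0 < ρ ∧ ∀ r : ℝ, 0 < r → r < ρ →
    ∫⁻ z in ball x₀ r, ENNReal.ofReal (‖(T z).starProjection -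
      (tp u (π.orthogonalProjectionOnto z)).starProjection‖ ^ 2) ∂μ ≤
      ENNReal.ofReal (C * r ^ (m + 2 * k))

/-- A part of `S` in the ball of radius `r` about `x₀` which is separated from the rest of `S` in
this ball and whose closure lies in the (open) ball is empty. -/
def NoIsland {N : ℕ} (S : Set (EuclideanSpace ℝ (Fin N))) (x₀ : EuclideanSpace ℝ (Fin N))
    (r : ℝ) : Prop :=
  ∀ G ⊆ S ∩ ball x₀ r, closure G ∩ ((S ∩ ball x₀ r) \ G) = ∅ →
    G ∩ closure ((S ∩ ball x₀ r) \ G) = ∅ → closure G ⊆ ball x₀ r → G = ∅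

/-- The connected component of `z` in the part of the closure of `S` in the closed ball of radius
`r` about `x₀` meets the sphere of radius `r`. -/
def ReachesSphere {N : ℕ} (S : Set (EuclideanSpace ℝ (Fin N))) (x₀ : EuclideanSpace ℝ (Fin N))
    (r : ℝ) (z : EuclideanSpace ℝ (Fin N)) : Prop :=
  ∃ y ∈ connectedComponentIn (closure S ∩ closedBall x₀ r) z, dist y x₀ = r

section

variable {N m : ℕ} {U : Set (EuclideanSpace ℝ (Fin N))} {μ : Measure (EuclideanSpace ℝ (Fin N))}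
  {T : EuclideanSpace ℝ (Fin N) → Submodule ℝ (EuclideanSpace ℝ (Fin N))}
  {M : Set (EuclideanSpace ℝ (Fin N))} {x₀ : EuclideanSpace ℝ (Fin N)}
  {π : Submodule ℝ (EuclideanSpace ℝ (Fin N))} {u : π → πᗮ} {r : ℝ}

lemma mem_iff (hG : GraphAt m M x₀ π u r) {z : EuclideanSpace ℝ (Fin N)}
    (hz : z ∈ ball x₀ r) : z ∈ M ↔ ht u z = 0 := by
  rw [hG.graph z hz]
  unfold ht
  rw [sub_eq_zero]

/-- the defining function of the submanifold near a point -/
lemma exists_def (hm : 1 ≤ m) (hU : IsOpen U) (hx₀ : x₀ ∈ U)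
    (hG : GraphAt m M x₀ π u r) :
    ∃ (g : EuclideanSpace ℝ (Fin N) → ℝ) (r₁ : ℝ), 0 < r₁ ∧ r₁ < r ∧ closedBall x₀ r₁ ⊆ U ∧
      ContDiff ℝ 2 g ∧
      (∀ z ∈ closedBall x₀ r₁, ‖ht u z‖ ^ 2 ≤ 2 * g z) ∧
      (∀ z ∈ closedBall x₀ r₁, (z ∈ M ↔ g z = 0)) ∧
      (∀ z ∈ closedBall x₀ r₁, ∀ S : Submodule ℝ (EuclideanSpace ℝ (Fin N)),
        Module.finrank ℝ S = m →
        g z / 2 + defect S (tp u (π.orthogonalProjectionOnto z)) / 4 ≤ lap S g z) := by
  obtain ⟨g, r₁, hr₁, hr₁r, hg, h1, h2, h3⟩ := exists_g hm hG.dim hG.pos hG.smooth hG.minimal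
  obtain ⟨R₀, hR₀, hRU⟩ := Metric.isOpen_iff.1 hU x₀ hx₀
  have hsub : closedBall x₀ (min r₁ (R₀ / 2)) ⊆ closedBall x₀ r₁ :=
    closedBall_subset_closedBall (min_le_left _ _)
  refine ⟨g, min r₁ (R₀ / 2), lt_min hr₁ (by positivity), (min_le_left _ _).trans_lt hr₁r, ?_,
    hg, fun z hz => h1 z (hsub hz), ?_, fun z hz => h3 z (hsub hz)⟩
  · exact (closedBall_subset_ball ((min_le_right _ _).trans_lt (by linarith))).trans hRU
  · intro z hz
    rw [mem_iff hG (closedBall_subset_ball hr₁r (hsub hz))]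
    constructor
    · intro h
      exact (h2 z (hsub hz) h).1
    · intro h
      have h4 := h1 z (hsub hz)
      rw [h, mul_zero] at h4
      have h5 : ‖ht u z‖ = 0 := by
        have := norm_nonneg (ht u z)
        nlinarith
      exact norm_eq_zero.1 h5

lemma islands (hm : 1 ≤ m) (hU : IsOpen U) (hS : Stat m U μ fun x => (T x).starProjection)
    (hT : ∀ᵐ x ∂(μ.restrict U), Module.finrank ℝ (T x) = m) (hx₀ : x₀ ∈ U)
    (hG : GraphAt m M x₀ π u r) :
    ∃ r₁ : ℝ, 0 < r₁ ∧ ∀ s ∈ Ioc 0 r₁, NoIsland (μ.support \ M) x₀ s ∧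
      ∀ z ∈ closure (μ.support \ M) ∩ closedBall x₀ s,
        ReachesSphere (μ.support \ M) x₀ s z := by
  obtain ⟨g, r₁, hr₁, hr₁r, hcU, hg, h1, h2, h3⟩ := exists_def hm hU hx₀ hG
  have hg0 : ∀ z ∈ closedBall x₀ r₁, 0 ≤ g z := fun z hz => by
    have := h1 z hz
    nlinarith [sq_nonneg ‖ht u z‖]
  refine ⟨r₁, hr₁, ?_⟩
  rintro s ⟨hs, hsr⟩
  have hball : ball x₀ s ⊆ closedBall x₀ r₁ :=
    ball_subset_closedBall.trans (closedBall_subset_closedBall hsr)
  have hAe : (μ.support \ M) ∩ ball x₀ s = (μ.support ∩ ball x₀ s) ∩ {z | 0 < g z} := by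
    ext z
    constructor
    · rintro ⟨⟨hz1, hz2⟩, hz3⟩
      refine ⟨⟨hz1, hz3⟩, ?_⟩
      have h4 : g z ≠ 0 := fun h => hz2 ((h2 z (hball hz3)).2 h)
      exact lt_of_le_of_ne (hg0 z (hball hz3)) h4.symm
    · rintro ⟨⟨hz1, hz3⟩, hz2⟩
      refine ⟨⟨hz1, fun h => ?_⟩, hz3⟩
      have h4 : 0 < g z := hz2
      rw [(h2 z (hball hz3)).1 h] at h4
      exact lt_irrefl _ h4
  have hisl : NoIsland (μ.support \ M) x₀ s := by
    intro G hGA hG1 hG2 hG3
    apply no_piece hS hg isOpen_ball isBounded_ball (hball.trans hcU) hAe hGA _ hG1 hG2 hG3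
    have hdim : ∀ᵐ z ∂μ, z ∈ U → Module.finrank ℝ (T z) = m := ae_imp_of_ae_restrict hT
    filter_upwards [hdim] with z hz hzG
    have hzb : z ∈ closedBall x₀ r₁ := hball (hGA hzG).2
    have h4 := h3 z hzb (T z) (hz (hcU hzb))
    have h5 := defect_nonneg (T z) (tp u (π.orthogonalProjectionOnto z))
    have h6 : 0 < g z := by
      have := hGA hzG
      rw [hAe] at this
      exact this.2
    linarith
  refine ⟨hisl, ?_⟩
  -- components
  intro z hz
  have hKc : IsCompact (closure (μ.support \ M) ∩ closedBall x₀ s) :=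
    (isCompact_closedBall x₀ s).inter_left isClosed_closure
  have hcls : closure (μ.support \ M) ⊆ μ.support :=
    closure_minimal sdiff_subset Measure.isClosed_support
  apply component_reaches hKc _ hz
  intro Z hZK hZne hZc hZc'
  by_contra hcon
  push Not at hcon
  have hZb : Z ⊆ ball x₀ s := by
    intro y hy
    rw [mem_ball]
    exact lt_of_le_of_ne (mem_closedBall.1 (hZK hy).2) (hcon y hy)
  set K := closure (μ.support \ M) ∩ closedBall x₀ s with hK
  have hAK : (μ.support \ M) ∩ ball x₀ s ⊆ K :=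
    inter_subset_inter subset_closure ball_subset_closedBall
  have hd : ((μ.support \ M) ∩ ball x₀ s) \ (Z \ M) ⊆ K \ Z := by
    rintro y ⟨hy1, hy2⟩
    exact ⟨hAK hy1, fun h => hy2 ⟨h, hy1.1.2⟩⟩
  have hempty := hisl (Z \ M) (by
      rintro y ⟨hy1, hy2⟩
      exact ⟨⟨hcls (hZK hy1).1, hy2⟩, hZb hy1⟩) (by
      rw [eq_empty_iff_forall_notMem]
      rintro y ⟨hy1, hy2⟩
      exact (hd hy2).2 (closure_minimal sdiff_subset hZc hy1)) (by
      rw [eq_empty_iff_forall_notMem]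
      rintro y ⟨hy1, hy2⟩
      exact (closure_minimal hd hZc' hy2).2 hy1.1)
      ((closure_minimal sdiff_subset hZc).trans hZb)
  obtain ⟨y, hy⟩ := hZne
  have hyo : y ∈ ball x₀ s ∩ (K \ Z)ᶜ := ⟨hZb hy, fun h => h.2 hy⟩
  have hyc : y ∈ closure (μ.support \ M) := (hZK hy).1
  obtain ⟨w, hw1, hw2⟩ := mem_closure_iff.1 hyc _ (isOpen_ball.inter hZc'.isOpen_compl) hyo
  have hwK : w ∈ K := hAK ⟨hw2, hw1.1⟩
  have hwZ : w ∈ Z := by
    by_contra h
    exact hw1.2 ⟨hwK, h⟩
  have : w ∈ Z \ M := ⟨hwZ, hw2.2⟩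
  rw [hempty] at this
  exact this

lemma contact_at (hm : 1 ≤ m) (hU : IsOpen U) (hS : Stat m U μ fun x => (T x).starProjection)
    (hT : ∀ᵐ x ∂(μ.restrict U), Module.finrank ℝ (T x) = m) {θ : ℝ≥0∞}
    (hθ0 : θ ≠ 0) (hθ1 : θ ≠ ⊤) (hθ : ∀ᵐ x ∂(μ.restrict U), θ ≤ density m μ x) (hx₀ : x₀ ∈ U)
    (hxM : x₀ ∈ M) (hG : GraphAt m M x₀ π u r) {k : ℕ}
    (hd : upperDens m μ Mᶜ x₀ < θ * (1 / 4) ^ (m + k + 2)) :
    HeightDecay k μ M x₀ ∧ TiltDecay m k μ T x₀ u := by
  obtain ⟨g, r₁, hr₁, hr₁r, hcU, hg, h1, h2, h3⟩ := exists_def hm hU hx₀ hG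
  have hg0 : ∀ z ∈ closedBall x₀ r₁, 0 ≤ g z := fun z hz => by
    have := h1 z hz
    nlinarith [sq_nonneg ‖ht u z‖]
  have hx0 : g x₀ = 0 := (h2 x₀ (mem_closedBall_self hr₁.le)).1 hxM
  have e1 : (1 / 4 : ℝ≥0∞) ^ (m + k + 2) = ENNReal.ofReal ((1 / 4 : ℝ) ^ (m + k + 2)) := by
    rw [ENNReal.ofReal_pow (by norm_num), ENNReal.ofReal_div_of_pos (by norm_num)]
    norm_num
  rw [e1] at hd
  have hb := upperDens_bound (μ := μ) (m := m) hθ1 (by positivity) hd
  have hb' : ∀ᶠ s in 𝓝[>] (0:ℝ), μ.real (closedBall x₀ s ∩ {z | g z ≠ 0}) / s ^ m <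
      cst m θ / (4 * 4 ^ m) * (1 / 2) ^ (2 * (k + 1)) := by
    filter_upwards [hb, Ioc_mem_nhdsGT hr₁] with s hs1 hs2
    have hset : closedBall x₀ s ∩ {z | g z ≠ 0} = closedBall x₀ s ∩ Mᶜ := by
      ext z
      constructor
      · rintro ⟨hz1, hz2⟩
        exact ⟨hz1, fun h => hz2 ((h2 z (closedBall_subset_closedBall hs2.2 hz1)).1 h)⟩
      · rintro ⟨hz1, hz2⟩
        exact ⟨hz1, fun h => hz2 ((h2 z (closedBall_subset_closedBall hs2.2 hz1)).2 h)⟩
    rw [hset]
    refine hs1.trans_eq ?_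
    have e2 : (1 / 2 : ℝ) ^ (2 * (k + 1)) = (1 / 4) ^ (k + 1) := by
      rw [pow_mul]
      norm_num
    rw [e2, show m + k + 2 = m + (k + 1) + 1 by ring, pow_add, pow_add, div_pow 1 4 m, one_pow]
    field_simp
  obtain ⟨C, ρ, hC0, hρ0, hρ1, hC⟩ := contact hS hT hg hr₁ hcU hg0
    (fun z hz S hSm => by
      have h4 := h3 z hz S hSm
      have h5 := defect_nonneg S (tp u (π.orthogonalProjectionOnto z))
      have h6 := hg0 z hz
      linarith) (cst_pos (m := m) hθ0 hθ1)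
    (fun a ha s hs hsub => lower_real hS hθ1 hθ ha hs (hsub.trans hcU)) hx0 (2 * (k + 1)) hb'
  constructor
  · -- the foot point
    set foot : EuclideanSpace ℝ (Fin N) → EuclideanSpace ℝ (Fin N) := fun z => z - ht u z with hfoot
    have hfc : ContinuousAt foot x₀ := by
      have := ((ht_contDiffOn hG.smooth).contDiffAt (ball_mem_nhds x₀ hG.pos)).continuousAt
      exact continuousAt_id.sub this
    have hfx : foot x₀ = x₀ := by
      have := (mem_iff hG (mem_ball_self hG.pos)).1 hxM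
      simp [hfoot, this]
    have hev : ∀ᶠ z in 𝓝 x₀, foot z ∈ ball x₀ r := by
      apply hfc.eventually_mem
      rw [hfx]
      exact ball_mem_nhds x₀ hG.pos
    obtain ⟨δ, hδ0, hδ⟩ := Metric.eventually_nhds_iff_ball.1 hev
    refine ⟨Real.sqrt (2 * C), min ρ δ, lt_min hρ0 hδ0, ?_⟩
    intro z hz hzd
    have hzρ : dist z x₀ ≤ ρ := hzd.le.trans (min_le_left _ _)
    have hzδ : z ∈ ball x₀ δ := mem_ball.2 (hzd.trans_le (min_le_right _ _))
    have hzr₁ : z ∈ closedBall x₀ r₁ := mem_closedBall.2 (hzρ.trans hρ1)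
    have hfM : foot z ∈ M := by
      rw [hG.graph _ (hδ z hzδ)]
      have h5 : foot z = (π.orthogonalProjectionOnto z : EuclideanSpace ℝ (Fin N)) +
          (u (π.orthogonalProjectionOnto z) : EuclideanSpace ℝ (Fin N)) := by
        have h6 : z = (π.orthogonalProjectionOnto z : EuclideanSpace ℝ (Fin N)) +
          πᗮ.starProjection z :=
          (Submodule.starProjection_add_starProjection_orthogonal (K := π) z).symm
        simp only [hfoot, ht]
        nth_rewrite 1 [h6]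
        abel
      rw [h5, map_add, map_add, perp_proj, perp_self, proj_self, proj_perp, zero_add, add_zero]
    have h7 : infDist z M ≤ ‖ht u z‖ := by
      refine (infDist_le_dist_of_mem hfM).trans (le_of_eq ?_)
      rw [dist_eq_norm]
      simp [hfoot]
    refine h7.trans ?_
    apply le_of_sq_le_sq _ (by positivity)
    rw [mul_pow, Real.sq_sqrt (by positivity), ← pow_mul, mul_comm (k + 1) 2]
    have h8 := h1 z hzr₁
    have h9 := hC z hz hzρ
    linarith
  · -- tilt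
    have hcR : closedBall x₀ ρ ⊆ closedBall x₀ r₁ := closedBall_subset_closedBall hρ1
    set B : ℝ := μ.real (ball x₀ r₁) / r₁ ^ m with hB
    have hB0 : 0 ≤ B := by positivity
    refine ⟨8 * (16 * (m + 4)) * (C * (B * 4 ^ (2 * (k + 1) + m))), ρ / 4, by positivity, ?_⟩
    intro s hs hsρ
    have h2s : 0 < 2 * s := by positivity
    have hsub : closedBall x₀ (2 * s) ⊆ closedBall x₀ r₁ :=
      closedBall_subset_closedBall (by linarith)
    have hfin : μ (closedBall x₀ (2 * s)) < ⊤ :=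
      hS.fin _ (hsub.trans hcU) (isCompact_closedBall _ _)
    have hdim : ∀ᵐ z ∂(μ.restrict (closedBall x₀ (2 * s))), Module.finrank ℝ (T z) = m :=
      ae_restrict_of_ae_restrict_of_subset (hsub.trans hcU) hT
    have ht1 := tilt_bound hS hT hg h2s (hsub.trans hcU)
      (fun z hz => hg0 z (hsub hz))
      (d := fun z => defect (T z) (tp u (π.orthogonalProjectionOnto z)) / 4)
      (fun z => by
        have := defect_nonneg (T z) (tp u (π.orthogonalProjectionOnto z))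
        positivity) (by
        filter_upwards [hdim, ae_restrict_mem measurableSet_closedBall] with z hz1 hz2
        have h4 := h3 z (hsub hz2) (T z) hz1
        have h5 := hg0 z (hsub hz2)
        linarith)
    have e3 : 2 * s / 2 = s := by ring
    rw [e3] at ht1
    -- the integral of g
    have hint : ∫ z in closedBall x₀ (2 * s), g z ∂μ ≤
        C * (2 * s) ^ (2 * (k + 1)) * (B * (4 * s) ^ m) := by
      have h4 : ∫ z in closedBall x₀ (2 * s), g z ∂μ ≤
          ∫ _z in closedBall x₀ (2 * s), C * (2 * s) ^ (2 * (k + 1)) ∂μ := by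
        apply integral_mono_ae (integrableOn_cb hfin hg.continuous)
          (integrableOn_const hfin.ne)
        filter_upwards [ae_restrict_mem measurableSet_closedBall,
          ae_restrict_of_ae (Measure.support_mem_ae (μ := μ))] with z hz1 hz2
        rw [mem_closedBall] at hz1
        refine (hC z hz2 (by linarith)).trans ?_
        exact mul_le_mul_of_nonneg_left (pow_le_pow_left₀ dist_nonneg hz1 _) hC0
      refine h4.trans ?_
      rw [setIntegral_const, smul_eq_mul, mul_comm]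
      apply mul_le_mul_of_nonneg_left _ (by positivity)
      have h5 := mono hS hcU (r := 4 * s) (by positivity) (by linarith)
      rw [div_le_iff₀ (by positivity)] at h5
      refine le_trans ?_ h5
      have h6 : ball x₀ (4 * s) ⊆ closedBall x₀ r₁ :=
        ball_subset_closedBall.trans (closedBall_subset_closedBall (by linarith))
      exact measureReal_mono (closedBall_subset_ball (by linarith))
        ((measure_mono h6).trans_lt (hS.fin _ hcU (isCompact_closedBall _ _))).ne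
    have hmain : ∫⁻ z in ball x₀ s, ENNReal.ofReal (‖(T z).starProjection -
        (tp u (π.orthogonalProjectionOnto z)).starProjection‖ ^ 2) ∂μ ≤
        ENNReal.ofReal 8 * ∫⁻ z in closedBall x₀ s,
          ENNReal.ofReal (defect (T z) (tp u (π.orthogonalProjectionOnto z)) / 4) ∂μ := by
      rw [← lintegral_const_mul' _ _ ENNReal.ofReal_ne_top]
      refine (lintegral_mono_set ball_subset_closedBall).trans ?_
      apply lintegral_mono_ae
      have hdim' : ∀ᵐ z ∂(μ.restrict (closedBall x₀ s)), Module.finrank ℝ (T z) = m :=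
        ae_restrict_of_ae_restrict_of_subset ((closedBall_subset_closedBall (by linarith)).trans
          (hsub.trans hcU)) hT
      filter_upwards [hdim'] with z hz1
      rw [← ENNReal.ofReal_mul (by norm_num)]
      apply ENNReal.ofReal_le_ofReal
      have h6 := norm_sub_le_defect (T z) (tp u (π.orthogonalProjectionOnto z))
        (by rw [hz1, finrank_tp, hG.dim])
      change ‖(T z).starProjection - (tp u (π.orthogonalProjectionOnto z)).starProjection‖ ^ 2 ≤ _
      linarith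
    refine hmain.trans ?_
    refine (mul_le_mul_right ht1 _).trans ?_
    rw [← ENNReal.ofReal_mul (by norm_num)]
    apply ENNReal.ofReal_le_ofReal
    have h7 : 16 * ((m:ℝ) + 4) / (2 * s) ^ 2 * ∫ z in closedBall x₀ (2 * s), g z ∂μ ≤
        16 * ((m:ℝ) + 4) / (2 * s) ^ 2 * (C * (2 * s) ^ (2 * (k + 1)) * (B * (4 * s) ^ m)) :=
      mul_le_mul_of_nonneg_left hint (by positivity)
    have h8 : 16 * ((m:ℝ) + 4) / (2 * s) ^ 2 * (C * (2 * s) ^ (2 * (k + 1)) * (B * (4 * s) ^ m)) =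
        16 * ((m:ℝ) + 4) * (C * (B * (2 ^ (2 * k) * 4 ^ m))) * s ^ (m + 2 * k) := by
      have e4 : (2 * s) ^ (2 * (k + 1)) = (2 * s) ^ 2 * (2 ^ (2 * k) * s ^ (2 * k)) := by
        rw [← mul_pow, ← pow_add]
        congr 1
        ring
      rw [e4, mul_pow 4 s m, pow_add s]
      field_simp
    have h9 : (2 : ℝ) ^ (2 * k) * 4 ^ m ≤ 4 ^ (2 * (k + 1) + m) := by
      rw [pow_add]
      apply mul_le_mul_of_nonneg_right _ (by positivity)
      calc (2 : ℝ) ^ (2 * k) ≤ 2 ^ (2 * (k + 1)) := pow_le_pow_right₀ (by norm_num) (by omega)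
        _ ≤ 4 ^ (2 * (k + 1)) := pow_le_pow_left₀ (by norm_num) (by norm_num) _
    calc 8 * (16 * ((m:ℝ) + 4) / (2 * s) ^ 2 * ∫ z in closedBall x₀ (2 * s), g z ∂μ)
        ≤ 8 * (16 * ((m:ℝ) + 4) * (C * (B * (2 ^ (2 * k) * 4 ^ m))) * s ^ (m + 2 * k)) := by
          rw [← h8]
          linarith
      _ ≤ 8 * (16 * ((m:ℝ) + 4) * (C * (B * 4 ^ (2 * (k + 1) + m))) * s ^ (m + 2 * k)) := by
          gcongr
      _ = _ := by ring

lemma graph_mono (hG : GraphAt m M x₀ π u r) {s : ℝ} (hs : 0 < s) (hsr : s ≤ r) :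
    GraphAt m M x₀ π u s where
  pos := hs
  dim := hG.dim
  smooth := hG.smooth.mono (ball_subset_ball hsr)
  graph := fun z hz => hG.graph z (ball_subset_ball hsr hz)
  minimal := fun x hx => hG.minimal x (ball_subset_ball hsr hx)

lemma upperDens_zero {S S₁ S₂ : Set (EuclideanSpace ℝ (Fin N))} (h : S ⊆ S₁ ∪ S₂)
    (h1 : upperDens m μ S₁ x₀ = 0) (h2 : upperDens m μ S₂ x₀ = 0) : upperDens m μ S x₀ = 0 := by
  have t1 := tendsto_of_le_liminf_of_limsup_le zero_le h1.le
  have t2 := tendsto_of_le_liminf_of_limsup_le zero_le h2.le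
  have t3 := t1.add t2
  rw [add_zero] at t3
  have h3 : upperDens m μ S x₀ ≤ 0 := by
    rw [← t3.limsup_eq]
    unfold upperDens
    apply limsup_le_limsup
    · filter_upwards with r
      rw [← ENNReal.add_div]
      apply ENNReal.div_le_div_right
      refine (measure_mono (inter_subset_inter_right _ h)).trans ?_
      rw [inter_union_distrib_left]
      exact measure_union_le _ _
    · isBoundedDefault
    · isBoundedDefault
  exact le_antisymm h3 zero_le

lemma mem_of_dens (hU : IsOpen U) (hS : Stat m U μ fun x => (T x).starProjection)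
    (hMc : x₀ ∈ closure M → x₀ ∈ M) {θ : ℝ≥0∞} (hθ0 : θ ≠ 0) (hθ1 : θ ≠ ⊤)
    (hθ : ∀ᵐ x ∂(μ.restrict U), θ ≤ density m μ x) (hx₀U : x₀ ∈ U) (hx₀ : x₀ ∈ μ.support)
    (hd : upperDens m μ Mᶜ x₀ = 0) : x₀ ∈ M := by
  by_contra hcon
  have h1 : x₀ ∉ closure M := fun h => hcon (hMc h)
  obtain ⟨δ, hδ0, hδ⟩ := Metric.isOpen_iff.1 isClosed_closure.isOpen_compl x₀ h1
  obtain ⟨R₀, hR₀, hRU⟩ := Metric.isOpen_iff.1 hU x₀ hx₀U
  have h2 : θ ≤ upperDens m μ Mᶜ x₀ := by
    unfold upperDens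
    apply le_limsup_of_frequently_le'
    apply Eventually.frequently
    filter_upwards [Ioc_mem_nhdsGT (lt_min hδ0 hR₀)] with r hr
    have h3 : ball x₀ r ∩ Mᶜ = ball x₀ r := by
      apply inter_eq_left.2
      intro y hy hyM
      exact hδ (ball_subset_ball (hr.2.trans (min_le_left _ _)) hy) (subset_closure hyM)
    rw [h3]
    have h4 := lower_supp hS hθ1 hθ hx₀ hr.1
      ((ball_subset_ball (hr.2.trans (min_le_right _ _))).trans hRU)
    have hr' : ENNReal.ofReal r ≠ 0 := (ENNReal.ofReal_pos.2 hr.1).ne'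
    rwa [ENNReal.le_div_iff_mul_le (Or.inl (mul_ne_zero (omega_pos m) (pow_ne_zero _ hr')))
      (Or.inl (ENNReal.mul_ne_top (omega_lt m) (ENNReal.pow_ne_top ENNReal.ofReal_ne_top)))]
  rw [hd] at h2
  exact hθ0 (le_antisymm h2 zero_le)

lemma dichotomy (hm : 1 ≤ m) (hU : IsOpen U) (hS : Stat m U μ fun x => (T x).starProjection)
    (hT : ∀ᵐ x ∂(μ.restrict U), Module.finrank ℝ (T x) = m)
    (hG : GraphAt m M x₀ π u r) (hx₀U : x₀ ∈ U) (hx₀ : x₀ ∈ μ.support) :
    (∃ r : ℝ, 0 < r ∧ μ.support ∩ ball x₀ r = M ∩ ball x₀ r) ∨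
      ∃ r₁ : ℝ, 0 < r₁ ∧ ∀ r ∈ Ioc 0 r₁, ReachesSphere (μ.support \ M) x₀ r x₀ := by
  by_cases hc : x₀ ∈ closure (μ.support \ M)
  · right
    obtain ⟨r₁, hr₁, h⟩ := islands hm hU hS hT hx₀U hG
    exact ⟨r₁, hr₁, fun s hs => (h s hs).2 x₀ ⟨hc, mem_closedBall_self hs.1.le⟩⟩
  · left
    obtain ⟨δ, hδ0, hδ⟩ := Metric.isOpen_iff.1 isClosed_closure.isOpen_compl x₀ hc
    obtain ⟨R₀, hR₀, hRU⟩ := Metric.isOpen_iff.1 hU x₀ hx₀U
    set s : ℝ := min (min r δ) (R₀ / 2) with hs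
    have hs0 : 0 < s := lt_min (lt_min hG.pos hδ0) (by positivity)
    have hsr : s ≤ r := (min_le_left _ _).trans (min_le_left _ _)
    have hsδ : s ≤ δ := (min_le_left _ _).trans (min_le_right _ _)
    have hsR : s ≤ R₀ / 2 := min_le_right _ _
    have hG' := graph_mono hG hs0 hsr
    have hcU : closedBall x₀ s ⊆ U := (closedBall_subset_ball (by linarith)).trans hRU
    have hsM : ∀ z ∈ μ.support, z ∈ ball x₀ s → z ∈ M := by
      intro z hz hzs
      by_contra hzM
      exact hδ (ball_subset_ball hsδ hzs) (subset_closure ⟨hz, hzM⟩)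
    obtain ⟨ρ, hρ0, hρ⟩ := no_hole hm hS hT hG'.dim hs0 hG'.smooth hG'.minimal
      hcU (fun z hz hzs => (mem_iff hG' hzs).1 (hsM z hz hzs)) hx₀
    refine ⟨min s ρ, lt_min hs0 hρ0, ?_⟩
    ext z
    constructor
    · rintro ⟨hz1, hz2⟩
      exact ⟨hsM z hz1 (ball_subset_ball (min_le_left _ _) hz2), hz2⟩
    · rintro ⟨hz1, hz2⟩
      refine ⟨hρ z (ball_subset_ball (min_le_right _ _) hz2) ?_, hz2⟩
      exact (mem_iff hG' (ball_subset_ball (min_le_left _ _) hz2)).1 hz1

end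


end Pool.Agent.Helper68V
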