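import Pool.Agent.Helper68V.P7

/-!
Stationary varifolds and minimal submanifolds: the definitions of the results for MP_8daebb_an, and
the passage to the internal versions.
-/

namespace Pool.Agent.Helper68V.Pub

open MeasureTheory Set Filter Topology Metric Pool.Agent.TH337.VF
open scoped ENNReal RealInnerProductSpace

/-- The weight measure `μ` together with the field of tangent planes `T` is a stationary
`m`-dimensional varifold in `U`: `μ` is finite on compact subsets of `U`, the plane field is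
measurable, `T x` is an `m`-plane for `μ`-almost every `x` in `U`, and the first variation
vanishes. -/
structure IsStationaryVarifold {N : ℕ} (m : ℕ) (U : Set (EuclideanSpace ℝ (Fin N)))
    (μ : Measure (EuclideanSpace ℝ (Fin N)))
    (T : EuclideanSpace ℝ (Fin N) → Submodule ℝ (EuclideanSpace ℝ (Fin N))) : Prop where
  finite_compact : ∀ K ⊆ U, IsCompact K → μ K < ⊤
  measurable_plane : Measurable fun x => (T x).starProjection
  dim_plane : ∀ᵐ x ∂(μ.restrict U), Module.finrank ℝ (T x) = m
  stationary : ∀ X : EuclideanSpace ℝ (Fin N) → EuclideanSpace ℝ (Fin N),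
    ContDiff ℝ 1 X → HasCompactSupport X → tsupport X ⊆ U →
    ∫ x, LinearMap.trace ℝ (EuclideanSpace ℝ (Fin N))
      ((T x).starProjection ∘L fderiv ℝ X x :
        EuclideanSpace ℝ (Fin N) →L[ℝ] EuclideanSpace ℝ (Fin N)) ∂μ = 0

/-- The plane of all vectors `a + Du(z) a`, `a ∈ π`: the tangent plane of the graph of the function
`u` over the plane `π` at the point above (the projection to `π` of) `z`. -/
noncomputable def tangentPlane {N : ℕ} (π : Submodule ℝ (EuclideanSpace ℝ (Fin N)))
    (u : EuclideanSpace ℝ (Fin N) → EuclideanSpace ℝ (Fin N)) (z : EuclideanSpace ℝ (Fin N)) :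
    Submodule ℝ (EuclideanSpace ℝ (Fin N)) :=
  π.map ((ContinuousLinearMap.id ℝ (EuclideanSpace ℝ (Fin N)) + fderiv ℝ u z :
    EuclideanSpace ℝ (Fin N) →L[ℝ] EuclideanSpace ℝ (Fin N)) :
    EuclideanSpace ℝ (Fin N) →ₗ[ℝ] EuclideanSpace ℝ (Fin N))

/-- The second derivative `D²u(z)(a, b)`. -/
noncomputable def secondDerivative {E : Type} [NormedAddCommGroup E] [NormedSpace ℝ E]
    (u : E → E) (z a b : E) : E :=
  fderiv ℝ (fderiv ℝ u) z a b

/-- The minimal surface system for the graph of `u` over the `m`-plane `π`: for orthonormal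
vectors `τ₁, …, τₘ` in its tangent plane, `∑ D²u(z)(τᵢ, τᵢ) = 0`. -/
def MinimalSurfaceSystem {N : ℕ} (m : ℕ) (π : Submodule ℝ (EuclideanSpace ℝ (Fin N)))
    (u : EuclideanSpace ℝ (Fin N) → EuclideanSpace ℝ (Fin N)) (z : EuclideanSpace ℝ (Fin N)) :
    Prop :=
  ∀ τ : Fin m → EuclideanSpace ℝ (Fin N), Orthonormal ℝ τ → (∀ i, τ i ∈ tangentPlane π u z) →
    ∑ i, secondDerivative u z (τ i) (τ i) = 0

/-- In the ball of radius `r` about `x₀` the set `M` is the graph `{z | z = pz + u z}`, `p` the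
orthogonal projection onto the `m`-plane `π`, of the `C²` function `u`, which depends on `pz` only
and has values orthogonal to `π`; and `u` solves the minimal surface system. -/
structure IsMinimalGraphAt {N : ℕ} (m : ℕ) (M : Set (EuclideanSpace ℝ (Fin N)))
    (x₀ : EuclideanSpace ℝ (Fin N)) (π : Submodule ℝ (EuclideanSpace ℝ (Fin N)))
    (u : EuclideanSpace ℝ (Fin N) → EuclideanSpace ℝ (Fin N)) (r : ℝ) : Prop where
  pos : 0 < r
  dim : Module.finrank ℝ π = m
  function_on_plane : ∀ z, u z = u (π.starProjection z)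
  vertical : ∀ z, u z ∈ πᗮ
  smooth : ContDiffOn ℝ 2 u (ball x₀ r)
  graph : ∀ z ∈ ball x₀ r, (z ∈ M ↔ z = π.starProjection z + u z)
  minimal : ∀ z ∈ ball x₀ r, MinimalSurfaceSystem m π u z

/-- `M` is a relatively closed embedded minimal `C²` submanifold of dimension `m` of the open set
`U`. -/
structure IsMinimalSubmanifold {N : ℕ} (m : ℕ) (U M : Set (EuclideanSpace ℝ (Fin N))) : Prop where
  subset : M ⊆ U
  closed : ∀ x ∈ U, x ∈ closure M → x ∈ M
  graph : ∀ x ∈ M, ∃ π u r, IsMinimalGraphAt m M x π u r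

/-- The squared distance of the plane `S` to the tangent plane of the graph of `u` above `z`. -/
noncomputable def tilt {N : ℕ} (π : Submodule ℝ (EuclideanSpace ℝ (Fin N)))
    (u : EuclideanSpace ℝ (Fin N) → EuclideanSpace ℝ (Fin N)) (z : EuclideanSpace ℝ (Fin N))
    (S : Submodule ℝ (EuclideanSpace ℝ (Fin N))) : ℝ≥0∞ :=
  ENNReal.ofReal (‖S.starProjection - (tangentPlane π u z).starProjection‖ ^ 2)

/-- `V = (μ, T)` has contact of order `k + 1` with `M` at `x₀`: on the support of `μ` the distance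
to `M` is `O(|z - x₀| ^ (k + 1))`, and the integral over the ball of radius `r` about `x₀` of the
squared distance of `T z` to the tangent plane of `M` above `z` is `O(r ^ (m + 2 k))`. -/
def Contact {N : ℕ} (m k : ℕ) (μ : Measure (EuclideanSpace ℝ (Fin N)))
    (T : EuclideanSpace ℝ (Fin N) → Submodule ℝ (EuclideanSpace ℝ (Fin N)))
    (M : Set (EuclideanSpace ℝ (Fin N))) (x₀ : EuclideanSpace ℝ (Fin N)) : Prop :=
  (∃ C ρ : ℝ, 0 < ρ ∧ ∀ z ∈ μ.support, dist z x₀ < ρ →
    infDist z M ≤ C * dist z x₀ ^ (k + 1)) ∧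
  ∀ π u r₀, IsMinimalGraphAt m M x₀ π u r₀ → ∃ C ρ : ℝ, 0 < ρ ∧ ∀ r : ℝ, 0 < r → r < ρ →
    ∫⁻ z in ball x₀ r, tilt π u z (T z) ∂μ ≤ ENNReal.ofReal (C * r ^ (m + 2 * k))

section

variable {N m : ℕ} {U : Set (EuclideanSpace ℝ (Fin N))} {μ : Measure (EuclideanSpace ℝ (Fin N))}
  {T : EuclideanSpace ℝ (Fin N) → Submodule ℝ (EuclideanSpace ℝ (Fin N))}
  {M : Set (EuclideanSpace ℝ (Fin N))} {x₀ : EuclideanSpace ℝ (Fin N)}
  {π : Submodule ℝ (EuclideanSpace ℝ (Fin N))}
  {u : EuclideanSpace ℝ (Fin N) → EuclideanSpace ℝ (Fin N)} {r : ℝ}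

lemma toStat (hV : IsStationaryVarifold m U μ T) : Stat m U μ (fun x => (T x).starProjection) := by
  refine ⟨hV.finite_compact, hV.measurable_plane, ?_, ?_, ?_⟩
  · intro x
    exact Submodule.starProjection_norm_le _
  · filter_upwards [hV.dim_plane] with x hx
    rw [trc_starProjection, hx]
  · intro X hX hc hXU
    exact hV.stationary X hX hc hXU

/-- the internal version of a graph function -/
noncomputable def inner (π : Submodule ℝ (EuclideanSpace ℝ (Fin N)))
    (u : EuclideanSpace ℝ (Fin N) → EuclideanSpace ℝ (Fin N)) (x : π) : πᗮ :=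
  πᗮ.orthogonalProjectionOnto (u x)

lemma inner_eq (hG : IsMinimalGraphAt m M x₀ π u r) (z : EuclideanSpace ℝ (Fin N)) :
    (inner π u (π.orthogonalProjectionOnto z) : EuclideanSpace ℝ (Fin N)) = u z := by
  unfold inner
  have h1 : u (π.orthogonalProjectionOnto z : EuclideanSpace ℝ (Fin N)) = u z :=
    (hG.function_on_plane z).symm
  rw [h1]
  exact Submodule.starProjection_eq_self_iff.2 (hG.vertical z)

/-- the point over `x` in the ball -/
lemma lift_mem {x : π} (hx : x ∈ ball (π.orthogonalProjectionOnto x₀) r) :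
    (x : EuclideanSpace ℝ (Fin N)) + πᗮ.starProjection x₀ ∈ ball x₀ r := by
  rw [mem_ball, dist_eq_norm] at hx ⊢
  have h1 : (x : EuclideanSpace ℝ (Fin N)) + πᗮ.starProjection x₀ - x₀ =
      ((x - π.orthogonalProjectionOnto x₀ : π) : EuclideanSpace ℝ (Fin N)) := by
    have h2 : x₀ = (π.orthogonalProjectionOnto x₀ : EuclideanSpace ℝ (Fin N)) +
        πᗮ.starProjection x₀ :=
      (Submodule.starProjection_add_starProjection_orthogonal (K := π) x₀).symm
    nth_rewrite 2 [h2]
    rw [Submodule.coe_sub]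
    abel
  rw [h1]
  exact hx

lemma proj_lift (x : π) : π.orthogonalProjectionOnto
    ((x : EuclideanSpace ℝ (Fin N)) + πᗮ.starProjection x₀) = x := by
  rw [map_add, Helper68V.proj_self]
  have : π.orthogonalProjectionOnto (πᗮ.starProjection x₀) = 0 :=
    Submodule.orthogonalProjectionOnto_apply_of_mem_orthogonal
      (Submodule.starProjection_apply_mem _ _)
  rw [this, add_zero]

lemma inner_lift (hG : IsMinimalGraphAt m M x₀ π u r) (x : π) :
    inner π u x = πᗮ.orthogonalProjectionOnto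
      (u ((x : EuclideanSpace ℝ (Fin N)) + πᗮ.starProjection x₀)) := by
  unfold inner
  rw [hG.function_on_plane (x + πᗮ.starProjection x₀)]
  have : π.starProjection ((x : EuclideanSpace ℝ (Fin N)) + πᗮ.starProjection x₀) = x :=
    congrArg (fun y : π => (y : EuclideanSpace ℝ (Fin N))) (proj_lift (x₀ := x₀) x)
  rw [this]

lemma inner_smooth (hG : IsMinimalGraphAt m M x₀ π u r) :
    ContDiffOn ℝ 2 (inner π u) (ball (π.orthogonalProjectionOnto x₀) r) := by
  have h1 : inner π u = fun x : π => πᗮ.orthogonalProjectionOnto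
      (u ((x : EuclideanSpace ℝ (Fin N)) + πᗮ.starProjection x₀)) := by
    funext x
    exact inner_lift hG x
  rw [h1]
  have h2 : ContDiff ℝ 2 (fun x : π => (x : EuclideanSpace ℝ (Fin N)) + πᗮ.starProjection x₀) :=
    π.subtypeL.contDiff.add contDiff_const
  exact πᗮ.orthogonalProjectionOnto.contDiff.comp_contDiffOn
    (hG.smooth.comp h2.contDiffOn fun x hx => lift_mem hx)

lemma fderiv_u (hG : IsMinimalGraphAt m M x₀ π u r) {z : EuclideanSpace ℝ (Fin N)}
    (hz : z ∈ ball x₀ r) : fderiv ℝ u z = πᗮ.subtypeL ∘L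
      (fderiv ℝ (inner π u) (π.orthogonalProjectionOnto z)) ∘L π.orthogonalProjectionOnto := by
  have h1 : u = fun z => (inner π u (π.orthogonalProjectionOnto z) : EuclideanSpace ℝ (Fin N)) := by
    funext z
    exact (inner_eq hG z).symm
  have h2 : DifferentiableAt ℝ (inner π u) (π.orthogonalProjectionOnto z) :=
    ((inner_smooth hG).contDiffAt (isOpen_ball.mem_nhds
      (Helper68V.proj_mem_ball hz))).differentiableAt two_ne_zero
  have h3 : HasFDerivAt (fun z => inner π u (π.orthogonalProjectionOnto z))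
      ((fderiv ℝ (inner π u) (π.orthogonalProjectionOnto z)) ∘L π.orthogonalProjectionOnto) z :=
    h2.hasFDerivAt.comp z π.orthogonalProjectionOnto.hasFDerivAt
  have h4 : HasFDerivAt (fun z => (inner π u (π.orthogonalProjectionOnto z) :
      EuclideanSpace ℝ (Fin N))) (πᗮ.subtypeL ∘L
      (fderiv ℝ (inner π u) (π.orthogonalProjectionOnto z)) ∘L π.orthogonalProjectionOnto) z :=
    πᗮ.subtypeL.hasFDerivAt.comp z h3
  conv_lhs => rw [h1]
  exact h4.fderiv

lemma tangent_eq (hG : IsMinimalGraphAt m M x₀ π u r) {z : EuclideanSpace ℝ (Fin N)}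
    (hz : z ∈ ball x₀ r) :
    Helper68V.tp (inner π u) (π.orthogonalProjectionOnto z) = tangentPlane π u z := by
  ext v
  rw [Helper68V.mem_tp]
  unfold tangentPlane
  rw [Submodule.mem_map, fderiv_u hG hz]
  constructor
  · rintro ⟨a, rfl⟩
    refine ⟨a, a.2, ?_⟩
    simp
  · rintro ⟨a, ha, rfl⟩
    refine ⟨⟨a, ha⟩, ?_⟩
    have := Helper68V.proj_self (⟨a, ha⟩ : π)
    simp only at this
    simp [this]

lemma second_eq (hG : IsMinimalGraphAt m M x₀ π u r) {z : EuclideanSpace ℝ (Fin N)}
    (hz : z ∈ ball x₀ r) (a b : EuclideanSpace ℝ (Fin N)) :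
    fderiv ℝ (fderiv ℝ u) z a b =
      (fderiv ℝ (fderiv ℝ (inner π u)) (π.orthogonalProjectionOnto z)
        (π.orthogonalProjectionOnto a) (π.orthogonalProjectionOnto b) :
        EuclideanSpace ℝ (Fin N)) := by
  have h2 : DifferentiableAt ℝ (fderiv ℝ u) z :=
    ((hG.smooth.contDiffAt (isOpen_ball.mem_nhds hz)).fderiv_right (m := 1)
      (by norm_num)).differentiableAt one_ne_zero
  have h1 : DifferentiableAt ℝ (fderiv ℝ (inner π u)) (π.orthogonalProjectionOnto z) :=
    (((inner_smooth hG).contDiffAt (isOpen_ball.mem_nhds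
      (Helper68V.proj_mem_ball hz))).fderiv_right (m := 1) (by norm_num)).differentiableAt
      one_ne_zero
  have h3 : (fun y => fderiv ℝ u y b) =ᶠ[𝓝 z] fun y =>
      (fderiv ℝ (inner π u) (π.orthogonalProjectionOnto y) (π.orthogonalProjectionOnto b) :
        EuclideanSpace ℝ (Fin N)) := by
    filter_upwards [isOpen_ball.mem_nhds hz] with y hy
    rw [fderiv_u hG hy]
    rfl
  rw [← Helper68V.fderiv_apply_const h2, h3.fderiv_eq]
  have h4 : HasFDerivAt (fun y => fderiv ℝ (inner π u) (π.orthogonalProjectionOnto y))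
      ((fderiv ℝ (fderiv ℝ (inner π u)) (π.orthogonalProjectionOnto z)) ∘L
        π.orthogonalProjectionOnto) z :=
    HasFDerivAt.comp (g := fderiv ℝ (inner π u)) z h1.hasFDerivAt
      (π.orthogonalProjectionOnto.hasFDerivAt (x := z))
  have h5 := h4.clm_apply (hasFDerivAt_const (π.orthogonalProjectionOnto b) z)
  have h6 : HasFDerivAt (fun y => (fderiv ℝ (inner π u) (π.orthogonalProjectionOnto y)
      (π.orthogonalProjectionOnto b) : EuclideanSpace ℝ (Fin N))) _ z :=
    πᗮ.subtypeL.hasFDerivAt.comp z h5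
  rw [h6.fderiv]
  simp

lemma toGraphAt (hG : IsMinimalGraphAt m M x₀ π u r) :
    Helper68V.GraphAt m M x₀ π (inner π u) r where
  pos := hG.pos
  dim := hG.dim
  smooth := inner_smooth hG
  graph := by
    intro z hz
    rw [hG.graph z hz, inner_eq hG]
    have h1 : z = π.starProjection z + πᗮ.starProjection z :=
      (Submodule.starProjection_add_starProjection_orthogonal (K := π) z).symm
    constructor
    · intro h
      nth_rewrite 1 [h1] at h
      exact add_left_cancel h
    · intro h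
      rw [← h]
      exact h1
  minimal := by
    intro x hx τ
    have hz := lift_mem hx
    have hx' := proj_lift (x₀ := x₀) x
    set z := (x : EuclideanSpace ℝ (Fin N)) + πᗮ.starProjection x₀ with hzdef
    have hte := tangent_eq hG hz
    rw [hx'] at hte
    have h1 := hG.minimal z hz (fun i => (τ i : EuclideanSpace ℝ (Fin N))) (by
      have := τ.orthonormal
      exact this.comp_linearIsometry (Helper68V.tp (inner π u) x).subtypeₗᵢ) (fun i => by
      rw [← hte]
      exact (τ i).2)
    have h2 : ∀ i, secondDerivative u z (τ i : EuclideanSpace ℝ (Fin N))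
        (τ i : EuclideanSpace ℝ (Fin N)) =
        (fderiv ℝ (fderiv ℝ (inner π u)) x (π.orthogonalProjectionOnto (τ i :
          EuclideanSpace ℝ (Fin N))) (π.orthogonalProjectionOnto (τ i :
          EuclideanSpace ℝ (Fin N))) : EuclideanSpace ℝ (Fin N)) := by
      intro i
      unfold secondDerivative
      rw [second_eq hG hz, hx']
    rw [Finset.sum_congr rfl fun i _ => h2 i, ← Submodule.coe_sum] at h1
    exact Subtype.ext h1

lemma contact_of {θ : ℝ≥0∞} (hm : 1 ≤ m) (hU : IsOpen U) (hV : IsStationaryVarifold m U μ T)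
    (hθ0 : θ ≠ 0) (hθ1 : θ ≠ ⊤) (hθ : ∀ᵐ x ∂(μ.restrict U), θ ≤ density m μ x)
    (hM : IsMinimalSubmanifold m U M) (hx₀ : x₀ ∈ M) {k : ℕ}
    (hk : upperDens m μ Mᶜ x₀ < θ * (1 / 4) ^ (m + k + 2)) : Contact m k μ T M x₀ := by
  have hS := toStat hV
  have hT := hV.dim_plane
  obtain ⟨π, u, r, hG⟩ := hM.graph x₀ hx₀
  refine ⟨(Helper68V.contact_at hm hU hS hT hθ0 hθ1 hθ (hM.subset hx₀) hx₀
    (toGraphAt hG) hk).1, ?_⟩
  intro π' u' r' hG'
  obtain ⟨C, ρ, hρ, h⟩ := (Helper68V.contact_at hm hU hS hT hθ0 hθ1 hθ (hM.subset hx₀) hx₀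
    (toGraphAt hG') hk).2
  refine ⟨C, min ρ r', lt_min hρ hG'.pos, fun s hs hsr => ?_⟩
  refine le_trans (le_of_eq ?_) (h s hs (hsr.trans_le (min_le_left _ _)))
  apply setLIntegral_congr_fun measurableSet_ball
  intro z hz
  have e := congrArg (fun S : Submodule ℝ (EuclideanSpace ℝ (Fin N)) =>
    ENNReal.ofReal (‖(T z).starProjection - S.starProjection‖ ^ 2))
    (tangent_eq hG' (ball_subset_ball (hsr.le.trans (min_le_right _ _)) hz))
  exact e.symm

lemma measurable_M (hU : IsOpen U) (hM : IsMinimalSubmanifold m U M) : MeasurableSet M := by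
  have e : M = U ∩ closure M := by
    ext x
    exact ⟨fun h => ⟨hM.subset h, subset_closure h⟩, fun h => hM.closed x h.1 h.2⟩
  rw [e]
  exact hU.measurableSet.inter isClosed_closure.measurableSet

end

end Pool.Agent.Helper68V.Pub
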